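import Mathlib

/-! A polynomial Ramsey theorem for merging runs. -/

set_option autoImplicit false
open Finset

namespace Pool.Agent.H834Q

/-- long chains or large antichains -/
theorem mirsky {R : ℕ → ℕ → Prop} (hlt : ∀ p q, R p q → p < q)
    (htr : ∀ p q s, R p q → R q s → R p s) (K : ℕ) :
    ∀ (n : ℕ) (P : Finset ℕ), n * K < P.card →
      (∃ C ⊆ P, C.card = n + 1 ∧ ∀ p ∈ C, ∀ q ∈ C, p < q → R p q) ∨
      (∃ A ⊆ P, K < A.card ∧ ∀ p ∈ A, ∀ q ∈ A, ¬ R p q) := by
  classical
  intro n
  induction n with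
  | zero =>
    intro P hP
    obtain ⟨p, hp⟩ := card_pos.1 (show 0 < P.card by omega)
    refine Or.inl ⟨{p}, singleton_subset_iff.2 hp, card_singleton p, ?_⟩
    intro a ha b hb hab
    rw [mem_singleton] at ha hb
    rw [ha, hb] at hab
    exact absurd hab (lt_irrefl _)
  | succ n ih =>
    intro P hP
    by_cases hM : K < (P.filter (fun p => ¬ ∃ q ∈ P, R q p)).card
    · refine Or.inr ⟨_, filter_subset _ _, hM, ?_⟩
      intro p hp q hq hR
      exact (mem_filter.1 hq).2 ⟨p, (mem_filter.1 hp).1, hR⟩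
    · have h1 : (P.filter (fun p => ∃ q ∈ P, R q p)).card +
          (P.filter (fun p => ¬ ∃ q ∈ P, R q p)).card = P.card :=
        card_filter_add_card_filter_not _
      have h2 : (n + 1) * K = n * K + K := by ring
      rcases ih (P.filter (fun p => ∃ q ∈ P, R q p)) (by omega) with h | h
      · obtain ⟨C, hC, hCc, hCR⟩ := h
        left
        have hne : C.Nonempty := card_pos.1 (by omega)
        obtain ⟨q, hq, hqp⟩ := (mem_filter.1 (hC (C.min'_mem hne))).2
        have hqlt := hlt _ _ hqp
        have hqn : q ∉ C := fun h => absurd (C.min'_le q h) (not_le.2 hqlt)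
        refine ⟨insert q C, ?_, ?_, ?_⟩
        · intro a ha
          rcases mem_insert.1 ha with rfl | ha
          · exact hq
          · exact (mem_filter.1 (hC ha)).1
        · rw [card_insert_of_notMem hqn, hCc]
        · intro a ha b hb hab
          rcases mem_insert.1 ha with ha' | ha'
          · rcases mem_insert.1 hb with hb' | hb'
            · rw [ha', hb'] at hab; exact absurd hab (lt_irrefl _)
            · rw [ha']
              rcases (C.min'_le b hb').eq_or_lt with h | h
              · rw [← h]; exact hqp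
              · exact htr _ _ _ hqp (hCR _ (C.min'_mem hne) b hb' h)
          · rcases mem_insert.1 hb with hb' | hb'
            · rw [hb'] at hab
              have := C.min'_le a ha'
              omega
            · exact hCR a ha' b hb' hab
      · obtain ⟨A, hA, hAc, hAR⟩ := h
        exact Or.inr ⟨A, hA.trans (filter_subset _ _), hAc, hAR⟩

variable {Q : Type*}

theorem mirsky_many {R : Q → ℕ → ℕ → Prop} (hlt : ∀ e p q, R e p q → p < q)
    (htr : ∀ e p q s, R e p q → R e q s → R e p s) (n K : ℕ) (T : Finset Q) :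
    ∀ (P : Finset ℕ), n ^ T.card * K < P.card →
      (∃ e, ∃ C ⊆ P, C.card = n + 1 ∧ ∀ p ∈ C, ∀ q ∈ C, p < q → R e p q) ∨
      (∃ A ⊆ P, K < A.card ∧ ∀ e ∈ T, ∀ p ∈ A, ∀ q ∈ A, ¬ R e p q) := by
  classical
  induction T using Finset.induction_on with
  | empty =>
    intro P hP
    refine Or.inr ⟨P, Subset.refl _, by simpa using hP, ?_⟩
    intro e he
    exact absurd he (notMem_empty _)
  | insert e T he ih =>
    intro P hP
    rw [card_insert_of_notMem he] at hP
    rcases mirsky (hlt e) (htr e) (n ^ T.card * K) n P (by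
      calc n * (n ^ T.card * K) = n ^ (T.card + 1) * K := by ring
        _ < _ := hP) with h | h
    · exact Or.inl ⟨e, h⟩
    · obtain ⟨A, hA, hAc, hAR⟩ := h
      rcases ih A hAc with h | h
      · obtain ⟨e', C, h1, h2⟩ := h
        exact Or.inl ⟨e', C, h1.trans hA, h2⟩
      · obtain ⟨B, h1, h2, h3⟩ := h
        refine Or.inr ⟨B, h1.trans hA, h2, ?_⟩
        intro e' he' p hp q hq
        rcases mem_insert.1 he' with h | h
        · rw [h]; exact hAR p (h1 hp) q (h1 hq)
        · exact h3 e' h p hp q hq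

variable (F : ℕ → ℕ → Q → Q) (x : Q)

/-- runs of an automaton: a pair with an idempotent-like behaviour -/
theorem exists_stable (hF : ∀ p q s y, p < q → q < s → F q s (F p q y) = F p s y) : ∀ (w : ℕ)
    (T : Finset Q), T.card ≤ w → ∀ P : Finset ℕ, (∀ p ∈ P, ∀ q ∈ P, p < q → F p q x ∈ T) →
      (w + 1) ^ w < P.card → ∃ p ∈ P, ∃ q ∈ P, p < q ∧ F p q (F p q x) = F p q x := by
  classical
  intro w
  induction w with
  | zero =>
    intro T hT P hP hc
    exfalso
    have hT0 : T = ∅ := card_eq_zero.1 (by omega)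
    obtain ⟨a, ha, b, hb, hab⟩ := one_lt_card.1 (show 1 < P.card by simpa using hc)
    rcases lt_or_gt_of_ne hab with h | h
    · have := hP a ha b hb h
      rw [hT0] at this
      exact absurd this (notMem_empty _)
    · have := hP b hb a ha h
      rw [hT0] at this
      exact absurd this (notMem_empty _)
  | succ w ih =>
    intro T hT P hP hc
    have hne : P.Nonempty := card_pos.1 (by omega)
    set p := P.min' hne with hp
    have hpP : p ∈ P := P.min'_mem hne
    have hlt : ∀ q ∈ P.erase p, p < q := by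
      intro q hq
      rw [mem_erase] at hq
      exact lt_of_le_of_ne (P.min'_le q hq.2) (Ne.symm hq.1)
    have hlarge : (w + 1) * (w + 1) ^ w < (P.erase p).card := by
      rw [card_erase_of_mem hpP]
      have h1 : (w + 1) * (w + 1) ^ w < (w + 1 + 1) ^ (w + 1) := by
        rw [show (w + 1) * (w + 1) ^ w = (w + 1) ^ (w + 1) by ring]
        exact Nat.pow_lt_pow_left (by omega) (by omega)
      omega
    obtain ⟨a, haT, ha⟩ := exists_lt_card_fiber_of_mul_lt_card_of_maps_to
      (s := P.erase p) (t := T) (f := fun q => F p q x) (n := (w + 1) ^ w)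
      (fun q hq => hP p hpP q (mem_erase.1 hq).2 (hlt q hq))
      (lt_of_le_of_lt (Nat.mul_le_mul_right _ hT) hlarge)
    set A := (P.erase p).filter (fun q => F p q x = a) with hA
    have hAP : ∀ q ∈ A, q ∈ P ∧ p < q ∧ F p q x = a := by
      intro q hq
      rw [hA, mem_filter] at hq
      exact ⟨(mem_erase.1 hq.1).2, hlt q hq.1, hq.2⟩
    have hAa : ∀ q ∈ A, ∀ s ∈ A, q < s → F q s a = a := by
      intro q hq s hs hqs
      obtain ⟨-, h1, h2⟩ := hAP q hq
      obtain ⟨-, -, h3⟩ := hAP s hs
      have := hF p q s x h1 hqs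
      rw [h2, h3] at this
      exact this
    by_cases hex : ∃ q ∈ A, ∃ s ∈ A, q < s ∧ F q s x = a
    · obtain ⟨q, hq, s, hs, hqs, h⟩ := hex
      exact ⟨q, (hAP q hq).1, s, (hAP s hs).1, hqs, by rw [h]; exact hAa q hq s hs hqs⟩
    · push Not at hex
      obtain ⟨q, hq, s, hs, h⟩ := ih (T.erase a) (by rw [card_erase_of_mem haT]; omega) A (by
        intro q hq s hs hqs
        rw [mem_erase]
        exact ⟨hex q hq s hs hqs, hP q (hAP q hq).1 s (hAP s hs).1 hqs⟩) ha
      exact ⟨q, (hAP q hq).1, s, (hAP s hs).1, h⟩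

/-- **Ramsey theorem for merging runs.** -/
theorem merging_ramsey [Fintype Q] (hF : ∀ p q s y, p < q → q < s → F q s (F p q y) = F p s y)
    (n : ℕ) (P : Finset ℕ)
    (hP : (n * (Fintype.card Q + 1)) ^ (Fintype.card Q) < P.card) :
    ∃ C ⊆ P, C.card = n + 1 ∧ ∃ e, ∀ p ∈ C, ∀ q ∈ C, p < q → F p q x = e := by
  classical
  rw [mul_pow] at hP
  rcases mirsky_many (R := fun e p q => p < q ∧ F p q x = e ∧ F p q e = e)
    (fun e p q h => h.1) (fun e p q s h1 h2 => ⟨h1.1.trans h2.1, by
      rw [← hF p q s x h1.1 h2.1, h1.2.1, h2.2.2], by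
      rw [← hF p q s e h1.1 h2.1, h1.2.2, h2.2.2]⟩) n ((Fintype.card Q + 1) ^ (Fintype.card Q))
    univ P (by rw [card_univ]; exact hP) with h | h
  · obtain ⟨e, C, h1, h2, h3⟩ := h
    exact ⟨C, h1, h2, e, fun p hp q hq hpq => (h3 p hp q hq hpq).2.1⟩
  · obtain ⟨A, h1, h2, h3⟩ := h
    obtain ⟨p, hp, q, hq, hpq, h4⟩ := exists_stable F x hF (Fintype.card Q) univ
      (by rw [card_univ]) A (fun _ _ _ _ _ => mem_univ _) h2
    exact absurd ⟨hpq, rfl, h4⟩ (h3 (F p q x) (mem_univ _) p hp q hq)

end Pool.Agent.H834Q
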