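import Mathlib

/-! A polynomial Ramsey theorem for additive colourings of pairs. -/

set_option autoImplicit false
open Finset

namespace Pool.Agent.H834Q

variable {M : Type*} [DecidableEq M]

/-- the greedy step -/
theorem greedy {f : ℕ → ℕ → M} {z : M} {K : ℕ} (hK : 0 < K) : ∀ (n : ℕ) (P : Finset ℕ),
    (∀ p ∈ P, (P.filter (fun q => p < q ∧ f p q ≠ z)).card < K) → n * K ≤ P.card →
    ∃ P' ⊆ P, P'.card = n ∧ ∀ p ∈ P', ∀ q ∈ P', p < q → f p q = z := by
  intro n
  induction n with
  | zero => intro P _ _; exact ⟨∅, empty_subset _, rfl, by simp⟩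
  | succ n ih =>
    intro P hP hcard
    have hne : P.Nonempty := by
      rw [← card_pos]
      by_contra h0
      have h1 : 0 < (n + 1) * K := by positivity
      omega
    set p := P.min' hne with hp
    have hpP : p ∈ P := P.min'_mem hne
    have h1 := hP p hpP
    have hsplit : (P.erase p).card = (P.filter (fun q => p < q ∧ f p q ≠ z)).card +
        (P.filter (fun q => p < q ∧ f p q = z)).card := by
      rw [← card_union_of_disjoint]
      · congr 1
        ext q
        simp only [mem_erase, mem_union, mem_filter]
        constructor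
        · rintro ⟨hq1, hq2⟩
          have : p < q := lt_of_le_of_ne (P.min'_le q hq2) (Ne.symm hq1)
          by_cases h : f p q = z
          · exact Or.inr ⟨hq2, this, h⟩
          · exact Or.inl ⟨hq2, this, h⟩
        · rintro (⟨h2, h3, -⟩ | ⟨h2, h3, -⟩)
          · exact ⟨h3.ne', h2⟩
          · exact ⟨h3.ne', h2⟩
      · rw [disjoint_left]
        intro q hq1 hq2
        exact (mem_filter.1 hq1).2.2 (mem_filter.1 hq2).2.2
    rw [card_erase_of_mem hpP] at hsplit
    obtain ⟨P', hP'1, hP'2, hP'3⟩ := ih (P.filter (fun q => p < q ∧ f p q = z)) (by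
      intro q hq
      refine lt_of_le_of_lt (card_le_card ?_) (hP q (mem_filter.1 hq).1)
      intro s hs
      rw [mem_filter] at hs ⊢
      exact ⟨(mem_filter.1 hs.1).1, hs.2⟩) (by
      have : (n + 1) * K = n * K + K := by ring
      have hpos := card_pos.2 hne
      omega)
    have hpn : p ∉ P' := fun h => by
      have := (mem_filter.1 (hP'1 h)).2.1
      exact lt_irrefl _ this
    refine ⟨insert p P', ?_, ?_, ?_⟩
    · intro q hq
      rcases mem_insert.1 hq with rfl | hq
      · exact hpP
      · exact (mem_filter.1 (hP'1 hq)).1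
    · rw [card_insert_of_notMem hpn, hP'2]
    · intro a ha b hb hab
      rcases mem_insert.1 ha with ha' | ha'
      · rcases mem_insert.1 hb with hb' | hb'
        · rw [ha', hb'] at hab; exact absurd hab (lt_irrefl _)
        · rw [ha']; exact (mem_filter.1 (hP'1 hb')).2.2
      · rcases mem_insert.1 hb with hb' | hb'
        · have := (mem_filter.1 (hP'1 ha')).2.1
          rw [hb'] at hab
          exact absurd hab (not_lt.2 this.le)
        · exact hP'3 a ha' b hb' hab

/-- bound for the additive Ramsey theorem -/
def NN (n : ℕ) : ℕ → ℕ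
  | 0 => n
  | k + 1 => n * ((k + 1) * NN n k)

theorem NN_pos {n : ℕ} (hn : 0 < n) (k : ℕ) : 0 < NN n k := by
  induction k with
  | zero => exact hn
  | succ k ih => unfold NN; positivity

/-- **Additive Ramsey theorem**: if `f p q` determines `f p s` together with `f q s` through an
operation, and `f` takes at most `k` values on the pairs of `P`, where `P` is large, then `f` is
constant on the pairs of a subset of `P` with `n` elements. -/
theorem additive_ramsey (op : M → M → M) (f : ℕ → ℕ → M)
    (hf : ∀ p q s, p < q → q < s → op (f p q) (f q s) = f p s) {n : ℕ} (hn : 2 ≤ n) :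
    ∀ (k : ℕ) (T : Finset M), T.card ≤ k → ∀ P : Finset ℕ,
      (∀ p ∈ P, ∀ q ∈ P, p < q → f p q ∈ T) → NN n k ≤ P.card →
      ∃ P' ⊆ P, P'.card = n ∧ ∃ e, ∀ p ∈ P', ∀ q ∈ P', p < q → f p q = e := by
  intro k
  induction k with
  | zero =>
    intro T hT P hP hcard
    exfalso
    have hT0 : T = ∅ := card_eq_zero.1 (by omega)
    have h3 : n ≤ P.card := hcard
    have h2 : 1 < P.card := by omega
    obtain ⟨a, ha, b, hb, hab⟩ := one_lt_card.1 h2
    rcases lt_or_gt_of_ne hab with h | h
    · have := hP a ha b hb h
      rw [hT0] at this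
      exact absurd this (notMem_empty _)
    · have := hP b hb a ha h
      rw [hT0] at this
      exact absurd this (notMem_empty _)
  | succ k ih =>
    intro T hT P hP hcard
    by_contra hcon
    have hN : 0 < NN n k := NN_pos (by omega) k
    have hcard' : n * ((k + 1) * NN n k) ≤ P.card := hcard
    set K := (k + 1) * NN n k with hK
    have hKpos : 0 < K := by rw [hK]; positivity
    have hP2 : 2 * K ≤ P.card := (Nat.mul_le_mul_right K hn).trans hcard'
    have hne : P.Nonempty := card_pos.1 (by omega)
    -- large classes to the right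
    have H1 : ∀ p ∈ P, ∀ a, NN n k ≤ (P.filter (fun q => p < q ∧ f p q = a)).card →
        ∀ x ∈ T, op a x = a := by
      intro p hp a ha
      by_contra hx
      push Not at hx
      obtain ⟨x, hxT, hx⟩ := hx
      obtain ⟨P', h1, h2, e, h3⟩ := ih (T.filter (fun x => op a x = a)) (by
        have : (T.filter (fun x => op a x = a)).card < T.card := by
          apply card_lt_card
          rw [filter_ssubset]
          exact ⟨x, hxT, hx⟩
        omega) (P.filter (fun q => p < q ∧ f p q = a)) (by
        intro q hq s hs hqs
        rw [mem_filter] at hq hs ⊢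
        refine ⟨hP q hq.1 s hs.1 hqs, ?_⟩
        have := hf p q s hq.2.1 hqs
        rw [hq.2.2, hs.2.2] at this
        exact this) ha
      exact hcon ⟨P', h1.trans (filter_subset _ _), h2, e, h3⟩
    have H2 : ∀ p ∈ P, ∀ a, NN n k ≤ (P.filter (fun q => q < p ∧ f q p = a)).card →
        ∀ x ∈ T, op x a = a := by
      intro p hp a ha
      by_contra hx
      push Not at hx
      obtain ⟨x, hxT, hx⟩ := hx
      obtain ⟨P', h1, h2, e, h3⟩ := ih (T.filter (fun x => op x a = a)) (by
        have : (T.filter (fun x => op x a = a)).card < T.card := by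
          apply card_lt_card
          rw [filter_ssubset]
          exact ⟨x, hxT, hx⟩
        omega) (P.filter (fun q => q < p ∧ f q p = a)) (by
        intro q hq s hs hqs
        rw [mem_filter] at hq hs ⊢
        refine ⟨hP q hq.1 s hs.1 hqs, ?_⟩
        have := hf q s p hqs hs.2.1
        rw [hq.2.2, hs.2.2] at this
        exact this) ha
      exact hcon ⟨P', h1.trans (filter_subset _ _), h2, e, h3⟩
    have hTne : T.Nonempty := by
      obtain ⟨a, ha, b, hb, hab⟩ := one_lt_card.1 (show 1 < P.card by omega)
      rcases lt_or_gt_of_ne hab with h | h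
      · exact ⟨_, hP a ha b hb h⟩
      · exact ⟨_, hP b hb a ha h⟩
    have hTK : T.card * NN n k ≤ K := Nat.mul_le_mul_right _ hT
    -- pigeonhole
    have pig : ∀ p ∈ P, ∀ s : Finset ℕ, s ⊆ P.filter (fun q => p < q) → K ≤ s.card →
        ∃ a ∈ T, NN n k ≤ (s.filter (fun q => f p q = a)).card := by
      intro p hp s hs hsc
      exact exists_le_card_fiber_of_mul_le_card_of_maps_to
        (fun q hq => hP p hp q (mem_filter.1 (hs hq)).1 (mem_filter.1 (hs hq)).2) hTne
        (hTK.trans hsc)
    obtain ⟨a, haT, ha⟩ : ∃ a ∈ T, ∀ x ∈ T, op a x = a := by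
      obtain ⟨a, haT, ha⟩ := pig (P.min' hne) (P.min'_mem hne) (P.filter (fun q => P.min' hne < q))
        (Subset.refl _) (by
          have : P.erase (P.min' hne) ⊆ P.filter (fun q => P.min' hne < q) := by
            intro q hq
            rw [mem_erase] at hq
            rw [mem_filter]
            exact ⟨hq.2, lt_of_le_of_ne (P.min'_le q hq.2) (Ne.symm hq.1)⟩
          have h2 := card_le_card this
          rw [card_erase_of_mem (P.min'_mem hne)] at h2
          omega)
      refine ⟨a, haT, H1 _ (P.min'_mem hne) a (ha.trans (card_le_card ?_))⟩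
      intro q hq
      rw [mem_filter, mem_filter] at hq
      rw [mem_filter]
      exact ⟨hq.1.1, hq.1.2, hq.2⟩
    obtain ⟨c, hcT, hc⟩ : ∃ c ∈ T, ∀ x ∈ T, op x c = c := by
      obtain ⟨c, hcT, hc⟩ := exists_le_card_fiber_of_mul_le_card_of_maps_to
        (s := P.filter (fun q => q < P.max' hne)) (t := T) (f := fun q => f q (P.max' hne))
        (n := NN n k)
        (fun q hq => hP q (mem_filter.1 hq).1 _ (P.max'_mem hne) (mem_filter.1 hq).2) hTne
        (hTK.trans (by
          have : P.erase (P.max' hne) ⊆ P.filter (fun q => q < P.max' hne) := by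
            intro q hq
            rw [mem_erase] at hq
            rw [mem_filter]
            exact ⟨hq.2, lt_of_le_of_ne (P.le_max' q hq.2) hq.1⟩
          have h2 := card_le_card this
          rw [card_erase_of_mem (P.max'_mem hne)] at h2
          omega))
      refine ⟨c, hcT, H2 _ (P.max'_mem hne) c (hc.trans (card_le_card ?_))⟩
      intro q hq
      rw [mem_filter, mem_filter] at hq
      rw [mem_filter]
      exact ⟨hq.1.1, hq.1.2, hq.2⟩
    have hac : a = c := (ha c hcT).symm.trans (hc a haT)
    subst hac
    obtain ⟨P', h1, h2, h3⟩ := greedy (f := f) (z := a) (K := K) hKpos n P (by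
      intro p hp
      by_contra hlt
      push Not at hlt
      obtain ⟨a', ha'T, ha'⟩ := pig p hp (P.filter (fun q => p < q ∧ f p q ≠ a)) (by
        intro q hq
        rw [mem_filter] at hq ⊢
        exact ⟨hq.1, hq.2.1⟩) hlt
      have hne' : a' ≠ a := by
        intro h
        have : (P.filter (fun q => p < q ∧ f p q ≠ a)).filter (fun q => f p q = a') = ∅ := by
          rw [filter_eq_empty_iff]
          intro q hq hq'
          exact (mem_filter.1 hq).2.2 (hq'.trans h)
        rw [this, card_empty] at ha'
        omega
      have h4 := H1 p hp a' (ha'.trans (card_le_card (by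
        intro q hq
        rw [mem_filter, mem_filter] at hq
        rw [mem_filter]
        exact ⟨hq.1.1, hq.1.2.1, hq.2⟩))) a haT
      exact hne' (h4.symm.trans (hc a' ha'T))) hcard'
    exact hcon ⟨P', h1, h2, a, h3⟩

end Pool.Agent.H834Q
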