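import Pool.Agent.H834Q.Line
import Mathlib.Analysis.Normed.Module.Connected

/-! Paths of chords which avoid a countable set. -/

set_option autoImplicit false
open Complex Set Topology Metric
open scoped ComplexConjugate

namespace Pool.Agent.H834Q

open Pool.Agent.H763R2 Pool.Agent.H763R2.An
open Pool.Agent.H763R2.Sq (Dv Cv)
open Pool.Agent.H763R2.Dm (NoSq)

variable {c q : ℝ → ℂ}

/-- the strip as an image of the plane -/
noncomputable def Ph (u : ℝ × ℝ) : ℝ × ℝ := (u.1, u.1 + 1 / 2 + Real.arctan u.2 / Real.pi)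

theorem Ph_cont : Continuous Ph := by unfold Ph; fun_prop

theorem Ph_mem (u : ℝ × ℝ) : Ph u ∈ UU := by
  have hπ := Real.pi_pos
  have h1 := Real.neg_pi_div_two_lt_arctan u.2
  have h2 := Real.arctan_lt_pi_div_two u.2
  have h3 : -(1 / 2 : ℝ) < Real.arctan u.2 / Real.pi := by
    rw [lt_div_iff₀ hπ]; linarith
  have h4 : Real.arctan u.2 / Real.pi < 1 / 2 := by
    rw [div_lt_iff₀ hπ]; linarith
  refine ⟨?_, ?_⟩ <;> simp only [Ph] <;> linarith

theorem Ph_inj : Function.Injective Ph := by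
  rintro ⟨a, b⟩ ⟨a', b'⟩ h
  simp only [Ph, Prod.mk.injEq] at h
  obtain ⟨h1, h2⟩ := h
  subst h1
  have h3 : Real.arctan b / Real.pi = Real.arctan b' / Real.pi := by linarith
  have h4 : Real.arctan b = Real.arctan b' := by
    have := Real.pi_ne_zero
    field_simp at h3
    exact h3
  rw [Real.arctan_injective h4]

theorem Ph_surj {a : ℝ × ℝ} (ha : a ∈ UU) : ∃ u, Ph u = a := by
  obtain ⟨x, y⟩ := a
  obtain ⟨h1, h2⟩ := ha
  simp only at h1 h2
  have hπ := Real.pi_pos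
  refine ⟨(x, Real.tan (Real.pi * (y - x - 1 / 2))), ?_⟩
  unfold Ph
  simp only
  rw [Real.arctan_tan (by nlinarith) (by nlinarith)]
  refine Prod.ext rfl ?_
  simp only
  field_simp
  ring

theorem path_avoid {Z : Set (ℝ × ℝ)} (hZ : Z.Countable) {a b : ℝ × ℝ} (ha : a ∈ UU) (hb : b ∈ UU)
    (ha' : a ∉ Z) (hb' : b ∉ Z) :
    ∃ p : ℝ → ℝ × ℝ, Continuous p ∧ p 0 = a ∧ p 1 = b ∧ ∀ s, p s ∈ UU ∧ p s ∉ Z := by
  obtain ⟨u, rfl⟩ := Ph_surj ha
  obtain ⟨v, rfl⟩ := Ph_surj hb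
  have hZ' : (Ph ⁻¹' Z).Countable := hZ.preimage_of_injOn Ph_inj.injOn
  have hrank : 1 < Module.rank ℝ (ℝ × ℝ) := by
    rw [rank_prod', Module.rank_self]
    norm_num
  have hpc := hZ'.isPathConnected_compl_of_one_lt_rank hrank
  obtain ⟨γ, hγ⟩ := hpc.joinedIn u ha' v hb'
  refine ⟨fun s => Ph (γ.extend s), Ph_cont.comp γ.continuous_extend, by simp, by simp,
    fun s => ⟨Ph_mem _, ?_⟩⟩
  have : γ.extend s ∈ range γ := by
    rw [← γ.extend_range]; exact mem_range_self _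
  obtain ⟨t, ht⟩ := this
  have := hγ t
  rw [ht] at this
  exact this

/-- the chords which are sides of inscribed squares -/
def Zc (c : ℝ → ℂ) : Set (ℝ × ℝ) :=
  {p | p ∈ UU ∧ Dv (c p.1) (c p.2) ∈ range c ∧ Cv (c p.1) (c p.2) ∈ range c}

theorem Zc_countable (hper : ∀ t, c (t + 1) = c t) (hinj : InjOn c (Ico 0 1))
    (h : (Squares (range c)).Countable) : (Zc c).Countable := by
  have J := inj_of hper hinj
  have hsub : Zc c ⊆ ⋃ s ∈ Squares (range c), {p : ℝ × ℝ | (c p.1, c p.2 - c p.1) = s} := by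
    rintro ⟨x, y⟩ ⟨⟨h1, h2⟩, h3, h4⟩
    simp only at h1 h2 h3 h4
    refine mem_biUnion (x := (c x, c y - c x)) ?_ rfl
    refine ⟨sub_ne_zero.2 (J x y h1 h2).symm, mem_range_self _, ?_, ?_, ?_⟩
    · simp
    · simp only [add_sub_cancel]; exact h4
    · exact h3
  refine (h.biUnion fun s _ => ?_).mono hsub
  by_cases hne : ∃ p : ℝ × ℝ, (c p.1, c p.2 - c p.1) = s
  · obtain ⟨p, hp⟩ := hne
    refine (countable_range (fun nm : ℤ × ℤ => (p.1 + nm.1, p.2 + nm.2))).mono ?_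
    rintro p' hp'
    have e : (c p.1, c p.2 - c p.1) = (c p'.1, c p'.2 - c p'.1) := hp.trans hp'.symm
    simp only [Prod.mk.injEq] at e
    obtain ⟨e1, e2⟩ := e
    rw [e1] at e2
    have e3 : c p.2 = c p'.2 := by
      have := congrArg (fun w => w + c p'.1) e2
      simpa using this
    obtain ⟨n, hn⟩ := eqmod hper hinj e1
    obtain ⟨m, hm⟩ := eqmod hper hinj e3
    exact ⟨(n, m), Prod.ext hn.symm hm.symm⟩
  · push Not at hne
    refine countable_empty.mono ?_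
    intro p hp
    exact (hne p hp).elim

theorem vclose {A B A₀ B₀ : ℂ} {ε : ℝ} (hA : ‖A - A₀‖ ≤ ε) (hB : ‖B - B₀‖ ≤ ε) :
    ‖Dv A₀ B₀ - Dv A B‖ ≤ (1 + √2) * ε ∧ ‖Cv A₀ B₀ - Cv A B‖ ≤ (1 + √2) * ε := by
  have hη : 0 ≤ ε := (norm_nonneg _).trans hA
  have h1 : ‖(1 - I : ℂ)‖ = √2 := by
    rw [Complex.norm_def, Complex.normSq_apply]
    congr 1
    simp
    norm_num
  have h2 : ‖(1 + I : ℂ)‖ = √2 := by
    rw [Complex.norm_def, Complex.normSq_apply]
    congr 1
    simp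
    norm_num
  constructor
  · rw [show Dv A₀ B₀ - Dv A B = (1 - I) * (-(A - A₀)) + I * (-(B - B₀)) by
      unfold Dv; ring]
    refine (norm_add_le _ _).trans ?_
    rw [norm_mul, norm_mul, h1, norm_I, norm_neg, norm_neg]
    nlinarith [mul_le_mul_of_nonneg_left hA (Real.sqrt_nonneg 2)]
  · rw [show Cv A₀ B₀ - Cv A B = (1 + I) * (-(B - B₀)) + (-I) * (-(A - A₀)) by
      unfold Cv; ring]
    refine (norm_add_le _ _).trans ?_
    rw [norm_mul, norm_mul, h2, norm_neg, norm_neg, norm_neg, norm_I]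
    nlinarith [mul_le_mul_of_nonneg_left hB (Real.sqrt_nonneg 2)]

theorem mgc_topY (L : Loop c) {Y : ℝ} (h : ∀ t, (c t).im ≤ Y) {z : ℂ} (hz : Y ≤ z.im) :
    mgc c z ≤ 0 := by
  refine le_of_forall_pos_le_add fun ε hε => ?_
  have h1 := mgc_out (L.half (z := z + ε * I) (a := -I) (by simp) (fun t => by
    have : (c t - (z + ε * I)) / (-I) = I * (c t - (z + ε * I)) := by rw [div_neg, div_I]; ring
    rw [this]
    have := h t
    simp
    linarith)).2
  have h2 := (abs_le.1 ((mgc_sg L).lip z (z + ε * I))).2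
  have h3 : ‖z - (z + ε * I)‖ = ε := by
    rw [show z - (z + ε * I) = -(ε * I) by ring, norm_neg, norm_mul, norm_I, norm_real,
      Real.norm_of_nonneg hε.le, mul_one]
  linarith

end Pool.Agent.H834Q
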