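import Mathlib

/-! Codes for pair products in a finite monoid. -/

set_option autoImplicit false

namespace Pool.Agent.H834Q

variable {M : Type*} [Monoid M]

/-- the product along a pair of words -/
def F (E : Bool → Bool → M) : List Bool → List Bool → M
  | a :: X, b :: Y => E a b * F E X Y
  | _, _ => 1

theorem F_append (E : Bool → Bool → M) : ∀ (X Y X' Y' : List Bool), X.length = Y.length →
    F E (X ++ X') (Y ++ Y') = F E X Y * F E X' Y' := by
  intro X
  induction X with
  | nil =>
    intro Y X' Y' h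
    have : Y = [] := List.length_eq_zero_iff.1 h.symm
    subst this
    simp [F]
  | cons a X ih =>
    intro Y X' Y' h
    cases Y with
    | nil => simp at h
    | cons b Y =>
      have h' : X.length = Y.length := by simpa using h
      show E a b * F E (X ++ X') (Y ++ Y') = E a b * F E X Y * F E X' Y'
      rw [ih Y X' Y' h', mul_assoc]

/-- repetition of a word -/
def rep (n : ℕ) (u : List Bool) : List Bool := (List.replicate n u).flatten

theorem rep_succ (n : ℕ) (u : List Bool) : rep (n + 1) u = u ++ rep n u := by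
  unfold rep
  rw [List.replicate_succ, List.flatten_cons]

theorem rep_length (n : ℕ) (u : List Bool) : (rep n u).length = n * u.length := by
  induction n with
  | zero => simp [rep]
  | succ n ih => rw [rep_succ, List.length_append, ih]; ring

theorem F_rep (E : Bool → Bool → M) (n : ℕ) {u v : List Bool} (h : u.length = v.length) :
    F E (rep n u) (rep n v) = (F E u v) ^ n := by
  induction n with
  | zero => simp [rep, F]
  | succ n ih => rw [rep_succ, rep_succ, F_append E u v _ _ h, ih, pow_succ']

/-- substitution -/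
def sub (σ : Bool → List Bool) (X : List Bool) : List Bool := X.flatMap σ

theorem sub_cons (σ : Bool → List Bool) (a : Bool) (X : List Bool) :
    sub σ (a :: X) = σ a ++ sub σ X := by
  unfold sub; rw [List.flatMap_cons]

theorem sub_length {σ : Bool → List Bool} {L : ℕ} (hσ : ∀ a, (σ a).length = L) (X : List Bool) :
    (sub σ X).length = L * X.length := by
  induction X with
  | nil => simp [sub]
  | cons a X ih => rw [sub_cons, List.length_append, hσ, ih, List.length_cons]; ring

theorem F_sub (E : Bool → Bool → M) {σ : Bool → List Bool} {L : ℕ} (hσ : ∀ a, (σ a).length = L) :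
    ∀ X Y : List Bool, X.length = Y.length →
      F E (sub σ X) (sub σ Y) = F (fun a b => F E (σ a) (σ b)) X Y := by
  intro X
  induction X with
  | nil =>
    intro Y h
    have : Y = [] := List.length_eq_zero_iff.1 h.symm
    subst this
    simp [sub, F]
  | cons a X ih =>
    intro Y h
    cases Y with
    | nil => simp at h
    | cons b Y =>
      have h' : X.length = Y.length := by simpa using h
      rw [sub_cons, sub_cons, F_append E _ _ _ _ (by rw [hσ, hσ]), ih Y h']
      rfl

theorem sub_inj {σ : Bool → List Bool} {L : ℕ} (hσ : ∀ a, (σ a).length = L)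
    (hne : σ false ≠ σ true) : ∀ X Y : List Bool, X.length = Y.length → sub σ X = sub σ Y →
      X = Y := by
  intro X
  induction X with
  | nil =>
    intro Y h _
    exact (List.length_eq_zero_iff.1 h.symm).symm
  | cons a X ih =>
    intro Y h he
    cases Y with
    | nil => simp at h
    | cons b Y =>
      have h' : X.length = Y.length := by simpa using h
      rw [sub_cons, sub_cons] at he
      obtain ⟨h1, h2⟩ := List.append_inj he (by rw [hσ, hσ])
      have hab : a = b := by
        cases a <;> cases b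
        · rfl
        · exact absurd h1 hne
        · exact absurd h1.symm hne
        · rfl
      rw [hab, ih Y h' h2]

/-- A code: words of length `k` are mapped to words of length `L` in such a way that the products
along pairs of code words only depend on the order of the two words. -/
def HasCode (E : Bool → Bool → M) (k L : ℕ) (Φ Ψ : M) : Prop :=
  ∃ code : List Bool → List Bool, (∀ Z, Z.length = k → (code Z).length = L) ∧
    (∀ Z Z', Z.length = k → Z'.length = k → code Z = code Z' → Z = Z') ∧
    ∀ P R R' : List Bool, P.length + 1 + R.length = k → R.length = R'.length →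
      F E (code (P ++ false :: R)) (code (P ++ true :: R')) = Φ ∧
      F E (code (P ++ true :: R')) (code (P ++ false :: R)) = Ψ

theorem HasCode.sub {E : Bool → Bool → M} {σ : Bool → List Bool} {ℓ : ℕ}
    (hσ : ∀ a, (σ a).length = ℓ) (hne : σ false ≠ σ true) {k L : ℕ} {Φ Ψ : M}
    (h : HasCode (fun a b => F E (σ a) (σ b)) k L Φ Ψ) : HasCode E k (ℓ * L) Φ Ψ := by
  obtain ⟨code, h1, h2, h3⟩ := h
  refine ⟨fun Z => Pool.Agent.H834Q.sub σ (code Z), ?_, ?_, ?_⟩
  · intro Z hZ
    rw [sub_length hσ, h1 Z hZ]
  · intro Z Z' hZ hZ' he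
    exact h2 Z Z' hZ hZ' (sub_inj hσ hne _ _ (by rw [h1 Z hZ, h1 Z' hZ']) he)
  · intro P R R' hk hR
    have l1 : (P ++ false :: R).length = k := by simp; omega
    have l2 : (P ++ true :: R').length = k := by simp; omega
    rw [F_sub E hσ _ _ (by rw [h1 _ l1, h1 _ l2]), F_sub E hσ _ _ (by rw [h1 _ l1, h1 _ l2])]
    exact h3 P R R' hk hR

/-- the diagonal products of a word -/
theorem F_diag {E : Bool → Bool → M} {e : M} (he : e * e = e) (hd : ∀ a, E a a = e) :
    ∀ X : List Bool, X ≠ [] → F E X X = e := by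
  intro X
  induction X with
  | nil => intro h; exact absurd rfl h
  | cons a X ih =>
    intro _
    show E a a * F E X X = e
    rw [hd]
    cases X with
    | nil => simp [F]
    | cons b X => rw [ih (by simp), he]

/-- elements met after a first difference -/
theorem closure {A B e : M} (hA : A * A = A) (hB : B * B = B) (hAe : A * e = A) (hBe : B * e = B)
    {ω : ℕ} (hω : 1 ≤ ω) {x : M}
    (hx : (∃ j, 1 ≤ j ∧ x = (A * B) ^ j) ∨ (∃ j, 1 ≤ j ∧ x = (A * B) ^ j * A)) :
    ((∃ j, 1 ≤ j ∧ x * e = (A * B) ^ j) ∨ (∃ j, 1 ≤ j ∧ x * e = (A * B) ^ j * A)) ∧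
    (∃ j, 1 ≤ j ∧ x * (A * B) ^ ω = (A * B) ^ j) ∧
    (∃ j, 1 ≤ j ∧ x * (B * A) ^ ω = (A * B) ^ j * A) := by
  have hBA : ∀ n : ℕ, A * (B * A) ^ n = (A * B) ^ n * A := by
    intro n
    induction n with
    | zero => simp
    | succ n ih =>
      rw [pow_succ, ← mul_assoc, ih, pow_succ]
      simp only [mul_assoc]
  obtain ⟨o, rfl⟩ : ∃ o, ω = o + 1 := ⟨ω - 1, by omega⟩
  rcases hx with ⟨j, hj, rfl⟩ | ⟨j, hj, rfl⟩
  · obtain ⟨i, rfl⟩ : ∃ i, j = i + 1 := ⟨j - 1, by omega⟩
    refine ⟨Or.inl ⟨i + 1, by omega, ?_⟩, ⟨i + 1 + (o + 1), by omega, ?_⟩, ⟨i + 1 + o, by omega, ?_⟩⟩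
    · rw [pow_succ, mul_assoc, mul_assoc, hBe]
    · rw [← pow_add]
    · rw [pow_succ' (B * A) o]
      have h1 : (A * B) ^ (i + 1) * (B * A * (B * A) ^ o) = (A * B) ^ i * (A * (B * B) * (A * (B * A) ^ o)) := by
        rw [pow_succ]; simp only [mul_assoc]
      rw [h1, hB, hBA]
      simp only [← mul_assoc]
      rw [mul_assoc ((A * B) ^ i) A B, ← pow_succ, ← pow_add]
  · refine ⟨Or.inr ⟨j, hj, by rw [mul_assoc, hAe]⟩, ⟨j + (o + 1), by omega, ?_⟩,
      ⟨j + (o + 1), by omega, ?_⟩⟩
    · rw [pow_succ' (A * B) o]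
      have h1 : (A * B) ^ j * A * (A * B * (A * B) ^ o) = (A * B) ^ j * ((A * A) * B * (A * B) ^ o) := by
        simp only [mul_assoc]
      rw [h1, hA, ← pow_succ', ← pow_add]
    · rw [mul_assoc, hBA, ← mul_assoc, ← pow_add]

theorem after_diff {E : Bool → Bool → M} {A B e : M} (hA : A * A = A) (hB : B * B = B)
    (hAe : A * e = A) (hBe : B * e = B) {ω : ℕ} (hω : 1 ≤ ω) (hd : ∀ a, E a a = e)
    (h1 : E false true = (A * B) ^ ω) (h2 : E true false = (B * A) ^ ω) :
    ∀ (X Y : List Bool) (x : M),
      ((∃ j, 1 ≤ j ∧ x = (A * B) ^ j) ∨ (∃ j, 1 ≤ j ∧ x = (A * B) ^ j * A)) →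
      ((∃ j, 1 ≤ j ∧ x * F E X Y = (A * B) ^ j) ∨ (∃ j, 1 ≤ j ∧ x * F E X Y = (A * B) ^ j * A)) := by
  intro X
  induction X with
  | nil =>
    intro Y x hx
    have : F E [] Y = 1 := by cases Y <;> rfl
    rw [this, mul_one]
    exact hx
  | cons a X ih =>
    intro Y x hx
    cases Y with
    | nil =>
      have : F E (a :: X) [] = 1 := rfl
      rw [this, mul_one]
      exact hx
    | cons b Y =>
      show (∃ j, 1 ≤ j ∧ x * (E a b * F E X Y) = (A * B) ^ j) ∨
        (∃ j, 1 ≤ j ∧ x * (E a b * F E X Y) = (A * B) ^ j * A)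
      rw [← mul_assoc]
      apply ih
      obtain ⟨c1, c2, c3⟩ := closure hA hB hAe hBe hω hx
      cases a <;> cases b
      · rw [hd]; exact c1
      · rw [h1]; exact Or.inl c2
      · rw [h2]; exact Or.inr c3
      · rw [hd]; exact c1

/-- the palindromic code -/
theorem code_final {E : Bool → Bool → M} {A B e : M} (hA : A * A = A) (hB : B * B = B)
    (hAe : A * e = A) (hBe : B * e = B) (heA : e * A = A) (heB : e * B = B) (hee : e * e = e)
    {w ω : ℕ} (hω : 1 ≤ ω) (hwω : w ≤ ω)
    (hper : ∀ (x : M) (k : ℕ), w ≤ k → x ^ (k + ω) = x ^ k) (hd : ∀ a, E a a = e)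
    (h1 : E false true = (A * B) ^ ω) (h2 : E true false = (B * A) ^ ω) (k : ℕ) :
    HasCode E k (2 * ω * k) ((A * B) ^ ω) ((B * A) ^ ω) := by
  have hpow : ∀ (x : M) (j : ℕ), 1 ≤ j → (x ^ j) ^ ω = x ^ ω := by
    intro x j hj
    obtain ⟨i, rfl⟩ : ∃ i, j = i + 1 := ⟨j - 1, by omega⟩
    rw [← pow_mul]
    clear hj
    induction i with
    | zero => rw [zero_add, one_mul]
    | succ i ih =>
      rw [show (i + 1 + 1) * ω = (i + 1) * ω + ω by ring, hper x _ (by nlinarith), ih]
  -- the general statement for a first difference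
  have key : ∀ (A B : M) (E : Bool → Bool → M), A * A = A → B * B = B → A * e = A → B * e = B →
      e * A = A → e * B = B → (∀ a, E a a = e) → E false true = (A * B) ^ ω →
      E true false = (B * A) ^ ω → ∀ P R R' : List Bool, R.length = R'.length →
      F E (rep ω ((P ++ false :: R) ++ (P ++ false :: R).reverse))
        (rep ω ((P ++ true :: R') ++ (P ++ true :: R').reverse)) = (A * B) ^ ω := by
    intro A B E hA hB hAe hBe heA heB hd h1 h2 P R R' hR
    rw [F_rep E ω (by simp [hR])]
    have hx0 : ∃ j, 1 ≤ j ∧ (A * B) ^ ω = (A * B) ^ j := ⟨ω, hω, rfl⟩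
    -- e absorbed
    have eP : ∀ (P : List Bool) (x : M), e * x = x → F E P P * x = x := by
      intro P x hx
      by_cases hP : P = []
      · subst hP; simp [F]
      · rw [F_diag hee hd P hP, hx]
    have ePr : ∀ (P : List Bool) (x : M), x * e = x → x * F E P P = x := by
      intro P x hx
      by_cases hP : P = []
      · subst hP; simp [F]
      · rw [F_diag hee hd P hP, hx]
    have hABe : ∀ j, 1 ≤ j → (A * B) ^ j * e = (A * B) ^ j := by
      intro j hj
      obtain ⟨i, rfl⟩ : ∃ i, j = i + 1 := ⟨j - 1, by omega⟩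
      rw [pow_succ, mul_assoc, mul_assoc, hBe]
    have heAB : ∀ j, 1 ≤ j → e * (A * B) ^ j = (A * B) ^ j := by
      intro j hj
      obtain ⟨i, rfl⟩ : ∃ i, j = i + 1 := ⟨j - 1, by omega⟩
      rw [pow_succ', ← mul_assoc, ← mul_assoc, heA]
    have hlen : (P ++ false :: R).length = (P ++ true :: R').length := by simp [hR]
    have hmid : F E (P ++ false :: R) (P ++ true :: R') = (A * B) ^ ω * F E R R' := by
      rw [F_append E P P _ _ rfl]
      show F E P P * (E false true * F E R R') = _
      rw [h1, ← mul_assoc, eP P _ (heAB ω hω)]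
    have hrev : F E (P ++ false :: R).reverse (P ++ true :: R').reverse =
        F E R.reverse R'.reverse * ((A * B) ^ ω * F E P.reverse P.reverse) := by
      rw [List.reverse_append, List.reverse_append, List.reverse_cons, List.reverse_cons,
        List.append_assoc, List.append_assoc, F_append E _ _ _ _ (by simp [hR])]
      show _ * (E false true * F E P.reverse P.reverse) = _
      rw [h1]
    have hall : ∃ j, 1 ≤ j ∧ F E ((P ++ false :: R) ++ (P ++ false :: R).reverse)
        ((P ++ true :: R') ++ (P ++ true :: R').reverse) = (A * B) ^ j := by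
      rw [F_append E _ _ _ _ hlen, hmid, hrev]
      have s1 := after_diff hA hB hAe hBe hω hd h1 h2 R R' ((A * B) ^ ω) (Or.inl hx0)
      have s2 := after_diff hA hB hAe hBe hω hd h1 h2 R.reverse R'.reverse _ s1
      obtain ⟨j, hj, s3⟩ := (closure hA hB hAe hBe hω s2).2.1
      refine ⟨j, hj, ?_⟩
      rw [← mul_assoc, ← mul_assoc, s3]
      exact ePr _ _ (hABe j hj)
    obtain ⟨j, hj, hj2⟩ := hall
    rw [hj2, hpow _ j hj]
  refine ⟨fun Z => rep ω (Z ++ Z.reverse), ?_, ?_, ?_⟩
  · intro Z hZ
    rw [rep_length, List.length_append, List.length_reverse, hZ]; ring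
  · intro Z Z' hZ hZ' he
    simp only at he
    obtain ⟨o, rfl⟩ : ∃ o, ω = o + 1 := ⟨ω - 1, by omega⟩
    rw [rep_succ, rep_succ, List.append_assoc, List.append_assoc] at he
    exact (List.append_inj he (by rw [hZ, hZ'])).1
  · intro P R R' hk hR
    refine ⟨key A B E hA hB hAe hBe heA heB hd h1 h2 P R R' hR, ?_⟩
    -- the other order: exchange the roles of the letters
    have hsw : ∀ (X Y : List Bool), F E X Y = F (fun a b => E (!a) (!b)) (X.map (!·)) (Y.map (!·)) := by
      intro X
      induction X with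
      | nil => intro Y; cases Y <;> rfl
      | cons a X ih =>
        intro Y
        cases Y with
        | nil => rfl
        | cons b Y =>
          show E a b * F E X Y = E (!!a) (!!b) * F _ (X.map (!·)) (Y.map (!·))
          rw [ih Y, Bool.not_not, Bool.not_not]
    have hmr : ∀ Z : List Bool, (rep ω (Z ++ Z.reverse)).map (!·) =
        rep ω (Z.map (!·) ++ (Z.map (!·)).reverse) := by
      intro Z
      unfold rep
      rw [List.map_flatten, List.map_replicate, List.map_append, List.map_reverse]
    rw [hsw, hmr, hmr]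
    have := key B A (fun a b => E (!a) (!b)) hB hA hBe hAe heB heA (fun a => hd _) h2 h1
      (P.map (!·)) (R'.map (!·)) (R.map (!·)) (by simp [hR])
    simpa using this

end Pool.Agent.H834Q
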