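import Pool.Agent.H834Q.Code

/-! Existence of codes in a finite monoid. -/

set_option autoImplicit false

namespace Pool.Agent.H834Q

variable {M : Type*} [Monoid M]

theorem F_single (E : Bool → Bool → M) (a b : Bool) : F E [a] [b] = E a b := by simp [F]

theorem F_three (E : Bool → Bool → M) (a b c a' b' c' : Bool) :
    F E [a, b, c] [a', b', c'] = E a a' * E b b' * E c c' := by simp [F, mul_assoc]

theorem F_two (E : Bool → Bool → M) (a b a' b' : Bool) :
    F E [a, b] [a', b'] = E a a' * E b b' := by simp [F]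

theorem rep_ne {n : ℕ} (hn : 1 ≤ n) {u v : List Bool} (h : u.length = v.length) (hne : u ≠ v) :
    rep n u ≠ rep n v := by
  obtain ⟨o, rfl⟩ : ∃ o, n = o + 1 := ⟨n - 1, by omega⟩
  rw [rep_succ, rep_succ]
  intro he
  exact hne (List.append_inj he h).1

/-- Codes exist: the constant only depends on the size of the monoid and on the periods of its
elements. -/
theorem exists_code [Fintype M] (E : Bool → Bool → M) {w ω L₁ : ℕ} (hω : 1 ≤ ω) (hwω : w ≤ ω)
    (hper : ∀ (x : M) (k : ℕ), w ≤ k → x ^ (k + ω) = x ^ k) (hL : Fintype.card M < 2 ^ L₁) (k : ℕ) :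
    ∃ Φ Ψ : M, HasCode E k (L₁ * (ω * (3 * (ω * (ω * 2 * (2 * ω * k)))))) Φ Ψ := by
  classical
  have hid : ∀ x : M, x ^ ω * x ^ ω = x ^ ω := fun x => by rw [← pow_add, hper x ω hwω]
  have hidω : ∀ x : M, x * x = x → x ^ ω = x := by
    intro x hx
    clear hper hid
    obtain ⟨o, rfl⟩ : ∃ o, ω = o + 1 := ⟨ω - 1, by omega⟩
    clear hω hwω
    induction o with
    | zero => simp
    | succ o ih => rw [pow_succ, ih, hx]
  -- two words with the same diagonal product
  obtain ⟨f, g, hfg, hdiag⟩ := Fintype.exists_ne_map_eq_of_card_lt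
    (fun f : Fin L₁ → Bool => F E (List.ofFn f) (List.ofFn f)) (by
      rw [Fintype.card_fun, Fintype.card_bool, Fintype.card_fin]; exact hL)
  have hne : List.ofFn f ≠ List.ofFn g := fun h => hfg (List.ofFn_injective h)
  have key : ∀ (u v : List Bool), u.length = L₁ → v.length = L₁ → u ≠ v →
      F E u u = F E v v → ∃ Φ Ψ : M, HasCode E k (L₁ * (ω * (3 * (ω * (ω * 2 * (2 * ω * k)))))) Φ Ψ := by
    intro u v hu hv huv hd
    obtain ⟨E₁, hE₁⟩ : ∃ E₁ : Bool → Bool → M, E₁ = fun a b => F E (cond a v u) (cond b v u) :=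
      ⟨_, rfl⟩
    have hd₁ : ∀ a, E₁ a a = F E u u := by
      intro a; rw [hE₁]; cases a
      · rfl
      · exact hd.symm
    -- powers
    obtain ⟨E₂, hE₂⟩ : ∃ E₂ : Bool → Bool → M,
        E₂ = fun a b => F E₁ (rep ω [a]) (rep ω [b]) := ⟨_, rfl⟩
    have hE₂' : ∀ a b, E₂ a b = (E₁ a b) ^ ω := by
      intro a b; rw [hE₂]; simp only; rw [F_rep E₁ ω (show [a].length = [b].length from rfl), F_single]
    obtain ⟨e, he⟩ : ∃ e : M, e = (F E u u) ^ ω := ⟨_, rfl⟩
    have hee : e * e = e := by rw [he]; exact hid _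
    have hd₂ : ∀ a, E₂ a a = e := by intro a; rw [hE₂', hd₁, he]
    -- padding
    obtain ⟨E₃, hE₃⟩ : ∃ E₃ : Bool → Bool → M,
        E₃ = fun a b => F E₂ [false, a, false] [false, b, false] := ⟨_, rfl⟩
    have hE₃' : ∀ a b, E₃ a b = e * E₂ a b * e := by
      intro a b; rw [hE₃]; simp only; rw [F_three, hd₂]
    have hd₃ : ∀ a, E₃ a a = e := by intro a; rw [hE₃', hd₂, hee, hee]
    have h3l : ∀ a b, e * E₃ a b = E₃ a b := by
      intro a b; rw [hE₃', ← mul_assoc, ← mul_assoc, hee]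
    have h3r : ∀ a b, E₃ a b * e = E₃ a b := by
      intro a b; rw [hE₃', mul_assoc, hee]
    -- powers
    obtain ⟨E₄, hE₄⟩ : ∃ E₄ : Bool → Bool → M,
        E₄ = fun a b => F E₃ (rep ω [a]) (rep ω [b]) := ⟨_, rfl⟩
    have hE₄' : ∀ a b, E₄ a b = (E₃ a b) ^ ω := by
      intro a b; rw [hE₄]; simp only; rw [F_rep E₃ ω (show [a].length = [b].length from rfl), F_single]
    have hd₄ : ∀ a, E₄ a a = e := by intro a; rw [hE₄', hd₃, hidω e hee]
    have h4i : ∀ a b, E₄ a b * E₄ a b = E₄ a b := by intro a b; rw [hE₄']; exact hid _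
    have h4l : ∀ a b, e * E₄ a b = E₄ a b := by
      intro a b
      rw [hE₄']
      obtain ⟨o, ho⟩ : ∃ o, ω = o + 1 := ⟨ω - 1, by omega⟩
      rw [ho, pow_succ', ← mul_assoc, h3l]
    have h4r : ∀ a b, E₄ a b * e = E₄ a b := by
      intro a b
      rw [hE₄']
      obtain ⟨o, ho⟩ : ∃ o, ω = o + 1 := ⟨ω - 1, by omega⟩
      rw [ho, pow_succ, mul_assoc, h3r]
    -- alternating words
    obtain ⟨E₅, hE₅⟩ : ∃ E₅ : Bool → Bool → M,
        E₅ = fun a b => F E₄ (rep ω [a, !a]) (rep ω [b, !b]) := ⟨_, rfl⟩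
    have hE₅' : ∀ a b, E₅ a b = (E₄ a b * E₄ (!a) (!b)) ^ ω := by
      intro a b; rw [hE₅]; simp only; rw [F_rep E₄ ω (show [a, !a].length = [b, !b].length from rfl), F_two]
    have hd₅ : ∀ a, E₅ a a = e := by intro a; rw [hE₅', hd₄, hd₄, hee, hidω e hee]
    have hfin := code_final (E := E₅) (A := E₄ false true) (B := E₄ true false) (e := e)
      (h4i _ _) (h4i _ _) (h4r _ _) (h4r _ _) (h4l _ _) (h4l _ _) hee hω hwω hper hd₅
      (hE₅' false true) (hE₅' true false) k
    refine ⟨(E₄ false true * E₄ true false) ^ ω, (E₄ true false * E₄ false true) ^ ω, ?_⟩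
    -- substitutions
    refine HasCode.sub (σ := fun a => cond a v u) (ℓ := L₁) ?_ ?_ ?_
    · intro a; cases a
      · exact hu
      · exact hv
    · exact huv
    refine HasCode.sub (σ := fun a => rep ω [a]) (ℓ := ω) ?_ ?_ ?_
    · intro a; rw [rep_length]; simp
    · exact rep_ne hω rfl (by simp)
    refine HasCode.sub (σ := fun a => [false, a, false]) (ℓ := 3) ?_ ?_ ?_
    · intro a; rfl
    · simp
    refine HasCode.sub (σ := fun a => rep ω [a]) (ℓ := ω) ?_ ?_ ?_
    · intro a; rw [rep_length]; simp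
    · exact rep_ne hω rfl (by simp)
    refine HasCode.sub (σ := fun a => rep ω [a, !a]) (ℓ := ω * 2) ?_ ?_ ?_
    · intro a; rw [rep_length]; simp
    · exact rep_ne hω rfl (by simp)
    rw [hE₅, hE₄, hE₃, hE₂, hE₁] at hfin
    rw [hE₄, hE₃, hE₂, hE₁]
    exact hfin
  exact key _ _ (List.length_ofFn) (List.length_ofFn) hne hdiag

end Pool.Agent.H834Q
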