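import Pool.Agent.H834Q.Lift

/-! Jordan curves near symmetric Jordan curves: final assembly. -/

set_option autoImplicit false
open Complex Set Topology Metric
open scoped ComplexConjugate

namespace Pool.Agent.H834Q

open Pool.Agent.H763R2 Pool.Agent.H763R2.An
open Pool.Agent.H763R2.Sq (Dv Cv)
open Pool.Agent.H763R2.Dm (NoSq)

variable {c q : ℝ → ℂ}

/-- a strictly decreasing continuous function of degree `-1` minus the identity is onto -/
theorem anti_surj {f : ℝ → ℝ} (hf : Continuous f) (hn : ∀ (t : ℝ) (n : ℤ), f (t + n) = f t - n)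
    (v : ℝ) : ∃ t, f t - t = v := by
  obtain ⟨n, hn1⟩ := exists_nat_ge (|v| + |f 0|)
  have a1 := abs_le.1 (le_refl |v|)
  have a2 := abs_le.1 (le_refl |f 0|)
  have h1 := hn 0 n
  have h2 := hn 0 (-n)
  have n0 : (0:ℝ) ≤ n := Nat.cast_nonneg n
  rw [zero_add] at h1 h2
  push_cast at h1 h2
  refine mem_range_of_exists_le_of_exists_ge (f := fun t => f t - t) (hf.sub continuous_id)
    ⟨(n : ℝ), ?_⟩ ⟨-(n : ℝ), ?_⟩
  · simp only [h1]; linarith [a1.1, a2.2]
  · simp only [h2]; linarith [a1.2, a2.1]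

theorem invol_id {F : ℝ → ℝ} (hm : StrictMono F) (h : ∀ t, F (F t) = t) (t : ℝ) : F t = t := by
  rcases lt_trichotomy (F t) t with h1 | h1 | h1
  · have := hm h1; rw [h] at this; linarith
  · exact h1
  · have := hm h1; rw [h] at this; linarith

/-- symmetric parametrisation of a centrally symmetric Jordan curve -/
theorem pointParam (hc : Continuous c) (hper : ∀ t, c (t + 1) = c t) (hinj : InjOn c (Ico 0 1))
    {p : ℂ} (hmem : ∀ z ∈ range c, 2 * p - z ∈ range c) :
    ∃ h : ℝ → ℝ, Continuous h ∧ StrictMono h ∧ (∀ t, h (t + 1) = h t + 1) ∧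
      ∀ t, c (h (t + 1 / 2)) = 2 * p - c (h t) := by
  have L : Loop c := ⟨hc, hper⟩
  have J := inj_of hper hinj
  obtain ⟨f, hf, hfc, ⟨k, hk⟩, ⟨hm, hn⟩ | ⟨hm, hn⟩⟩ := exists_lift' hc hper hinj
    (σ := fun z => 2 * p - z) (by fun_prop) (fun z => by ring) hmem
  · rcases Int.even_or_odd' k with ⟨j, hj | hj⟩
    · exfalso
      have hF := invol_id (F := fun t => f t - j) (fun a b hab => by have := hm hab; simp only; linarith)
        (fun t => by
          have := hn (f t) (-j)
          push_cast at this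
          rw [show f t + -(j : ℝ) = f t - j by ring] at this
          simp only [this, hk, hj]
          push_cast; ring)
      have hall : ∀ t, c t = p := by
        intro t
        have h1 := hfc t
        have h2 : f t = t + j := by have := hF t; linarith
        rw [h2, L.per_int] at h1
        linear_combination (1 / 2 : ℂ) * h1
      exact J 0 (1 / 2) (by norm_num) (by norm_num) (by rw [hall, hall])
    · obtain ⟨F, hF⟩ : ∃ F : ℝ → ℝ, F = fun t => f t - j := ⟨_, rfl⟩
      have Fc : Continuous F := by rw [hF]; exact hf.sub continuous_const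
      have Fm : StrictMono F := by rw [hF]; intro a b hab; have := hm hab; simp only; linarith
      have FF : ∀ t, F (F t) = t + 1 := by
        intro t
        have := hn (f t) (-j)
        push_cast at this
        rw [show f t + -(j : ℝ) = f t - j by ring] at this
        rw [hF]
        simp only [this, hk, hj]
        push_cast; ring
      have F1 : ∀ t, F (t + 1) = F t + 1 := by
        intro t
        have := hn t 1
        push_cast at this
        rw [hF]; simp only [this]; ring
      have cF : ∀ t, c (F t) = 2 * p - c t := by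
        intro t
        rw [hF, ← hfc t]
        have := L.per_int (f t) (-j)
        push_cast at this
        rw [← this]
        rfl
      obtain ⟨h, h1, h2, h3, h4, h5⟩ := exists_inv (ψ := fun t => (t + F t) / 2)
        ((continuous_id.add Fc).div_const 2) (fun a b hab => by have := Fm hab; simp only; linarith)
        (fun t => by simp only [F1]; ring)
      refine ⟨h, h1, h2, h5, fun t => ?_⟩
      have e : h (t + 1 / 2) = F (h t) := by
        rw [← h4 (F (h t))]
        congr 1
        have := h3 t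
        try simp only at this ⊢
        rw [FF]
        linarith
      rw [e, cF]
  · exfalso
    obtain ⟨t, ht⟩ := anti_surj hf hn 0
    obtain ⟨t', ht'⟩ := anti_surj hf hn 1
    have e1 := hfc t
    rw [show f t = t by linarith] at e1
    have e2 := hfc t'
    rw [show f t' = t' + 1 by linarith, hper] at e2
    have e3 : c t = c t' := by linear_combination (1 / 2 : ℂ) * e1 - (1 / 2 : ℂ) * e2
    obtain ⟨m, hm'⟩ := eqmod hper hinj e3
    have e4 := hn t m
    rw [← hm'] at e4
    have e5 : (2 : ℝ) * m = -1 := by linarith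
    have e6 : 2 * m = -1 := by exact_mod_cast e5
    omega

/-- symmetric parametrisation of an axially symmetric Jordan curve -/
theorem lineParam (hc : Continuous c) (hper : ∀ t, c (t + 1) = c t) (hinj : InjOn c (Ico 0 1))
    (hmem : ∀ z ∈ range c, conj z ∈ range c) :
    ∃ h : ℝ → ℝ, Continuous h ∧ StrictMono h ∧ (∀ t, h (t + 1) = h t + 1) ∧
      ∀ t, c (h (-t)) = conj (c (h t)) := by
  have L : Loop c := ⟨hc, hper⟩
  have J := inj_of hper hinj
  obtain ⟨f, hf, hfc, ⟨k, hk⟩, ⟨hm, hn⟩ | ⟨hm, hn⟩⟩ := exists_lift' hc hper hinj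
    (σ := fun z => conj z) continuous_conj (fun z => conj_conj z) hmem
  · exfalso
    -- a real point
    obtain ⟨t, ht⟩ : (0:ℝ) ∈ range fun t => (c t).im := by
      have h1 : (c (f 0)).im = -(c 0).im := by rw [hfc 0]; exact conj_im _
      rcases le_total (c 0).im 0 with h | h
      · exact mem_range_of_exists_le_of_exists_ge (by fun_prop) ⟨0, h⟩ ⟨f 0, by rw [h1]; linarith⟩
      · exact mem_range_of_exists_le_of_exists_ge (by fun_prop) ⟨f 0, by rw [h1]; linarith⟩ ⟨0, h⟩
    have h2 : c t = c (f t) := by rw [hfc t]; exact (conj_eq_iff_im.2 ht).symm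
    obtain ⟨j, hj⟩ := eqmod hper hinj h2
    have hkj : (k : ℝ) = 2 * j := by
      have h3 := hk t
      rw [hj, hn t j, hj] at h3
      linarith
    have hF := invol_id (F := fun t => f t - j) (fun a b hab => by have := hm hab; simp only; linarith)
      (fun t => by
        have := hn (f t) (-j)
        push_cast at this
        rw [show f t + -(j : ℝ) = f t - j by ring] at this
        simp only [this, hk, hkj]
        ring)
    have hall : ∀ t, (c t).im = 0 := by
      intro t
      have h1 := hfc t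
      have h2 : f t = t + j := by have := hF t; linarith
      rw [h2, L.per_int] at h1
      exact conj_eq_iff_im.1 h1.symm
    obtain ⟨s, hs⟩ : (0:ℝ) ∈ range fun t => (c t).re - (c (t + 1 / 2)).re := by
      have h1 : (c (1 / 2)).re - (c (1 / 2 + 1 / 2)).re = -((c 0).re - (c (0 + 1 / 2)).re) := by
        have := hper 0
        rw [show (1:ℝ) / 2 + 1 / 2 = 0 + 1 by norm_num, this, zero_add]
        ring
      rcases le_total ((c 0).re - (c (0 + 1 / 2)).re) 0 with h | h
      · exact mem_range_of_exists_le_of_exists_ge (by fun_prop) ⟨0, h⟩ ⟨1 / 2, by rw [h1]; linarith⟩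
      · exact mem_range_of_exists_le_of_exists_ge (by fun_prop) ⟨1 / 2, by rw [h1]; linarith⟩ ⟨0, h⟩
    refine J s (s + 1 / 2) (by linarith) (by linarith) (Complex.ext ?_ ?_)
    · simp only at hs; linarith
    · rw [hall, hall]
  · obtain ⟨t₀, ht₀⟩ := anti_surj hf hn 0
    have hk0 : (k : ℝ) = 0 := by
      have := hk t₀
      rw [show f t₀ = t₀ by linarith, show f t₀ = t₀ by linarith] at this
      linarith
    have ff : ∀ t, f (f t) = t := fun t => by rw [hk, hk0, add_zero]
    obtain ⟨h, h1, h2, h3, h4, h5⟩ := exists_inv (ψ := fun t => (t - f t) / 2)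
      ((continuous_id.sub hf).div_const 2) (fun a b hab => by have := hm hab; simp only; linarith)
      (fun t => by
        have := hn t 1
        push_cast at this
        simp only [this]; ring)
    refine ⟨h, h1, h2, h5, fun t => ?_⟩
    have e : h (-t) = f (h t) := by
      rw [← h4 (f (h t))]
      congr 1
      have := h3 t
      try simp only at this ⊢
      rw [ff]
      linarith
    rw [e, hfc]

theorem reparam (hc : Continuous c) (hper : ∀ t, c (t + 1) = c t) (hinj : InjOn c (Ico 0 1))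
    {h : ℝ → ℝ} (h1 : Continuous h) (h2 : StrictMono h) (h3 : ∀ t, h (t + 1) = h t + 1) :
    Continuous (fun t => c (h t)) ∧ (∀ t, c (h (t + 1)) = c (h t)) ∧
      InjOn (fun t => c (h t)) (Ico 0 1) ∧ range (fun t => c (h t)) = range c := by
  refine ⟨hc.comp h1, fun t => by rw [h3, hper], ?_, ?_⟩
  · intro a ha b hb hab
    obtain ⟨n, hn⟩ := eqmod hper hinj hab
    have hz : ∀ (n : ℕ) (t : ℝ), h (t + n) = h t + n := by
      intro n
      induction n with
      | zero => intro t; simp
      | succ n ih =>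
        intro t
        push_cast
        rw [show t + ((n : ℝ) + 1) = (t + n) + 1 by ring, h3, ih]
        ring
    rcases le_total 0 n with h0 | h0
    · obtain ⟨m, rfl⟩ := Int.eq_ofNat_of_zero_le h0
      have : h b = h (a + m) := by rw [hz, hn]; push_cast; rfl
      have e := h2.injective this
      have : (m : ℝ) < 1 := by linarith [ha.1, hb.2]
      have : m < 1 := by exact_mod_cast this
      have : m = 0 := by omega
      rw [this] at e
      simpa using e.symm
    · obtain ⟨m, hm⟩ := Int.eq_ofNat_of_zero_le (show 0 ≤ -n by omega)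
      have hnm : (n : ℝ) = -(m : ℝ) := by
        have : n = -(m : ℤ) := by omega
        rw [this]; push_cast; rfl
      have : h a = h (b + m) := by rw [hz, hn, hnm]; ring
      have e := h2.injective this
      have : (m : ℝ) < 1 := by linarith [hb.1, ha.2]
      have : m < 1 := by exact_mod_cast this
      have : m = 0 := by omega
      rw [this] at e
      simpa using e
  · obtain ⟨g, -, -, g3, g4, -⟩ := exists_inv h1 h2 h3
    apply Subset.antisymm
    · rintro _ ⟨t, rfl⟩; exact mem_range_self _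
    · rintro _ ⟨t, rfl⟩; exact ⟨g t, by simp only [g3]⟩

/-- neighbourhood in which every Jordan curve has an inscribed square -/
def Good (c₀ : ℝ → ℂ) : Prop :=
  ∃ ε > 0, ∀ c : ℝ → ℂ, Continuous c → (∀ t, c (t + 1) = c t) → InjOn c (Ico 0 1) →
    (∀ t, ‖c t - c₀ t‖ ≤ ε) → ¬ NoSq (range c)

theorem Good.of_reparam {c₀ : ℝ → ℂ} {h : ℝ → ℝ} (h1 : Continuous h) (h2 : StrictMono h)
    (h3 : ∀ t, h (t + 1) = h t + 1) (H : Good (fun t => c₀ (h t))) : Good c₀ := by
  obtain ⟨ε, hε, H⟩ := H
  refine ⟨ε, hε, fun c hc hper hinj hcl => ?_⟩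
  obtain ⟨r1, r2, r3, r4⟩ := reparam hc hper hinj h1 h2 h3
  have := H (fun t => c (h t)) r1 r2 r3 (fun t => hcl _)
  rwa [r4] at this

theorem goodPoint {c₀ : ℝ → ℂ} (hc₀ : Continuous c₀) (hper : ∀ t, c₀ (t + 1) = c₀ t)
    (hinj : InjOn c₀ (Ico 0 1)) {p : ℂ} (hmem : ∀ z ∈ range c₀, 2 * p - z ∈ range c₀)
    (hS : (Squares (range c₀)).Countable) : Good c₀ := by
  obtain ⟨h, h1, h2, h3, h4⟩ := pointParam hc₀ hper hinj hmem
  refine Good.of_reparam h1 h2 h3 ?_
  obtain ⟨r1, r2, r3, r4⟩ := reparam hc₀ hper hinj h1 h2 h3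
  rw [← r4] at hS
  have hex : ∃ δ ∈ Ioo (0:ℝ) 1, ∀ t, ¬ (Dv (c₀ (h t)) (c₀ (h (t + δ))) ∈ range (fun t => c₀ (h t)) ∧
      Cv (c₀ (h t)) (c₀ (h (t + δ))) ∈ range (fun t => c₀ (h t))) := by
    by_contra hcon
    push Not at hcon
    exact not_countable_of (c := fun t => c₀ (h t)) r2 r3 hcon hS
  obtain ⟨δ, hδ, hn⟩ := hex
  obtain ⟨ε, hε, H⟩ := near (c₀ := fun t => c₀ (h t)) ⟨r1, r2⟩ (p := p) h4 hδ hn
  exact ⟨ε, hε, fun c hc hper hinj hcl => H c ⟨hc, hper⟩ (inj_of hper hinj) hcl⟩

theorem goodLine_pos {c₀ : ℝ → ℂ} (hc₀ : Continuous c₀) (hper : ∀ t, c₀ (t + 1) = c₀ t)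
    (hinj : InjOn c₀ (Ico 0 1)) (hs : ∀ t, c₀ (-t) = conj (c₀ t))
    (hp : 0 < (c₀ (1 / 4)).im) (hS : (Squares (range c₀)).Countable) : Good c₀ := by
  have hpos : ∀ t ∈ Ioo (0:ℝ) (1 / 2), 0 < (c₀ t).im := by
    intro t ht
    by_contra hcon
    push Not at hcon
    have hne : ∀ u ∈ Ioo (0:ℝ) (1 / 2), (c₀ u).im ≠ 0 := by
      intro u hu h0
      have : c₀ (-u) = c₀ u := by rw [hs]; exact conj_eq_iff_im.2 h0
      exact inj_of hper hinj (-u) u (by linarith [hu.1]) (by linarith [hu.2]) this
    have hcont : ContinuousOn (fun u => (c₀ u).im) (uIcc t (1 / 4)) := by fun_prop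
    have hsub := intermediate_value_uIcc hcont
    have h0 : (0:ℝ) ∈ uIcc (c₀ t).im (c₀ (1 / 4)).im := by
      rw [uIcc_of_le (hcon.trans hp.le)]; exact ⟨hcon, hp.le⟩
    obtain ⟨u, hu, hu0⟩ := hsub h0
    refine hne u ?_ hu0
    have h1 := hu.1
    have h2 := hu.2
    constructor
    · exact lt_of_lt_of_le (lt_min ht.1 (by norm_num)) h1
    · exact lt_of_le_of_lt h2 (max_lt ht.2 (by norm_num))
  obtain ⟨ε, hε, H⟩ := nearL_pos ⟨hc₀, hper⟩ hs hpos (Zc_countable hper hinj hS)
  exact ⟨ε, hε, fun c hc hper hinj hcl => H c ⟨hc, hper⟩ (inj_of hper hinj) hcl⟩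

theorem Jneg (hper : ∀ t, c (t + 1) = c t) (hinj : InjOn c (Ico 0 1)) :
    InjOn (fun t => c (-t)) (Ico 0 1) := by
  intro a ha b hb hab
  obtain ⟨n, hn⟩ := eqmod hper hinj hab
  have h1 : (n : ℝ) < 1 := by linarith [ha.2, hb.1]
  have h2 : (-1 : ℝ) < n := by linarith [ha.1, hb.2]
  have h3 : n < 1 := by exact_mod_cast h1
  have h4 : -1 < n := by exact_mod_cast h2
  have h5 : n = 0 := by omega
  rw [h5] at hn
  push_cast at hn
  linarith

theorem range_neg' (c : ℝ → ℂ) : range (fun t => c (-t)) = range c := by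
  apply Subset.antisymm
  · rintro _ ⟨t, rfl⟩; exact mem_range_self _
  · rintro _ ⟨t, rfl⟩; exact ⟨-t, by simp⟩

theorem per_neg (hper : ∀ t, c (t + 1) = c t) (t : ℝ) : c (-(t + 1)) = c (-t) := by
  rw [← hper (-(t + 1))]; congr 1; ring

theorem goodLine {c₀ : ℝ → ℂ} (hc₀ : Continuous c₀) (hper : ∀ t, c₀ (t + 1) = c₀ t)
    (hinj : InjOn c₀ (Ico 0 1)) (hmem : ∀ z ∈ range c₀, conj z ∈ range c₀)
    (hS : (Squares (range c₀)).Countable) : Good c₀ := by
  obtain ⟨h, h1, h2, h3, h4⟩ := lineParam hc₀ hper hinj hmem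
  refine Good.of_reparam h1 h2 h3 ?_
  obtain ⟨r1, r2, r3, r4⟩ := reparam hc₀ hper hinj h1 h2 h3
  rw [← r4] at hS
  obtain ⟨c₁, hc₁⟩ : ∃ c₁ : ℝ → ℂ, c₁ = fun t => c₀ (h t) := ⟨_, rfl⟩
  have h4' : ∀ t, c₁ (-t) = conj (c₁ t) := by rw [hc₁]; exact h4
  have r2' : ∀ t, c₁ (t + 1) = c₁ t := by rw [hc₁]; exact r2
  rw [← hc₁] at r1 r3 hS ⊢
  rcases lt_trichotomy 0 (c₁ (1 / 4)).im with hp | hp | hp
  · exact goodLine_pos r1 r2' r3 h4' hp hS
  · exfalso
    have : c₁ (-(1 / 4)) = c₁ (1 / 4) := by rw [h4']; exact conj_eq_iff_im.2 hp.symm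
    exact inj_of r2' r3 (-(1 / 4)) (1 / 4) (by norm_num) (by norm_num) this
  · have hg : Good (fun t => c₁ (-t)) := by
      refine goodLine_pos (r1.comp continuous_neg) (per_neg r2') (Jneg r2' r3)
        (fun t => h4' _) ?_ ?_
      · rw [h4', conj_im]; linarith
      · rw [range_neg']; exact hS
    obtain ⟨ε, hε, H⟩ := hg
    refine ⟨ε, hε, fun c hc hper hinj hcl => ?_⟩
    have := H (fun t => c (-t)) (hc.comp continuous_neg) (per_neg hper) (Jneg hper hinj)
      (fun t => hcl _)
    rwa [range_neg'] at this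

theorem goodAxis {c₀ : ℝ → ℂ} (hc₀ : Continuous c₀) (hper : ∀ t, c₀ (t + 1) = c₀ t)
    (hinj : InjOn c₀ (Ico 0 1)) {p v : ℂ} (hv : ‖v‖ = 1)
    (hmem : ∀ z ∈ range c₀, p + v ^ 2 * conj (z - p) ∈ range c₀)
    (hS : (Squares (range c₀)).Countable) : Good c₀ := by
  have hvv : v * conj v = 1 := by
    rw [mul_conj, normSq_eq_norm_sq, hv]; norm_num
  have hvv' : conj v * v = 1 := by rw [mul_comm]; exact hvv
  have hT : ∀ z : ℂ, v * (conj v * (z - p)) + p = z := fun z => by
    rw [← mul_assoc, hvv]; ring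
  have hg : Good (fun t => conj v * (c₀ t - p)) := by
    refine goodLine (by fun_prop) (fun t => by simp only [hper]) ?_ ?_ ?_
    · intro a ha b hb hab
      apply hinj ha hb
      simp only at hab
      rw [← hT (c₀ a), hab, hT]
    · rintro _ ⟨t, rfl⟩
      obtain ⟨s, hs⟩ := hmem (c₀ t) (mem_range_self t)
      refine ⟨s, ?_⟩
      simp only
      rw [hs, map_mul, conj_conj]
      linear_combination (v * conj (c₀ t - p)) * hvv'
    · have hmaps : ∀ s ∈ Squares (range fun t => conj v * (c₀ t - p)),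
          ((v * s.1 + p, v * s.2) : ℂ × ℂ) ∈ Squares (range c₀) := by
        rintro ⟨z, w⟩ ⟨g1, g2, g3, g4, g5⟩
        have hm : ∀ u : ℂ, u ∈ range (fun t => conj v * (c₀ t - p)) → v * u + p ∈ range c₀ := by
          rintro _ ⟨t, rfl⟩
          exact ⟨t, (hT _).symm⟩
        have v0 : v ≠ 0 := by intro h; rw [h] at hv; simp at hv
        refine ⟨mul_ne_zero v0 g1, hm _ g2, ?_, ?_, ?_⟩
        · have := hm _ g3
          simp only at this ⊢
          rwa [show v * z + p + v * w = v * (z + w) + p by ring]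
        · have := hm _ g4
          simp only at this ⊢
          rwa [show v * z + p + v * w + I * (v * w) = v * (z + w + I * w) + p by ring]
        · have := hm _ g5
          simp only at this ⊢
          rwa [show v * z + p + I * (v * w) = v * (z + I * w) + p by ring]
      refine MapsTo.countable_of_injOn hmaps ?_ hS
      rintro ⟨z, w⟩ - ⟨z', w'⟩ - he
      simp only [Prod.mk.injEq] at he
      obtain ⟨e1, e2⟩ := he
      have v0 : v ≠ 0 := by intro h; rw [h] at hv; simp at hv
      exact Prod.ext (mul_left_cancel₀ v0 (add_right_cancel e1)) (mul_left_cancel₀ v0 e2)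
  obtain ⟨ε, hε, H⟩ := hg
  refine ⟨ε, hε, fun c hc hper hinj hcl nosq => ?_⟩
  refine H (fun t => conj v * (c t - p)) (by fun_prop) (fun t => by simp only [hper]) ?_
    (fun t => ?_) ?_
  · intro a ha b hb hab
    apply hinj ha hb
    simp only at hab
    rw [← hT (c a), hab, hT]
  · rw [show conj v * (c t - p) - conj v * (c₀ t - p) = conj v * (c t - c₀ t) by ring, norm_mul,
      norm_conj, hv, one_mul]
    exact hcl t
  · rintro ⟨z, w, g1, g2, g3, g4, g5⟩
    have hm : ∀ u : ℂ, u ∈ range (fun t => conj v * (c t - p)) → v * u + p ∈ range c := by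
      rintro _ ⟨t, rfl⟩
      exact ⟨t, (hT _).symm⟩
    have v0 : v ≠ 0 := by intro h; rw [h] at hv; simp at hv
    refine nosq ⟨v * z + p, v * w, mul_ne_zero v0 g1, hm _ g2, ?_, ?_, ?_⟩
    · rw [show v * z + p + v * w = v * (z + w) + p by ring]; exact hm _ g3
    · rw [show v * z + p + v * w + I * (v * w) = v * (z + w + I * w) + p by ring]; exact hm _ g4
    · rw [show v * z + p + I * (v * w) = v * (z + I * w) + p by ring]; exact hm _ g5

end Pool.Agent.H834Q
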