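import Pool.Agent.H834Q.Prog

/-! Lower bound for triples. -/

set_option autoImplicit false
open Finset

namespace Pool.Agent.H834Q

variable {n h : ℕ}

/-- the level of a position -/
def level (n h t : ℕ) : Fin (h + 1) :=
  ⟨Nat.findGreatest (fun j => n ^ j ∣ t) h, Nat.lt_succ_of_le (Nat.findGreatest_le h)⟩

theorem level_dvd (n h t : ℕ) : n ^ (level n h t : ℕ) ∣ t := by
  have := Nat.findGreatest_spec (P := fun j => n ^ j ∣ t) (m := 0) (n := h) (Nat.zero_le _)
    (by simp)
  exact this

theorem not_dvd_of_level {n h t e : ℕ} (ht0 : 0 < t) (ht : t < n ^ (h + 1)) (he : e ≤ h)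
    (hl : (level n h t : ℕ) ≤ e) : ¬ n ^ (e + 1) ∣ t := by
  intro hd
  rcases Nat.lt_or_ge e h with h1 | h1
  · have := Nat.le_findGreatest (P := fun j => n ^ j ∣ t) (m := e + 1) (n := h) (by omega) hd
    have h2 : Nat.findGreatest (fun j => n ^ j ∣ t) h ≤ e := hl
    omega
  · have : e = h := by omega
    subst this
    exact absurd (Nat.le_of_dvd ht0 hd) (not_le.2 ht)

/-- the digit number `e` in base `n` separates `p` and `q` -/
theorem digit_ne {n h e p q : ℕ} (hn : 0 < n) (hpq : p < q) (hq : q < n ^ (h + 1)) (he : e ≤ h)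
    (h1 : ∃ t, p < t ∧ t ≤ q ∧ n ^ e ∣ t)
    (h2 : ∀ t, p < t → t ≤ q → (level n h t : ℕ) ≤ e) :
    (p / n ^ e) % n ≠ (q / n ^ e) % n := by
  have hne : 0 < n ^ e := Nat.pow_pos hn
  have hne1 : 0 < n ^ (e + 1) := Nat.pow_pos hn
  have e1 : p / n ^ (e + 1) = q / n ^ (e + 1) := by
    apply le_antisymm (Nat.div_le_div_right hpq.le)
    by_contra hcon
    push Not at hcon
    have h3 : p < q / n ^ (e + 1) * n ^ (e + 1) := (Nat.div_lt_iff_lt_mul hne1).1 hcon
    have h4 : q / n ^ (e + 1) * n ^ (e + 1) ≤ q := Nat.div_mul_le_self _ _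
    exact not_dvd_of_level (by omega) (by omega) he (h2 _ h3 h4) (Dvd.intro_left _ rfl)
  have e2 : p / n ^ e < q / n ^ e := by
    obtain ⟨t, h3, h4, u, rfl⟩ := h1
    have h5 : p / n ^ e < u := by
      rw [Nat.div_lt_iff_lt_mul hne, mul_comm]; exact h3
    have h6 : u ≤ q / n ^ e := by
      rw [Nat.le_div_iff_mul_le hne, mul_comm]; exact h4
    omega
  intro h3
  rw [pow_succ, ← Nat.div_div_eq_div_mul, ← Nat.div_div_eq_div_mul] at e1
  have h4 := Nat.div_add_mod (p / n ^ e) n
  have h5 := Nat.div_add_mod (q / n ^ e) n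
  rw [e1, h3] at h4
  omega

/-- the first time at which the digits of `a < b`, read from the top, differ -/
structure Split (m a b t : ℕ) : Prop where
  lt : t < m
  eq : ∀ s < t, a.testBit (m - 1 - s) = b.testBit (m - 1 - s)
  left : a.testBit (m - 1 - t) = false
  right : b.testBit (m - 1 - t) = true

theorem exists_split {m a b : ℕ} (hab : a < b) (hb : b < 2 ^ m) : ∃ t, Split m a b t := by
  classical
  have hex : ∃ t, a.testBit (m - 1 - t) ≠ b.testBit (m - 1 - t) := by
    by_contra hcon
    push Not at hcon
    refine hab.ne (Nat.eq_of_testBit_eq fun j => ?_)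
    rcases Nat.lt_or_ge j m with h | h
    · have := hcon (m - 1 - j)
      rwa [show m - 1 - (m - 1 - j) = j by omega] at this
    · rw [Nat.testBit_lt_two_pow ((hab.trans hb).trans_le (Nat.pow_le_pow_right (by norm_num) h)),
        Nat.testBit_lt_two_pow (hb.trans_le (Nat.pow_le_pow_right (by norm_num) h))]
  have hspec := Nat.find_spec hex
  have hmin : ∀ s < Nat.find hex, a.testBit (m - 1 - s) = b.testBit (m - 1 - s) := by
    intro s hs
    have := Nat.find_min hex hs
    push Not at this
    exact this
  set t := Nat.find hex with ht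
  have htop : ∀ j, m - 1 - t < j → a.testBit j = b.testBit j := by
    intro j hj
    rcases Nat.lt_or_ge j m with h | h
    · have := hmin (m - 1 - j) (by omega)
      rwa [show m - 1 - (m - 1 - j) = j by omega] at this
    · rw [Nat.testBit_lt_two_pow ((hab.trans hb).trans_le (Nat.pow_le_pow_right (by norm_num) h)),
        Nat.testBit_lt_two_pow (hb.trans_le (Nat.pow_le_pow_right (by norm_num) h))]
  have htm : t < m := by
    by_contra hcon
    push Not at hcon
    rcases Nat.eq_zero_or_pos m with h0 | h0
    · rw [h0] at hb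
      have : b < 1 := by simpa using hb
      omega
    · have := hmin (m - 1) (by omega)
      rw [show m - 1 - t = m - 1 - (m - 1) by omega] at hspec
      exact hspec this
  cases ha : a.testBit (m - 1 - t) with
  | false =>
    cases hb' : b.testBit (m - 1 - t) with
    | false => rw [ha, hb'] at hspec; exact absurd rfl hspec
    | true => exact ⟨t, htm, hmin, ha, hb'⟩
  | true =>
    cases hb' : b.testBit (m - 1 - t) with
    | false =>
      have := Nat.lt_of_testBit (m - 1 - t) hb' ha (fun j hj => (htop j hj).symm)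
      omega
    | true => rw [ha, hb'] at hspec; exact absurd rfl hspec

theorem Split.unique {m a b t t' : ℕ} (h : Split m a b t) (h' : Split m a b t') : t = t' := by
  rcases Nat.lt_trichotomy t t' with h1 | h1 | h1
  · have := h'.eq t h1
    rw [h.left, h.right] at this
    exact absurd this (by decide)
  · exact h1
  · have := h.eq t' h1
    rw [h'.left, h'.right] at this
    exact absurd this (by decide)

theorem Split.ne {m a b c t u : ℕ} (h : Split m a b t) (h' : Split m b c u) : t ≠ u := by
  rintro rfl
  have := h.right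
  rw [h'.left] at this
  exact absurd this (by decide)

theorem Split.trans_left {m a b c t u : ℕ} (h : Split m a b t) (h' : Split m b c u) (htu : t < u) :
    Split m a c t :=
  ⟨h.lt, fun s hs => (h.eq s hs).trans (h'.eq s (hs.trans htu)), h.left,
    (h'.eq t htu).symm.trans h.right⟩

theorem Split.trans_right {m a b c t u : ℕ} (h : Split m a b t) (h' : Split m b c u) (htu : u < t) :
    Split m a c u :=
  ⟨h'.lt, fun s hs => (h.eq s (hs.trans htu)).trans (h'.eq s hs), (h.eq u htu).trans h'.left,
    h'.right⟩

/-- states: nothing has happened; one split has happened (`false`), two splits (`true`), which of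
the two pairs was split first, the highest level since then -/
abbrev St (h : ℕ) := Option (Bool × Bool × Fin (h + 1))

/-- transitions -/
def step (n h t : ℕ) : St h → (Fin 3 → Bool) → St h
  | none, x => if x 0 = x 2 then none else some (false, x 1, 0)
  | some (true, s, l), _ => some (true, s, l)
  | some (false, true, l), x => some (!decide (x 1 = x 2), true, max l (level n h t))
  | some (false, false, l), x => some (!decide (x 0 = x 1), false, max l (level n h t))

/-- top-down reading order -/
def top (m t : ℕ) : ℕ := m - 1 - t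

/-- the analysis of the program -/
theorem run_spec {m : ℕ} {v : Fin 3 → ℕ} {t₁ t₂ : ℕ} (h₁ : Split m (v 0) (v 1) t₁)
    (h₂ : Split m (v 1) (v 2) t₂) {p q : ℕ} (hp : p = min t₁ t₂) (hq : q = max t₁ t₂) :
    ∃ e : Fin (h + 1), run (step n h) none (top m) v m = some (true, decide (t₁ < t₂), e) ∧
      (∃ t, p < t ∧ t ≤ q ∧ n ^ (e : ℕ) ∣ t) ∧
      (∀ t, p < t → t ≤ q → (level n h t : ℕ) ≤ e) := by
  have hne := h₁.ne h₂
  have hpq : p < q := by
    rw [hp, hq]
    rcases lt_or_gt_of_ne hne with h | h
    · rw [min_eq_left h.le, max_eq_right h.le]; exact h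
    · rw [min_eq_right h.le, max_eq_left h.le]; exact h
  have hqm : q < m := by rw [hq]; exact max_lt h₁.lt h₂.lt
  -- before the first split
  have A : ∀ t ≤ p, run (step n h) none (top m) v t = none := by
    intro t
    induction t with
    | zero => intro _; rfl
    | succ t ih =>
      intro ht
      show step n h t (run (step n h) none (top m) v t) _ = none
      rw [ih (by omega)]
      show (if (v 0).testBit (m - 1 - t) = (v 2).testBit (m - 1 - t) then none else _) = none
      rw [if_pos]
      have h1 : t < t₁ := by omega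
      have h2 : t < t₂ := by omega
      exact (h₁.eq t h1).trans (h₂.eq t h2)
  -- at the first split
  have B : run (step n h) none (top m) v (p + 1) = some (false, decide (t₁ < t₂), 0) := by
    show step n h p (run (step n h) none (top m) v p) _ = _
    rw [A p le_rfl]
    show (if (v 0).testBit (m - 1 - p) = (v 2).testBit (m - 1 - p) then none
      else some (false, (v 1).testBit (m - 1 - p), 0)) = _
    rcases lt_or_gt_of_ne hne with h | h
    · have hpt : p = t₁ := by rw [hp, min_eq_left h.le]
      rw [hpt, h₁.left, ← h₂.eq t₁ h, h₁.right, if_neg (by decide), decide_eq_true h]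
    · have hpt : p = t₂ := by rw [hp, min_eq_right h.le]
      rw [hpt, h₂.right, h₁.eq t₂ h, h₂.left, if_neg (by decide), decide_eq_false (by omega)]
  -- between the splits
  have C : ∀ d, p + 1 + d ≤ q → ∃ l : Fin (h + 1),
      run (step n h) none (top m) v (p + 1 + d) = some (false, decide (t₁ < t₂), l) ∧
      ((l : ℕ) = 0 ∨ ∃ t, p < t ∧ t < p + 1 + d ∧ n ^ (l : ℕ) ∣ t) ∧
      (∀ t, p < t → t < p + 1 + d → (level n h t : ℕ) ≤ l) := by
    intro d
    induction d with
    | zero =>
      intro _
      refine ⟨0, B, Or.inl rfl, ?_⟩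
      intro t h1 h2
      omega
    | succ d ih =>
      intro hd
      obtain ⟨l, hl1, hl2, hl3⟩ := ih (by omega)
      refine ⟨max l (level n h (p + 1 + d)), ?_, ?_, ?_⟩
      · show step n h (p + 1 + d) (run (step n h) none (top m) v (p + 1 + d)) _ = _
        rw [hl1]
        rcases lt_or_gt_of_ne hne with h | h
        · rw [decide_eq_true h]
          show some (!decide ((v 1).testBit (m - 1 - (p + 1 + d)) =
            (v 2).testBit (m - 1 - (p + 1 + d))), true, _) = _
          have hqt : q = t₂ := by rw [hq, max_eq_right h.le]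
          rw [h₂.eq (p + 1 + d) (by omega)]
          simp
        · rw [decide_eq_false (by omega)]
          show some (!decide ((v 0).testBit (m - 1 - (p + 1 + d)) =
            (v 1).testBit (m - 1 - (p + 1 + d))), false, _) = _
          have hqt : q = t₁ := by rw [hq, max_eq_left h.le]
          rw [h₁.eq (p + 1 + d) (by omega)]
          simp
      · rcases le_total l (level n h (p + 1 + d)) with h | h
        · rw [max_eq_right h]
          exact Or.inr ⟨p + 1 + d, by omega, by omega, level_dvd _ _ _⟩
        · rw [max_eq_left h]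
          rcases hl2 with h2 | ⟨t, h3, h4, h5⟩
          · exact Or.inl h2
          · exact Or.inr ⟨t, h3, by omega, h5⟩
      · intro t h1 h2
        rcases Nat.lt_or_ge t (p + 1 + d) with h3 | h3
        · exact (hl3 t h1 h3).trans (Fin.le_def.1 (le_max_left _ _))
        · have : t = p + 1 + d := by omega
          rw [this]
          exact Fin.le_def.1 (le_max_right _ _)
  -- at the second split
  obtain ⟨l, hl1, hl2, hl3⟩ := C (q - (p + 1)) (by omega)
  rw [show p + 1 + (q - (p + 1)) = q by omega] at hl1 hl2 hl3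
  have D : run (step n h) none (top m) v (q + 1) =
      some (true, decide (t₁ < t₂), max l (level n h q)) := by
    show step n h q (run (step n h) none (top m) v q) _ = _
    rw [hl1]
    rcases lt_or_gt_of_ne hne with h | h
    · rw [decide_eq_true h]
      have hqt : q = t₂ := by rw [hq, max_eq_right h.le]
      show some (!decide ((v 1).testBit (m - 1 - q) = (v 2).testBit (m - 1 - q)), true, _) = _
      rw [hqt, h₂.left, h₂.right]
      simp
    · rw [decide_eq_false (by omega)]
      have hqt : q = t₁ := by rw [hq, max_eq_left h.le]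
      show some (!decide ((v 0).testBit (m - 1 - q) = (v 1).testBit (m - 1 - q)), false, _) = _
      rw [hqt, h₁.left, h₁.right]
      simp
  have E : ∀ d, run (step n h) none (top m) v (q + 1 + d) =
      some (true, decide (t₁ < t₂), max l (level n h q)) := by
    intro d
    induction d with
    | zero => exact D
    | succ d ih =>
      show step n h (q + 1 + d) (run (step n h) none (top m) v (q + 1 + d)) _ = _
      rw [ih]
      rfl
  refine ⟨max l (level n h q), ?_, ?_, ?_⟩
  · have := E (m - (q + 1))
    rwa [show q + 1 + (m - (q + 1)) = m by omega] at this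
  · rcases le_total l (level n h q) with h | h
    · rw [max_eq_right h]
      exact ⟨q, hpq, le_rfl, level_dvd _ _ _⟩
    · rw [max_eq_left h]
      rcases hl2 with h2 | ⟨t, h3, h4, h5⟩
      · exact ⟨q, hpq, le_rfl, by rw [h2, pow_zero]; exact one_dvd _⟩
      · exact ⟨t, h3, h4.le, h5⟩
  · intro t h1 h2
    rcases Nat.lt_or_ge t q with h3 | h3
    · exact (hl3 t h1 h3).trans (Fin.le_def.1 (le_max_left _ _))
    · have : t = q := by omega
      rw [this]
      exact Fin.le_def.1 (le_max_right _ _)

/-- the colour of a state -/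
def out (h : ℕ) : St h → Bool × Fin (h + 1)
  | none => (false, 0)
  | some (_, s, l) => (s, l)

/-- the colouring -/
def col (n h m : ℕ) (A : Finset ℕ) : Bool × Fin (h + 1) :=
  if hA : A.card = 3 then out h (run (step n h) none (top m) (A.orderEmbOfFin hA) m)
  else (false, 0)

theorem col_computed (n h m : ℕ) :
    Computed 3 m (St h) (col n h m) (step n h) none (top m) (out h) := by
  intro v hv _
  have hcard : (univ.image v).card = 3 := by
    rw [card_image_of_injective _ hv.injective, card_univ, Fintype.card_fin]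
  unfold col
  rw [dif_pos hcard]
  congr 2
  symm
  exact orderEmbOfFin_unique hcard (fun i => mem_image.2 ⟨i, mem_univ _, rfl⟩) hv

theorem col_triple {n h m a b c t₁ t₂ : ℕ} (hab : a < b) (hbc : b < c) (hc : c < 2 ^ m)
    (h₁ : Split m a b t₁) (h₂ : Split m b c t₂) {k : Bool × Fin (h + 1)}
    (hk : col n h m {a, b, c} = k) : k.1 = decide (t₁ < t₂) ∧
      (∃ t, min t₁ t₂ < t ∧ t ≤ max t₁ t₂ ∧ n ^ (k.2 : ℕ) ∣ t) ∧
      (∀ t, min t₁ t₂ < t → t ≤ max t₁ t₂ → (level n h t : ℕ) ≤ k.2) := by
  have hv : StrictMono ![a, b, c] := by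
    intro i j hij
    fin_cases i <;> fin_cases j <;> simp_all
    omega
  have h1 := col_computed n h m ![a, b, c] hv (by
    intro i
    fin_cases i
    · show a < 2 ^ m; omega
    · show b < 2 ^ m; omega
    · exact hc)
  have h2 : univ.image ![a, b, c] = {a, b, c} := by
    ext x
    simp only [mem_image, mem_univ, true_and, mem_insert, mem_singleton]
    constructor
    · rintro ⟨i, rfl⟩
      fin_cases i <;> simp
    · rintro (rfl | rfl | rfl)
      · exact ⟨0, rfl⟩
      · exact ⟨1, rfl⟩
      · exact ⟨2, rfl⟩
  rw [h2, hk] at h1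
  obtain ⟨e, he1, he2, he3⟩ := run_spec (n := n) (h := h) (m := m) (v := ![a, b, c]) h₁ h₂ rfl rfl
  rw [he1] at h1
  rw [h1]
  exact ⟨rfl, he2, he3⟩

theorem lower (n h : ℕ) (hn : 1 ≤ n) : ∀ S ⊆ range (2 ^ (n ^ (h + 1))), S.card = n + 2 →
    ¬ Homog 3 (col n h (n ^ (h + 1))) S := by
  classical
  intro S hS hSc hH
  set m := n ^ (h + 1) with hm
  have hSm : ∀ a ∈ S, a < 2 ^ m := fun a ha => mem_range.1 (hS ha)
  -- the common colour
  obtain ⟨A₀, hA₀, hA₀c⟩ := exists_subset_card_eq (s := S) (n := 3) (by omega)
  set k := col n h m A₀ with hk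
  have hcol : ∀ a ∈ S, ∀ b ∈ S, ∀ c ∈ S, a < b → b < c → col n h m {a, b, c} = k := by
    intro a ha b hb c hc hab hbc
    refine hH _ ?_ _ hA₀ ?_ hA₀c
    · intro x hx
      simp only [mem_insert, mem_singleton] at hx
      rcases hx with rfl | rfl | rfl <;> assumption
    · rw [card_eq_three]
      exact ⟨a, b, c, hab.ne, (hab.trans hbc).ne, hbc.ne, rfl⟩
  have hsp : ∀ a ∈ S, ∀ b ∈ S, a < b → ∃ t, Split m a b t :=
    fun a _ b hb hab => exists_split hab (hSm b hb)
  have hne : S.Nonempty := card_pos.1 (by omega)
  have hkh : (k.2 : ℕ) ≤ h := by have := k.2.2; omega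
  have hfin : ∀ (T : Finset ℕ) (d : ℕ → ℕ), T.card = n + 1 →
      (∀ a ∈ T, ∀ b ∈ T, a < b → d a / n ^ (k.2 : ℕ) % n ≠ d b / n ^ (k.2 : ℕ) % n) → False := by
    intro T d hT hd
    have h1 : (T.image (fun a => d a / n ^ (k.2 : ℕ) % n)).card = n + 1 := by
      rw [card_image_of_injOn, hT]
      intro a ha b hb hab
      by_contra hne
      rcases lt_or_gt_of_ne hne with h | h
      · exact hd a ha b hb h hab
      · exact hd b hb a ha h hab.symm
    have h2 : T.image (fun a => d a / n ^ (k.2 : ℕ) % n) ⊆ range n := by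
      intro x hx
      obtain ⟨a, -, rfl⟩ := mem_image.1 hx
      exact mem_range.2 (Nat.mod_lt _ (by omega))
    have h3 := card_le_card h2
    rw [h1, card_range] at h3
    omega
  cases hk1 : k.1 with
  | true =>
    set M := S.max' hne with hM
    have hMS : M ∈ S := S.max'_mem hne
    have hlt : ∀ a ∈ S.erase M, a ∈ S ∧ a < M := by
      intro a ha
      rw [mem_erase] at ha
      exact ⟨ha.2, lt_of_le_of_ne (S.le_max' a ha.2) ha.1⟩
    choose! d hd using fun a (ha : a ∈ S.erase M) => hsp a (hlt a ha).1 M hMS (hlt a ha).2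
    refine hfin (S.erase M) d (by rw [card_erase_of_mem hMS]; omega) ?_
    intro a ha b hb hab
    obtain ⟨haS, haM⟩ := hlt a ha
    obtain ⟨hbS, hbM⟩ := hlt b hb
    obtain ⟨t, ht⟩ := hsp a haS b hbS hab
    obtain ⟨h1, h2, h3⟩ := col_triple hab hbM (hSm M hMS) ht (hd b hb) (hcol a haS b hbS M hMS hab hbM)
    rw [hk1] at h1
    have htb : t < d b := by simpa using h1.symm
    have hta : d a = t := (hd a ha).unique (ht.trans_left (hd b hb) htb)
    rw [hta]
    rw [min_eq_left htb.le, max_eq_right htb.le] at h2 h3
    exact digit_ne (by omega) htb (hd b hb).lt hkh h2 h3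
  | false =>
    set M := S.min' hne with hM
    have hMS : M ∈ S := S.min'_mem hne
    have hlt : ∀ a ∈ S.erase M, a ∈ S ∧ M < a := by
      intro a ha
      rw [mem_erase] at ha
      exact ⟨ha.2, lt_of_le_of_ne (S.min'_le a ha.2) (Ne.symm ha.1)⟩
    choose! d hd using fun a (ha : a ∈ S.erase M) => hsp M hMS a (hlt a ha).1 (hlt a ha).2
    refine hfin (S.erase M) d (by rw [card_erase_of_mem hMS]; omega) ?_
    intro a ha b hb hab
    obtain ⟨haS, haM⟩ := hlt a ha
    obtain ⟨hbS, hbM⟩ := hlt b hb
    obtain ⟨t, ht⟩ := hsp a haS b hbS hab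
    obtain ⟨h1, h2, h3⟩ := col_triple haM hab (hSm b hbS) (hd a ha) ht (hcol M hMS a haS b hbS haM hab)
    rw [hk1] at h1
    have hne' := (hd a ha).ne ht
    have htb : t < d a := by
      have : ¬ d a < t := by simpa using h1.symm
      omega
    have hta : d b = t := (hd b hb).unique ((hd a ha).trans_right ht htb)
    rw [hta]
    rw [min_eq_right htb.le, max_eq_left htb.le] at h2 h3
    exact (digit_ne (by omega) htb (hd a ha).lt hkh h2 h3).symm

end Pool.Agent.H834Q
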