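import Pool.Agent.H834Q.Prog

/-! Upper bounds. -/

set_option autoImplicit false
open Finset

namespace Pool.Agent.H834Q

variable {Q : Type} {r : ℕ}

theorem tr_comp (δ : ℕ → Q → (Fin r → Bool) → Q) (l : ℕ) : ∀ p q s y, p < q → q < s →
    tr δ l q (s - q) (tr δ l p (q - p) y) = tr δ l p (s - p) y := by
  intro p q s y h1 h2
  have := tr_add δ l p (q - p) (s - q) y
  rw [show q - p + (s - q) = s - p by omega, show p + (q - p) = q by omega] at this
  exact this.symm

/-- the recursive bound -/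
def BB (w : ℕ) : ℕ → ℕ → ℕ
  | n, 0 => w * n
  | n, k + 1 => BB w ((n * (w + 1)) ^ w + 1) k

theorem BB_le {w : ℕ} (hw : 1 ≤ w) : ∀ (k n : ℕ), 1 ≤ n → BB w n k ≤ ((w + 1) * n) ^ ((w + 2) ^ k) := by
  intro k
  induction k with
  | zero =>
    intro n hn
    unfold BB
    rw [pow_zero, pow_one]
    exact Nat.mul_le_mul_right _ (by omega)
  | succ k ih =>
    intro n hn
    unfold BB
    refine (ih ((n * (w + 1)) ^ w + 1) (by omega)).trans ?_
    rw [show (w + 2) ^ (k + 1) = (w + 2) * (w + 2) ^ k by ring, pow_mul]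
    apply Nat.pow_le_pow_left
    have h1 : 2 ≤ n * (w + 1) := by nlinarith
    have h2 : 1 ≤ (n * (w + 1)) ^ w := Nat.one_le_pow _ _ (by omega)
    calc (w + 1) * ((n * (w + 1)) ^ w + 1) ≤ (n * (w + 1)) * ((n * (w + 1)) ^ w * 2) := by
          apply Nat.mul_le_mul
          · nlinarith
          · omega
      _ ≤ (n * (w + 1)) * ((n * (w + 1)) ^ w * (n * (w + 1))) := by
          apply Nat.mul_le_mul_left
          exact Nat.mul_le_mul_left _ h1
      _ = ((w + 1) * n) ^ (w + 2) := by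
          rw [mul_comm (w + 1) n]; ring

theorem exists_const [Fintype Q] (m : ℕ) (δ : ℕ → Q → (Fin r → Bool) → Q) (q₀ : Q) :
    ∀ (k n : ℕ) (P : Finset ℕ), BB (Fintype.card Q) n k ≤ P.card →
      ∃ P' ⊆ P, n ≤ P'.card ∧ ∃ x, Const r m Q δ q₀ P' x k := by
  classical
  intro k
  induction k with
  | zero =>
    intro n P hP
    obtain ⟨a, -, ha⟩ := exists_le_card_fiber_of_mul_le_card_of_maps_to
      (s := P) (t := (univ : Finset Q)) (f := fun p => tr δ 0 0 p q₀) (n := n)
      (fun _ _ => mem_univ _) ⟨q₀, mem_univ _⟩ (by rw [card_univ]; exact hP)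
    refine ⟨_, filter_subset _ _, ha, fun _ => a, ⟨fun p hp => (mem_filter.1 hp).2, ?_⟩⟩
    intro l hl
    exact absurd hl (Nat.not_lt_zero _)
  | succ k ih =>
    intro n P hP
    obtain ⟨P', h1, h2, x, hx⟩ := ih _ P hP
    obtain ⟨C, h3, h4, e, h5⟩ := merging_ramsey (fun p q y => tr δ (k + 1) p (q - p) y) (x k)
      (tr_comp δ (k + 1)) n P' (by omega)
    refine ⟨C, h3.trans h1, by omega, Function.update x (k + 1) e, ⟨?_, ?_⟩⟩
    · intro p hp
      rw [Function.update_of_ne (by omega)]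
      exact hx.zero p (h3 hp)
    · intro l hl p hp q hq hpq
      rw [Function.update_of_ne (show l ≠ k + 1 by omega)]
      rcases Nat.lt_or_ge l k with h | h
      · rw [Function.update_of_ne (show l + 1 ≠ k + 1 by omega)]
        exact hx.succ l h p (h3 hp) q (h3 hq) hpq
      · have : l = k := by omega
        subst this
        rw [Function.update_self]
        exact h5 p hp q hq hpq

theorem upper [Fintype Q] {w n m : ℕ} (hw : Fintype.card Q ≤ w)
    (hm : ((w + 1) ^ 2 * n) ^ ((w + 2) ^ r) ≤ m) {κ : Type} {c : Finset ℕ → κ}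
    {δ : ℕ → Q → (Fin (r + 1) → Bool) → Q} {q₀ : Q} {π : ℕ → ℕ} {g : Q → κ}
    (hπ : ∀ t < m, π t < m) (hinj : ∀ s < m, ∀ t < m, π s = π t → s = t)
    (hc : Computed (r + 1) m Q c δ q₀ π g) :
    ∃ S ⊆ range (2 ^ m), S.card = n ∧ Homog (r + 1) c S := by
  classical
  rcases Nat.eq_zero_or_pos n with h0 | hn
  · refine ⟨∅, empty_subset _, by rw [card_empty, h0], ?_⟩
    intro A hA B hB hAr
    rw [subset_empty.1 hA, card_empty] at hAr
    omega
  set v := Fintype.card Q with hv
  have hv1 : 1 ≤ v := Fintype.card_pos_iff.2 ⟨q₀⟩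
  have hb : BB v (v * n) r ≤ m + 1 := by
    refine (BB_le hv1 r (v * n) (Nat.mul_pos hv1 hn)).trans ?_
    have h1 : (v + 1) * (v * n) ≤ (w + 1) ^ 2 * n := by
      have : (v + 1) * v ≤ (w + 1) ^ 2 := by nlinarith
      calc (v + 1) * (v * n) = (v + 1) * v * n := by ring
        _ ≤ _ := Nat.mul_le_mul_right _ this
    have h2 : (v + 2) ^ r ≤ (w + 2) ^ r := Nat.pow_le_pow_left (by omega) r
    calc ((v + 1) * (v * n)) ^ ((v + 2) ^ r) ≤ ((w + 1) ^ 2 * n) ^ ((v + 2) ^ r) :=
          Nat.pow_le_pow_left h1 _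
      _ ≤ ((w + 1) ^ 2 * n) ^ ((w + 2) ^ r) :=
          Nat.pow_le_pow_right (Nat.mul_pos (by positivity) hn) h2
      _ ≤ m + 1 := by omega
  obtain ⟨P, hP, hPc, x, hx⟩ := exists_const m δ q₀ r (v * n) (range (m + 1))
    (by rw [card_range]; exact hb)
  obtain ⟨y, -, hy⟩ := exists_le_card_fiber_of_mul_le_card_of_maps_to
    (s := P) (t := (univ : Finset Q)) (f := fun p => tr δ (r + 1) p (m - p) (x r)) (n := n)
    (fun _ _ => mem_univ _) ⟨q₀, mem_univ _⟩ (by rw [card_univ]; exact hPc)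
  refine homog_of hπ hinj hc (P := P.filter (fun p => tr δ (r + 1) p (m - p) (x r) = y)) ?_ hy
    (x := x) (y := y) ⟨?_, ?_⟩ (fun p hp => (mem_filter.1 hp).2)
  · intro p hp
    have := mem_range.1 (hP (mem_filter.1 hp).1)
    omega
  · exact fun p hp => hx.zero p (mem_filter.1 hp).1
  · exact fun l hl p hp q hq => hx.succ l hl p (mem_filter.1 hp).1 q (mem_filter.1 hq).1

/-! ### uniform automata -/

theorem tr_const (δ : Q → (Fin r → Bool) → Q) (l p d : ℕ) (x : Q) :
    tr (fun _ => δ) l p d x = (fun y => δ y (lett r l))^[d] x := by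
  induction d with
  | zero => rfl
  | succ d ih =>
    rw [Function.iterate_succ_apply']
    show δ (tr (fun _ => δ) l p d x) (lett r l) = _
    rw [ih]

theorem iterate_factorial [Fintype Q] {w : ℕ} (hw : Fintype.card Q ≤ w) (g : Q → Q) (x : Q)
    {k : ℕ} (hk : w ≤ k) : g^[k + w.factorial] x = g^[k] x := by
  classical
  obtain ⟨i, hi, j, hj, hij, h⟩ : ∃ i ∈ range (w + 1), ∃ j ∈ range (w + 1), i < j ∧
      g^[i] x = g^[j] x := by
    obtain ⟨i, hi, j, hj, hij, h⟩ := exists_ne_map_eq_of_card_lt_of_maps_to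
      (s := range (w + 1)) (t := (univ : Finset Q)) (f := fun i => g^[i] x)
      (by rw [card_range, card_univ]; omega) (fun _ _ => mem_univ _)
    rcases lt_or_gt_of_ne hij with h1 | h1
    · exact ⟨i, hi, j, hj, h1, h⟩
    · exact ⟨j, hj, i, hi, h1, h.symm⟩
  rw [mem_range] at hi hj
  have hper : ∀ t, i ≤ t → g^[t + (j - i)] x = g^[t] x := by
    intro t ht
    obtain ⟨d, rfl⟩ := Nat.exists_eq_add_of_le ht
    rw [show i + d + (j - i) = d + j by omega, show i + d = d + i by omega,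
      Function.iterate_add_apply, Function.iterate_add_apply, ← h]
  have hper2 : ∀ a t, i ≤ t → g^[t + a * (j - i)] x = g^[t] x := by
    intro a
    induction a with
    | zero => intro t _; rw [zero_mul, add_zero]
    | succ a ih =>
      intro t ht
      rw [show t + (a + 1) * (j - i) = t + a * (j - i) + (j - i) by ring,
        hper _ (by omega), ih t ht]
  obtain ⟨a, ha⟩ : (j - i) ∣ w.factorial := Nat.dvd_factorial (by omega) (by omega)
  rw [ha, mul_comm]
  exact hper2 a k (by omega)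

theorem iterate_factorial' [Fintype Q] {w : ℕ} (hw : Fintype.card Q ≤ w) (g : Q → Q) (x : Q)
    {k : ℕ} (hk : w ≤ k) (a : ℕ) : g^[k + a * w.factorial] x = g^[k] x := by
  induction a with
  | zero => rw [zero_mul, add_zero]
  | succ a ih =>
    rw [show k + (a + 1) * w.factorial = k + a * w.factorial + w.factorial by ring,
      iterate_factorial hw g x (by omega), ih]

theorem upper_uniform [Fintype Q] {w n m : ℕ} (hw : Fintype.card Q ≤ w)
    (hm : (n + 1) * w.factorial ≤ m) {κ : Type} {c : Finset ℕ → κ}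
    {δ : Q → (Fin (r + 1) → Bool) → Q} {q₀ : Q} {π : ℕ → ℕ} {g : Q → κ}
    (hπ : ∀ t < m, π t < m) (hinj : ∀ s < m, ∀ t < m, π s = π t → s = t)
    (hc : Computed (r + 1) m Q c (fun _ => δ) q₀ π g) :
    ∃ S ⊆ range (2 ^ m), S.card = n ∧ Homog (r + 1) c S := by
  classical
  have hwf : w ≤ w.factorial := Nat.self_le_factorial w
  have hfp : 0 < w.factorial := Nat.factorial_pos w
  set f := w.factorial with hf
  obtain ⟨x, hx0, hx⟩ : ∃ x : ℕ → Q, x 0 = (fun y => δ y (lett (r + 1) 0))^[f] q₀ ∧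
      ∀ l, x (l + 1) = (fun y => δ y (lett (r + 1) (l + 1)))^[f] (x l) :=
    ⟨fun l => Nat.rec ((fun y => δ y (lett (r + 1) 0))^[f] q₀)
      (fun l z => (fun y => δ y (lett (r + 1) (l + 1)))^[f] z) l, rfl, fun l => rfl⟩
  have hmul : ∀ (g : Q → Q) (z : Q) (a : ℕ), 1 ≤ a → g^[a * f] z = g^[f] z := by
    intro g z a ha
    obtain ⟨b, rfl⟩ := Nat.exists_eq_add_of_le ha
    rw [show (1 + b) * f = f + b * f by ring]
    exact iterate_factorial' hw g z hwf b
  refine homog_of hπ hinj hc (P := (range n).image (fun a => (a + 1) * f)) ?_ ?_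
    (x := x) (y := (fun y => δ y (lett (r + 1) (r + 1)))^[m - n * f] (x r)) ⟨?_, ?_⟩ ?_
  · intro p hp
    obtain ⟨a, ha, rfl⟩ := mem_image.1 hp
    have ha := mem_range.1 ha
    calc (a + 1) * f ≤ (n + 1) * f := Nat.mul_le_mul_right _ (by omega)
      _ ≤ m := hm
  · rw [card_image_of_injective, card_range]
    intro a b h
    have := Nat.eq_of_mul_eq_mul_right hfp h
    omega
  · intro p hp
    obtain ⟨a, -, rfl⟩ := mem_image.1 hp
    rw [tr_const, hx0]
    exact hmul _ _ _ (by omega)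
  · intro l _ p hp q hq hpq
    obtain ⟨a, -, rfl⟩ := mem_image.1 hp
    obtain ⟨b, -, rfl⟩ := mem_image.1 hq
    rw [tr_const, hx, show (b + 1) * f - (a + 1) * f = (b - a) * f by
      rw [← Nat.sub_mul]; congr 1; omega]
    have hab : a < b := by
      by_contra hcon
      exact absurd hpq (not_lt.2 (Nat.mul_le_mul_right _ (by omega)))
    exact hmul _ _ _ (by omega)
  · intro p hp
    obtain ⟨a, ha, rfl⟩ := mem_image.1 hp
    have ha := mem_range.1 ha
    rw [tr_const]
    have h1 : (a + 1) * f ≤ n * f := Nat.mul_le_mul_right _ (by omega)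
    have h2 : (n + 1) * f = n * f + f := by ring
    have h3 : m - (a + 1) * f = (m - n * f) + (n - (a + 1)) * f := by
      rw [Nat.sub_mul]; omega
    rw [h3]
    exact iterate_factorial' hw _ _ (by omega) _

end Pool.Agent.H834Q
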