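import Pool.Agent.H834Q.Core
import Pool.Agent.H834Q.Upper
import Pool.Agent.H834Q.Lower
import Pool.Agent.H834Q.AddRamsey

/-! Graphs computed with bounded memory. -/

set_option autoImplicit false
open Finset MulOpposite

namespace Pool.Agent.H834Q

variable {Q : Type} {r : ℕ}

/-- reading `d` times the letter `x` from time `p` on -/
def trx (δ : ℕ → Q → (Fin r → Bool) → Q) (x : Fin r → Bool) (p : ℕ) : ℕ → Q → Q
  | 0 => id
  | d + 1 => fun y => δ (p + d) (trx δ x p d y) x

theorem trx_add (δ : ℕ → Q → (Fin r → Bool) → Q) (x : Fin r → Bool) (p d d' : ℕ) (y : Q) :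
    trx δ x p (d + d') y = trx δ x (p + d) d' (trx δ x p d y) := by
  induction d' with
  | zero => rfl
  | succ d' ih =>
    show δ (p + (d + d')) (trx δ x p (d + d') y) x =
      δ (p + d + d') (trx δ x (p + d) d' (trx δ x p d y)) x
    rw [ih, add_assoc]

theorem run_trx {δ : ℕ → Q → (Fin r → Bool) → Q} {q₀ : Q} {π : ℕ → ℕ} {v : Fin r → ℕ}
    {x : Fin r → Bool} {p q : ℕ} (hpq : p ≤ q)
    (h : ∀ t, p ≤ t → t < q → (fun i => (v i).testBit (π t)) = x) :
    run δ q₀ π v q = trx δ x p (q - p) (run δ q₀ π v p) := by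
  obtain ⟨d, rfl⟩ := Nat.exists_eq_add_of_le hpq
  rw [Nat.add_sub_cancel_left]
  clear hpq
  induction d with
  | zero => rfl
  | succ d ih =>
    show δ (p + d) (run δ q₀ π v (p + d)) (fun i => (v i).testBit (π (p + d))) =
      δ (p + d) (trx δ x p d (run δ q₀ π v p)) x
    rw [ih (fun t h1 h2 => h t h1 (by omega)), h (p + d) (by omega) (by omega)]

open Classical in
/-- the vertex with given digits in reading order -/
noncomputable def vtx (π : ℕ → ℕ) (m : ℕ) (β : ℕ → Bool) : ℕ :=
  Nat.ofBits (fun j : Fin m => decide (∃ t, t < m ∧ π t = j ∧ β t = true))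

theorem vtx_lt (π : ℕ → ℕ) (m : ℕ) (β : ℕ → Bool) : vtx π m β < 2 ^ m := Nat.ofBits_lt_two_pow _

open Classical in
theorem vtx_bit {π : ℕ → ℕ} {m t : ℕ} (β : ℕ → Bool) (hπ : ∀ t < m, π t < m)
    (hinj : ∀ s < m, ∀ t < m, π s = π t → s = t) (ht : t < m) :
    (vtx π m β).testBit (π t) = β t := by
  unfold vtx
  rw [Nat.testBit_ofBits_lt _ _ (hπ t ht)]
  cases hb : β t with
  | true =>
    rw [decide_eq_true_eq]
    exact ⟨t, ht, rfl, hb⟩
  | false =>
    rw [decide_eq_false_iff_not]
    rintro ⟨s, h1, h2, h3⟩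
    have := hinj s h1 t ht h2
    rw [this, hb] at h3
    exact absurd h3 (by decide)

open Classical in
/-- the digits of a word written on segments -/
noncomputable def bet (p : ℕ → ℕ) (X : List Bool) (t : ℕ) : Bool :=
  decide (∃ i, i < X.length ∧ p i ≤ t ∧ t < p (i + 1) ∧ X.getD i false = true)

theorem p_mono {p : ℕ → ℕ} {K : ℕ} (hp : ∀ i < K, p i < p (i + 1)) :
    ∀ i j, i ≤ j → j ≤ K → p i ≤ p j := by
  intro i j hij
  obtain ⟨d, rfl⟩ := Nat.exists_eq_add_of_le hij
  clear hij
  induction d with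
  | zero => intro _; exact le_rfl
  | succ d ih =>
    intro h
    have h1 := ih (by omega)
    have h2 := hp (i + d) (by omega)
    rw [show i + (d + 1) = i + d + 1 by ring]
    omega

open Classical in
theorem bet_seg {p : ℕ → ℕ} {K : ℕ} (hp : ∀ i < K, p i < p (i + 1)) {X : List Bool}
    (hX : X.length = K) {i t : ℕ} (hi : i < K) (h1 : p i ≤ t) (h2 : t < p (i + 1)) :
    bet p X t = X.getD i false := by
  unfold bet
  cases hb : X.getD i false with
  | true =>
    rw [decide_eq_true_eq]
    exact ⟨i, by omega, h1, h2, hb⟩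
  | false =>
    rw [decide_eq_false_iff_not]
    rintro ⟨j, h3, h4, h5, h6⟩
    rcases Nat.lt_trichotomy i j with h | h | h
    · have := p_mono hp (i + 1) j h (by omega)
      omega
    · rw [← h, hb] at h6
      exact absurd h6 (by decide)
    · have := p_mono hp (j + 1) i h (by omega)
      omega

open Classical in
theorem bet_out {p : ℕ → ℕ} {K : ℕ} (hp : ∀ i < K, p i < p (i + 1)) {X : List Bool}
    (hX : X.length = K) {t : ℕ} (h : t < p 0 ∨ p K ≤ t) : bet p X t = false := by
  unfold bet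
  rw [decide_eq_false_iff_not]
  rintro ⟨j, h3, h4, h5, h6⟩
  have h7 := p_mono hp 0 j (Nat.zero_le _) (by omega)
  have h8 := p_mono hp (j + 1) K (by omega) le_rfl
  omega

/-- the run of the machine on a pair of words written on segments -/
theorem run_word {δ : ℕ → Q → (Fin 2 → Bool) → Q} {q₀ : Q} {π : ℕ → ℕ} {m K : ℕ}
    (hπ : ∀ t < m, π t < m) (hinj : ∀ s < m, ∀ t < m, π s = π t → s = t)
    {p : ℕ → ℕ} (hp : ∀ i < K, p i < p (i + 1)) (hpm : p K ≤ m)
    {E : Bool → Bool → (Function.End Q)ᵐᵒᵖ}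
    (hE : ∀ i < K, ∀ a b y, trx δ ![a, b] (p i) (p (i + 1) - p i) y = (E a b).unop y)
    {X Y : List Bool} (hX : X.length = K) (hY : Y.length = K) :
    run δ q₀ π ![vtx π m (bet p X), vtx π m (bet p Y)] m =
      trx δ ![false, false] (p K) (m - p K)
        ((F E X Y).unop (trx δ ![false, false] 0 (p 0) q₀)) := by
  set v : Fin 2 → ℕ := ![vtx π m (bet p X), vtx π m (bet p Y)] with hv
  have hlet : ∀ t < m, (fun i => (v i).testBit (π t)) = ![bet p X t, bet p Y t] := by
    intro t ht
    funext i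
    fin_cases i
    · exact vtx_bit _ hπ hinj ht
    · exact vtx_bit _ hπ hinj ht
  have h0K := p_mono hp 0 K (Nat.zero_le _) le_rfl
  have h0 : run δ q₀ π v (p 0) = trx δ ![false, false] 0 (p 0) q₀ := by
    rw [run_trx (p := 0) (q := p 0) (x := ![false, false]) (Nat.zero_le _) (fun t _ h2 => by
      rw [hlet t (by omega), bet_out hp hX (Or.inl h2), bet_out hp hY (Or.inl h2)]), Nat.sub_zero]
    rfl
  have hmid : ∀ (A B : List Bool) (i : ℕ), A.length = B.length → i + A.length = K →
      (∀ j < A.length, X.getD (i + j) false = A.getD j false ∧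
        Y.getD (i + j) false = B.getD j false) →
      run δ q₀ π v (p K) = (F E A B).unop (run δ q₀ π v (p i)) := by
    intro A
    induction A with
    | nil =>
      intro B i hAB hi _
      have : B = [] := List.length_eq_zero_iff.1 hAB.symm
      subst this
      have : i = K := by simpa using hi
      subst this
      rfl
    | cons a A ih =>
      intro B i hAB hi hXY
      cases B with
      | nil => simp at hAB
      | cons b B =>
        have hAB' : A.length = B.length := by simpa using hAB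
        rw [List.length_cons] at hi
        have h1 := hXY 0 (by simp)
        have h2 : run δ q₀ π v (p (i + 1)) = (E a b).unop (run δ q₀ π v (p i)) := by
          rw [← hE i (by omega)]
          apply run_trx (hp i (by omega)).le
          intro t h3 h4
          have h5 := p_mono hp (i + 1) K (by omega) le_rfl
          rw [hlet t (by omega), bet_seg hp hX (by omega) h3 h4, bet_seg hp hY (by omega) h3 h4]
          simp only [Nat.add_zero] at h1
          rw [h1.1, h1.2]
          rfl
        rw [ih B (i + 1) hAB' (by omega) (by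
          intro j hj
          have := hXY (j + 1) (by simp; omega)
          rw [show i + 1 + j = i + (j + 1) by ring]
          simpa using this), h2]
        show (F E A B).unop ((E a b).unop _) = (E a b * F E A B).unop _
        rw [unop_mul]
        rfl
  rw [run_trx (p := p K) (q := m) (x := ![false, false]) hpm (fun t h1 h2 => by
    rw [hlet t h2, bet_out hp hX (Or.inr h1), bet_out hp hY (Or.inr h1)]),
    hmid X Y 0 (by rw [hX, hY]) (by rw [zero_add, hX]) (fun j _ => by rw [zero_add]; exact ⟨rfl, rfl⟩),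
    h0]

/-- the binary word of length `k` of a number, the first letter being the most significant one -/
def wd (k z : ℕ) : List Bool := List.ofFn (fun j : Fin k => z.testBit (k - 1 - j))

theorem wd_length (k z : ℕ) : (wd k z).length = k := List.length_ofFn

theorem wd_getElem (k z i : ℕ) (h : i < (wd k z).length) : (wd k z)[i] = z.testBit (k - 1 - i) := by
  simp only [wd, List.getElem_ofFn]

theorem wd_split {k z z' t : ℕ} (h : Split k z z' t) : ∃ P R R' : List Bool,
    P.length + 1 + R.length = k ∧ R.length = R'.length ∧ wd k z = P ++ false :: R ∧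
      wd k z' = P ++ true :: R' := by
  have ht := h.lt
  have hl : t < (wd k z).length := by rw [wd_length]; exact ht
  have hl' : t < (wd k z').length := by rw [wd_length]; exact ht
  refine ⟨(wd k z).take t, (wd k z).drop (t + 1), (wd k z').drop (t + 1), ?_, ?_, ?_, ?_⟩
  · rw [List.length_take, List.length_drop, wd_length]; omega
  · rw [List.length_drop, List.length_drop, wd_length, wd_length]
  · have h1 : (wd k z)[t] = false := by
      rw [wd_getElem]; exact h.left
    have h2 := List.getElem_cons_drop (as := wd k z) (i := t) (h := hl)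
    rw [h1] at h2
    rw [h2, List.take_append_drop]
  · have h1 : (wd k z')[t] = true := by
      rw [wd_getElem]; exact h.right
    have h2 := List.getElem_cons_drop (as := wd k z') (i := t) (h := hl')
    rw [h1] at h2
    have h3 : (wd k z).take t = (wd k z').take t := by
      apply List.ext_getElem
      · rw [List.length_take, List.length_take, wd_length, wd_length]
      · intro i h4 h5
        rw [List.getElem_take, List.getElem_take, wd_getElem, wd_getElem]
        rw [List.length_take] at h4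
        exact h.eq i (by omega)
    rw [h2, h3, List.take_append_drop]

theorem strictMono_pair {a b : ℕ} (hab : a < b) : StrictMono ![a, b] := by
  intro i j hij
  have hi : i = 0 := by
    by_contra h
    have h1 : (i : ℕ) ≠ 0 := fun h2 => h (Fin.ext h2)
    have h3 : (i : ℕ) < j := hij
    have := j.2
    omega
  have hj : j = 1 := by
    have h3 : (i : ℕ) < j := hij
    have := j.2
    apply Fin.ext
    show (j : ℕ) = 1
    omega
  subst hi hj
  exact hab

theorem col_pair {κ : Type} {c : Finset ℕ → κ} {g : Q → κ}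
    {δ : ℕ → Q → (Fin 2 → Bool) → Q} {q₀ : Q} {π : ℕ → ℕ} {m : ℕ}
    (hc : Computed 2 m Q c δ q₀ π g) {a b : ℕ} (hab : a < b) (hb : b < 2 ^ m) :
    c {a, b} = g (run δ q₀ π ![a, b] m) := by
  rw [← hc ![a, b] (strictMono_pair hab) (by
    intro i
    fin_cases i
    · exact hab.trans hb
    · exact hb)]
  congr 1
  ext x
  simp only [mem_insert, mem_singleton, mem_image, mem_univ, true_and]
  constructor
  · rintro (rfl | rfl)
    · exact ⟨0, rfl⟩
    · exact ⟨1, rfl⟩
  · rintro ⟨i, rfl⟩
    fin_cases i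
    · exact Or.inl rfl
    · exact Or.inr rfl

theorem graph_core {κ : Type} {c : Finset ℕ → κ} {g : Q → κ}
    {δ : ℕ → Q → (Fin 2 → Bool) → Q} {q₀ : Q} {π : ℕ → ℕ} {m K k n : ℕ}
    (hπ : ∀ t < m, π t < m) (hinj : ∀ s < m, ∀ t < m, π s = π t → s = t)
    (hc : Computed 2 m Q c δ q₀ π g)
    {p : ℕ → ℕ} (hp : ∀ i < K, p i < p (i + 1)) (hpm : p K ≤ m)
    {E : Bool → Bool → (Function.End Q)ᵐᵒᵖ}
    (hE : ∀ i < K, ∀ a b y, trx δ ![a, b] (p i) (p (i + 1) - p i) y = (E a b).unop y)
    {Φ Ψ : (Function.End Q)ᵐᵒᵖ} (hcode : HasCode E k K Φ Ψ)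
    (hn : n * n < 2 ^ k) :
    ∃ S ⊆ range (2 ^ m), S.card = n + 1 ∧ Homog 2 c S := by
  classical
  obtain ⟨code, hc1, hc2, hc3⟩ := hcode
  set V : ℕ → ℕ := fun z => vtx π m (bet p (code (wd k z))) with hV
  have hclen : ∀ z, (code (wd k z)).length = K := fun z => hc1 _ (wd_length k z)
  -- runs
  obtain ⟨s₁, s₂, hrun⟩ : ∃ s₁ s₂ : Q, ∀ z z', z < z' → z' < 2 ^ k →
      run δ q₀ π ![V z, V z'] m = s₁ ∧ run δ q₀ π ![V z', V z] m = s₂ := by
    refine ⟨trx δ ![false, false] (p K) (m - p K)
        (Φ.unop (trx δ ![false, false] 0 (p 0) q₀)), trx δ ![false, false] (p K) (m - p K)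
        (Ψ.unop (trx δ ![false, false] 0 (p 0) q₀)), ?_⟩
    intro z z' h1 h2
    obtain ⟨t, ht⟩ := exists_split h1 h2
    obtain ⟨P, R, R', h3, h4, h5, h6⟩ := wd_split ht
    obtain ⟨h7, h8⟩ := hc3 P R R' h3 h4
    rw [← h5, ← h6] at h7 h8
    rw [run_word hπ hinj hp hpm hE (hclen z) (hclen z'), h7,
      run_word hπ hinj hp hpm hE (hclen z') (hclen z), h8]
    exact ⟨rfl, rfl⟩
  -- injectivity
  have hVne : ∀ z z', z < z' → z' < 2 ^ k → V z ≠ V z' := by
    intro z z' h1 h2 he
    obtain ⟨t, ht⟩ := exists_split h1 h2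
    obtain ⟨P, R, R', h3, h4, h5, h6⟩ := wd_split ht
    have h7 : code (wd k z) = code (wd k z') := by
      apply List.ext_getElem
      · rw [hclen, hclen]
      · intro i hi hi'
        rw [hclen] at hi
        have hpi := hp i hi
        have h8 := p_mono hp (i + 1) K (by omega) le_rfl
        have b1 := vtx_bit (bet p (code (wd k z))) hπ hinj (show p i < m by omega)
        have b2 := vtx_bit (bet p (code (wd k z'))) hπ hinj (show p i < m by omega)
        have he' : vtx π m (bet p (code (wd k z))) = vtx π m (bet p (code (wd k z'))) := he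
        rw [he', b2, bet_seg hp (hclen z) hi le_rfl hpi, bet_seg hp (hclen z') hi le_rfl hpi,
          List.getD_eq_getElem _ _ (by rw [hclen]; exact hi),
          List.getD_eq_getElem _ _ (by rw [hclen]; exact hi)] at b1
        exact b1.symm
    have h8 := hc2 _ _ (wd_length k z) (wd_length k z') h7
    rw [h5, h6] at h8
    have h9 := (List.append_inj h8 rfl).2
    simp at h9
  -- the order
  have hdiff : ∀ S' ⊆ range (2 ^ k), S'.card = n + 1 → ∀ K' : κ,
      (∀ z ∈ S', ∀ z' ∈ S', z < z' → c {V z, V z'} = K') →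
      ∃ S ⊆ range (2 ^ m), S.card = n + 1 ∧ Homog 2 c S := by
    intro S' hS' hcard K' hK'
    have hinjV : Set.InjOn V S' := by
      intro z hz z' hz' h
      by_contra hne
      rcases lt_or_gt_of_ne hne with h1 | h1
      · exact hVne z z' h1 (mem_range.1 (hS' hz')) h
      · exact hVne z' z h1 (mem_range.1 (hS' hz)) h.symm
    refine ⟨S'.image V, ?_, by rw [card_image_of_injOn hinjV, hcard], ?_⟩
    · intro x hx
      obtain ⟨z, -, rfl⟩ := mem_image.1 hx
      exact mem_range.2 (vtx_lt _ _ _)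
    · have key : ∀ A ⊆ S'.image V, A.card = 2 → c A = K' := by
        intro A hA hA2
        obtain ⟨x, y, hxy, rfl⟩ := card_eq_two.1 hA2
        obtain ⟨z, hz, rfl⟩ := mem_image.1 (hA (mem_insert_self x {y}))
        obtain ⟨z', hz', rfl⟩ := mem_image.1 (hA (mem_insert_of_mem (mem_singleton_self y)))
        have hne : z ≠ z' := fun h => hxy (by rw [h])
        rcases lt_or_gt_of_ne hne with h1 | h1
        · exact hK' z hz z' hz' h1
        · rw [pair_comm]
          exact hK' z' hz' z hz h1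
      intro A hA B hB hA2 hB2
      rw [key A hA hA2, key B hB hB2]
  have hcol := fun a b h h' => col_pair hc (a := a) (b := b) h h'
  rcases mirsky (R := fun z z' => z < z' ∧ V z < V z') (fun z z' h => h.1)
    (fun x y z h1 h2 => ⟨h1.1.trans h2.1, h1.2.trans h2.2⟩) n n (range (2 ^ k))
    (by rw [card_range]; exact hn) with h | h
  · obtain ⟨C, h1, h2, h3⟩ := h
    refine hdiff C h1 h2 (g s₁) ?_
    intro z hz z' hz' hlt
    rw [hcol _ _ (h3 z hz z' hz' hlt).2 (vtx_lt _ _ _),
      (hrun z z' hlt (mem_range.1 (h1 hz'))).1]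
  · obtain ⟨A, h1, h2, h3⟩ := h
    obtain ⟨C, hC, hCc⟩ := exists_subset_card_eq (s := A) (n := n + 1) h2
    refine hdiff C (hC.trans h1) hCc (g s₂) ?_
    intro z hz z' hz' hlt
    have hz'k := mem_range.1 (h1 (hC hz'))
    have h4 : V z' < V z := by
      rcases lt_or_gt_of_ne (hVne z z' hlt hz'k) with h5 | h5
      · exact absurd ⟨hlt, h5⟩ (h3 z (hC hz) z' (hC hz'))
      · exact h5
    rw [pair_comm, hcol _ _ h4 (vtx_lt _ _ _), (hrun z z' hlt hz'k).2]

/-! ### the monoid of transformations -/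

theorem end_pow (g : Function.End Q) (n : ℕ) (y : Q) : (g ^ n : Function.End Q) y =
    Nat.iterate (g : Q → Q) n y := by
  induction n with
  | zero => rfl
  | succ n ih =>
    rw [pow_succ']
    exact (congrArg (g : Q → Q) ih).trans (Function.iterate_succ_apply' (g : Q → Q) n y).symm

/-- the constant -/
def CC (w : ℕ) : ℕ := 12 * w ^ 2 * w.factorial ^ 4

theorem exists_code_end [Fintype Q] {w : ℕ} (hw1 : 1 ≤ w) (hw : Fintype.card Q ≤ w)
    (E : Bool → Bool → (Function.End Q)ᵐᵒᵖ) (k : ℕ) :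
    ∃ Φ Ψ : (Function.End Q)ᵐᵒᵖ, HasCode E k (CC w * k) Φ Ψ := by
  classical
  have hf₀ : Fintype (Function.End Q) := (inferInstance : Fintype (Q → Q))
  have hf : Fintype (Function.End Q)ᵐᵒᵖ := Fintype.ofEquiv _ (MulOpposite.opEquiv (α := Function.End Q))
  have hcard : Fintype.card (Function.End Q)ᵐᵒᵖ < 2 ^ (w ^ 2) := by
    have h1 : Fintype.card (Function.End Q)ᵐᵒᵖ = Fintype.card (Q → Q) :=
      Fintype.card_congr (MulOpposite.opEquiv (α := Function.End Q)).symm
    rw [h1, Fintype.card_fun]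
    calc Fintype.card Q ^ Fintype.card Q ≤ w ^ Fintype.card Q := Nat.pow_le_pow_left hw _
      _ ≤ w ^ w := Nat.pow_le_pow_right hw1 hw
      _ < (2 ^ w) ^ w := Nat.pow_lt_pow_left (Nat.lt_two_pow_self) (by omega)
      _ = 2 ^ (w ^ 2) := by rw [← pow_mul, sq]
  obtain ⟨Φ, Ψ, h⟩ := exists_code E (w := w) (ω := w.factorial) (Nat.factorial_pos w)
    (Nat.self_le_factorial w) (by
      intro x k hk
      apply MulOpposite.unop_injective
      rw [MulOpposite.unop_pow, MulOpposite.unop_pow]
      funext y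
      rw [end_pow, end_pow]
      exact iterate_factorial hw _ y hk) hcard k
  refine ⟨Φ, Ψ, ?_⟩
  have he : CC w * k = w ^ 2 * (w.factorial * (3 * (w.factorial * (w.factorial * 2 *
      (2 * w.factorial * k))))) := by
    unfold CC; ring
  rw [he]
  exact h

/-- finite automata -/
theorem graph_uniform [Fintype Q] {κ : Type} {c : Finset ℕ → κ} {g : Q → κ}
    {δ : Q → (Fin 2 → Bool) → Q} {q₀ : Q} {π : ℕ → ℕ} {m n w : ℕ}
    (hw : Fintype.card Q ≤ w)
    (hπ : ∀ t < m, π t < m) (hinj : ∀ s < m, ∀ t < m, π s = π t → s = t)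
    (hc : Computed 2 m Q c (fun _ => δ) q₀ π g) (hn : 1 ≤ n)
    (hm : 2 * CC w * Nat.clog 2 n ≤ m) :
    ∃ S ⊆ range (2 ^ m), S.card = n ∧ Homog 2 c S := by
  have hw1 : 1 ≤ w := (Fintype.card_pos_iff.2 ⟨q₀⟩).trans_le hw
  obtain ⟨Φ, Ψ, hcode⟩ := exists_code_end hw1 hw (fun a b => op (fun y => δ y ![a, b]))
    (2 * Nat.clog 2 n)
  have hlog : n ≤ 2 ^ Nat.clog 2 n := Nat.le_pow_clog (by norm_num) n
  obtain ⟨j, rfl⟩ : ∃ j, n = j + 1 := ⟨n - 1, by omega⟩
  refine graph_core hπ hinj hc (p := fun i => i) (K := CC w * (2 * Nat.clog 2 (j + 1)))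
    (fun i _ => Nat.lt_succ_self i) ?_ ?_ hcode ?_
  · calc CC w * (2 * Nat.clog 2 (j + 1)) = 2 * CC w * Nat.clog 2 (j + 1) := by ring
      _ ≤ m := hm
  · intro i _ a b y
    rw [Nat.add_sub_cancel_left]
    rfl
  · calc j * j < 2 ^ Nat.clog 2 (j + 1) * 2 ^ Nat.clog 2 (j + 1) :=
        Nat.mul_lt_mul_of_lt_of_le (by omega) (by omega) (by positivity)
      _ = 2 ^ (2 * Nat.clog 2 (j + 1)) := by rw [← pow_add]; congr 1; ring

/-- machines with time-dependent transitions -/
theorem graph_nonuniform [Fintype Q] {κ : Type} {c : Finset ℕ → κ} {g : Q → κ}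
    {δ : ℕ → Q → (Fin 2 → Bool) → Q} {q₀ : Q} {π : ℕ → ℕ} {m n w : ℕ}
    (hw : Fintype.card Q ≤ w)
    (hπ : ∀ t < m, π t < m) (hinj : ∀ s < m, ∀ t < m, π s = π t → s = t)
    (hc : Computed 2 m Q c δ q₀ π g) (hn : 2 ≤ n)
    (hm : NN (2 * CC w * Nat.clog 2 n + 1) (w ^ (4 * w)) ≤ m + 1) :
    ∃ S ⊆ range (2 ^ m), S.card = n ∧ Homog 2 c S := by
  classical
  have hw1 : 1 ≤ w := (Fintype.card_pos_iff.2 ⟨q₀⟩).trans_le hw
  have hlog : n ≤ 2 ^ Nat.clog 2 n := Nat.le_pow_clog (by norm_num) n
  have hlog1 : 1 ≤ Nat.clog 2 n := Nat.clog_pos (by norm_num) hn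
  have hCC : 1 ≤ CC w := by
    unfold CC
    have := Nat.factorial_pos w
    have h1 : 0 < 12 * w ^ 2 * w.factorial ^ 4 := by positivity
    omega
  set K := 2 * CC w * Nat.clog 2 n with hK
  have hK1 : 1 ≤ K := by
    have : 0 < 2 * CC w * Nat.clog 2 n := by positivity
    omega
  obtain ⟨P, hPr, hPc, e, he⟩ := additive_ramsey (M := Bool → Bool → Q → Q)
    (fun u v a b y => v a b (u a b y)) (fun p q a b y => trx δ ![a, b] p (q - p) y)
    (by
      intro p q s h1 h2
      funext a b y
      simp only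
      have := trx_add δ ![a, b] p (q - p) (s - q) y
      rw [show q - p + (s - q) = s - p by omega, show p + (q - p) = q by omega] at this
      exact this.symm) (n := K + 1) (by omega) (w ^ (4 * w)) univ (by
      rw [card_univ, Fintype.card_fun, Fintype.card_fun, Fintype.card_fun, Fintype.card_bool]
      calc ((Fintype.card Q ^ Fintype.card Q) ^ 2) ^ 2 = Fintype.card Q ^ (4 * Fintype.card Q) := by
            rw [← pow_mul, ← pow_mul]; congr 1; ring
        _ ≤ w ^ (4 * Fintype.card Q) := Nat.pow_le_pow_left hw _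
        _ ≤ w ^ (4 * w) := Nat.pow_le_pow_right hw1 (by omega))
    (range (m + 1)) (fun _ _ _ _ _ => mem_univ _) (by rw [card_range]; exact hm)
  -- cut points
  obtain ⟨p, hp⟩ : ∃ p : ℕ → ℕ, p = fun i => if h : i < K + 1 then P.orderEmbOfFin hPc ⟨i, h⟩
      else 0 := ⟨_, rfl⟩
  have hpi : ∀ i, (h : i < K + 1) → p i = P.orderEmbOfFin hPc ⟨i, h⟩ := by
    intro i h; rw [hp]; simp only; rw [dif_pos h]
  have hpP : ∀ i < K + 1, p i ∈ P := by
    intro i h; rw [hpi i h]; exact P.orderEmbOfFin_mem hPc _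
  have hpm : ∀ i < K, p i < p (i + 1) := by
    intro i h
    rw [hpi i (by omega), hpi (i + 1) (by omega)]
    apply (P.orderEmbOfFin hPc).strictMono
    rw [Fin.mk_lt_mk]; omega
  obtain ⟨Φ, Ψ, hcode⟩ := exists_code_end hw1 hw (fun a b => op (e a b)) (2 * Nat.clog 2 n)
  obtain ⟨j, rfl⟩ : ∃ j, n = j + 1 := ⟨n - 1, by omega⟩
  rw [show CC w * (2 * Nat.clog 2 (j + 1)) = K by rw [hK]; ring] at hcode
  refine graph_core hπ hinj hc (p := p) (K := K) hpm ?_ ?_ hcode ?_
  · have := mem_range.1 (hPr (hpP K (by omega)))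
    omega
  · intro i hi a b y
    have := he (p i) (hpP i (by omega)) (p (i + 1)) (hpP (i + 1) (by omega)) (hpm i hi)
    have h2 := congrFun (congrFun (congrFun this a) b) y
    exact h2
  · calc j * j < 2 ^ Nat.clog 2 (j + 1) * 2 ^ Nat.clog 2 (j + 1) :=
        Nat.mul_lt_mul_of_lt_of_le (by omega) (by omega) (by positivity)
      _ = 2 ^ (2 * Nat.clog 2 (j + 1)) := by rw [← pow_add]; congr 1; ring

end Pool.Agent.H834Q
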