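import Pool.Agent.H834Q.NearL

/-! Reparametrisation of Jordan curves which are invariant under an involution of the plane. -/

set_option autoImplicit false
open Complex Set Topology Metric
open scoped ComplexConjugate

namespace Pool.Agent.H834Q

open Pool.Agent.H763R2 Pool.Agent.H763R2.An

variable {c q : ℝ → ℂ}

/-- an integer valued continuous function is constant -/
theorem int_const {f : ℝ → ℝ} (hf : Continuous f) (h : ∀ t, ∃ n : ℤ, f t = n) : ∃ n : ℤ, ∀ t, f t = n := by
  obtain ⟨n, hn⟩ := h 0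
  refine ⟨n, fun t => ?_⟩
  obtain ⟨m, hm⟩ := h t
  rcases lt_trichotomy m n with hlt | he | hgt
  · exfalso
    have h1 : ((m : ℤ) : ℝ) + 1 ≤ n := by exact_mod_cast hlt
    obtain ⟨s, hs⟩ : (m : ℝ) + 1 / 2 ∈ range f :=
      mem_range_of_exists_le_of_exists_ge hf ⟨t, by linarith⟩ ⟨0, by linarith⟩
    obtain ⟨r, hr⟩ := h s
    rw [hr] at hs
    have h2 : (m : ℝ) < r := by linarith
    have h3 : (r : ℝ) < m + 1 := by linarith
    have h4 : m < r := by exact_mod_cast h2
    have h5 : r < m + 1 := by exact_mod_cast h3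
    omega
  · rw [hm, he]
  · exfalso
    have h1 : ((n : ℤ) : ℝ) + 1 ≤ m := by exact_mod_cast hgt
    obtain ⟨s, hs⟩ : (n : ℝ) + 1 / 2 ∈ range f :=
      mem_range_of_exists_le_of_exists_ge hf ⟨0, by linarith⟩ ⟨t, by linarith⟩
    obtain ⟨r, hr⟩ := h s
    rw [hr] at hs
    have h2 : (n : ℝ) < r := by linarith
    have h3 : (r : ℝ) < n + 1 := by linarith
    have h4 : n < r := by exact_mod_cast h2
    have h5 : r < n + 1 := by exact_mod_cast h3
    omega

/-- the involution in the parameter -/
theorem exists_lift (hc : Continuous c) (hper : ∀ t, c (t + 1) = c t) (hinj : InjOn c (Ico 0 1))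
    {σ : ℂ → ℂ} (hσ : Continuous σ) (hmem : ∀ z ∈ range c, σ z ∈ range c) :
    ∃ f : ℝ → ℝ, Continuous f ∧ ∀ t, c (f t) = σ (c t) := by
  have hp : Function.Periodic c 1 := hper
  have : Fact ((0:ℝ) < 1) := ⟨zero_lt_one⟩
  obtain ⟨e, he⟩ : ∃ e : AddCircle (1:ℝ) → ℂ, e = hp.lift := ⟨_, rfl⟩
  have hec : ∀ t : ℝ, e (t : AddCircle (1:ℝ)) = c t := fun t => by rw [he]; rfl
  have econt : Continuous e := by
    rw [he]
    exact continuous_coinduced_dom.mpr hc
  have einj : Function.Injective e := by
    intro a b hab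
    induction a using QuotientAddGroup.induction_on with
    | H a =>
      induction b using QuotientAddGroup.induction_on with
      | H b =>
        change e (a : AddCircle (1:ℝ)) = e (b : AddCircle (1:ℝ)) at hab
        rw [hec, hec] at hab
        obtain ⟨n, hn⟩ := eqmod hper hinj hab
        change (a : AddCircle (1:ℝ)) = (b : AddCircle (1:ℝ))
        rw [hn]
        have : ((n : ℝ) : AddCircle (1:ℝ)) = 0 := by
          rw [AddCircle.coe_eq_zero_iff]
          exact ⟨n, by simp⟩
        rw [AddCircle.coe_add, this, add_zero]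
  have hemb := econt.isClosedEmbedding einj
  have hex : ∀ t, ∃ u : AddCircle (1:ℝ), e u = σ (c t) := by
    intro t
    obtain ⟨s, hs⟩ := hmem (c t) (mem_range_self t)
    exact ⟨(s : AddCircle (1:ℝ)), by rw [hec, hs]⟩
  choose g hg using hex
  have gcont : Continuous g := by
    rw [hemb.isEmbedding.isInducing.continuous_iff]
    have : e ∘ g = fun t => σ (c t) := funext hg
    rw [this]
    exact hσ.comp hc
  obtain ⟨K, hK, hKe⟩ := H777R2.exists_log (X := ℝ) (g := fun t => ((AddCircle.toCircle (g t) : Circle) : ℂ))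
    (continuous_subtype_val.comp (AddCircle.continuous_toCircle.comp gcont))
    (fun t => Circle.coe_ne_zero _)
  refine ⟨fun t => (K t).im / (2 * Real.pi), (continuous_im.comp hK).div_const _, fun t => ?_⟩
  have hπ := Real.pi_pos
  have hre : (K t).re = 0 := by
    have h1 : ‖exp (K t)‖ = 1 := by rw [hKe]; exact Circle.norm_coe _
    rw [norm_exp] at h1
    exact Real.exp_eq_one_iff _ |>.1 h1
  have h1 : AddCircle.toCircle (((K t).im / (2 * Real.pi) : ℝ) : AddCircle (1:ℝ)) =
      AddCircle.toCircle (g t) := by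
    rw [AddCircle.toCircle_apply_mk]
    apply Subtype.ext
    have hr : 2 * Real.pi / 1 * ((K t).im / (2 * Real.pi)) = (K t).im := by field_simp
    rw [hr, ← hKe t, Circle.coe_exp]
    congr 1
    apply Complex.ext
    · simp [hre]
    · simp
  have h2 := AddCircle.injective_toCircle one_ne_zero h1
  have h3 := congrArg e h2
  rw [hec, hg] at h3
  exact h3

/-- properties of the involution in the parameter -/
theorem exists_lift' (hc : Continuous c) (hper : ∀ t, c (t + 1) = c t) (hinj : InjOn c (Ico 0 1))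
    {σ : ℂ → ℂ} (hσ : Continuous σ) (hσσ : ∀ z, σ (σ z) = z) (hmem : ∀ z ∈ range c, σ z ∈ range c) :
    ∃ f : ℝ → ℝ, Continuous f ∧ (∀ t, c (f t) = σ (c t)) ∧ (∃ k : ℤ, ∀ t, f (f t) = t + k) ∧
      ((StrictMono f ∧ ∀ (t : ℝ) (n : ℤ), f (t + n) = f t + n) ∨
        (StrictAnti f ∧ ∀ (t : ℝ) (n : ℤ), f (t + n) = f t - n)) := by
  obtain ⟨f, hf, hfc⟩ := exists_lift hc hper hinj hσ hmem
  obtain ⟨k, hk⟩ := int_const (f := fun t => f (f t) - t) ((hf.comp hf).sub continuous_id)
    (fun t => by
      have : c t = c (f (f t)) := by rw [hfc, hfc, hσσ]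
      obtain ⟨n, hn⟩ := eqmod hper hinj this
      exact ⟨n, by linarith⟩)
  have hk' : ∀ t, f (f t) = t + k := fun t => by have := hk t; linarith
  obtain ⟨d, hd⟩ := int_const (f := fun t => f (t + 1) - f t)
    ((hf.comp (continuous_id.add continuous_const)).sub hf)
    (fun t => by
      have : c (f t) = c (f (t + 1)) := by rw [hfc, hfc, hper]
      obtain ⟨n, hn⟩ := eqmod hper hinj this
      exact ⟨n, by linarith⟩)
  have hd' : ∀ t, f (t + 1) = f t + d := fun t => by have := hd t; linarith
  have hinjf : Function.Injective f := by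
    intro s t h
    have h1 := hk' s
    have h2 := hk' t
    rw [h] at h1
    linarith
  have hdn : ∀ (n : ℕ) (t : ℝ), f (t + n) = f t + n * d := by
    intro n
    induction n with
    | zero => intro t; simp
    | succ n ih =>
      intro t
      push_cast
      rw [show t + ((n : ℝ) + 1) = (t + n) + 1 by ring, hd', ih]
      ring
  have hdz : ∀ (n : ℤ) (t : ℝ), f (t + n) = f t + n * d := by
    intro n t
    rcases le_total 0 n with h | h
    · obtain ⟨m, rfl⟩ := Int.eq_ofNat_of_zero_le h
      have := hdn m t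
      simpa using this
    · obtain ⟨m, hm⟩ := Int.eq_ofNat_of_zero_le (show 0 ≤ -n by omega)
      have h1 : n = -(m : ℤ) := by omega
      have := hdn m (t + n)
      rw [h1] at this ⊢
      push_cast at this ⊢
      rw [show t + -(m : ℝ) + m = t by ring] at this
      linarith
  have hdd : (d : ℝ) * d = 1 := by
    have h1 := hk' (0 + 1)
    rw [hd' 0, hdz d (f 0), hk' 0] at h1
    linarith
  have hdd' : d * d = 1 := by exact_mod_cast hdd
  have hd1 : d = 1 ∨ d = -1 := by
    rcases Int.mul_eq_one_iff_eq_one_or_neg_one.1 hdd' with h | h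
    · exact Or.inl h.1
    · exact Or.inr h.1
  refine ⟨f, hf, hfc, ⟨k, hk'⟩, ?_⟩
  rcases hf.strictMono_of_inj hinjf with hm | hm
  · left
    refine ⟨hm, fun t n => ?_⟩
    rcases hd1 with h | h
    · rw [hdz, h]; push_cast; ring
    · exfalso
      have h1 := hm (show (0:ℝ) < 0 + 1 by norm_num)
      rw [hd', h] at h1
      push_cast at h1
      linarith
  · right
    refine ⟨hm, fun t n => ?_⟩
    rcases hd1 with h | h
    · exfalso
      have h1 := hm (show (0:ℝ) < 0 + 1 by norm_num)
      rw [hd', h] at h1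
      push_cast at h1
      linarith
    · rw [hdz, h]; push_cast; ring

/-- inverse of a strictly increasing continuous function of degree one -/
theorem exists_inv {ψ : ℝ → ℝ} (hψ : Continuous ψ) (hm : StrictMono ψ) (h1 : ∀ t, ψ (t + 1) = ψ t + 1) :
    ∃ h : ℝ → ℝ, Continuous h ∧ StrictMono h ∧ (∀ t, ψ (h t) = t) ∧ (∀ t, h (ψ t) = t) ∧
      ∀ t, h (t + 1) = h t + 1 := by
  have hn : ∀ (n : ℕ) (t : ℝ), ψ (t + n) = ψ t + n := by
    intro n
    induction n with
    | zero => intro t; simp
    | succ n ih =>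
      intro t
      push_cast
      rw [show t + ((n : ℝ) + 1) = (t + n) + 1 by ring, h1, ih]
      ring
  have hsurj : Function.Surjective ψ := by
    intro y
    obtain ⟨n, hn1⟩ := exists_nat_ge (|y| + |ψ 0|)
    refine mem_range_of_exists_le_of_exists_ge hψ ⟨-n, ?_⟩ ⟨n, ?_⟩
    · have := hn n (-n)
      rw [neg_add_cancel] at this
      have a1 := abs_le.1 (le_refl |y|)
      have a2 := abs_le.1 (le_refl |ψ 0|)
      linarith [a1.1, a2.2]
    · have := hn n 0
      rw [zero_add] at this
      have a1 := abs_le.1 (le_refl |y|)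
      have a2 := abs_le.1 (le_refl |ψ 0|)
      linarith [a1.2, a2.1]
  obtain ⟨E, hE⟩ : ∃ E : ℝ ≃o ℝ, E = hm.orderIsoOfSurjective ψ hsurj := ⟨_, rfl⟩
  have hEψ : ∀ t, E t = ψ t := fun t => by rw [hE]; rfl
  refine ⟨E.symm, E.symm.continuous, E.symm.strictMono, fun t => by rw [← hEψ]; simp,
    fun t => by rw [← hEψ]; simp, fun t => ?_⟩
  apply E.injective
  rw [hEψ, hEψ, h1, ← hEψ, ← hEψ]
  simp

end Pool.Agent.H834Q
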