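import Pool.Agent.H834Q.EthB

/-!
# Linear space relative to the join of two oracles
-/

set_option autoImplicit false

namespace Pool.Agent.H834Q.EJ

open Pool.Agent.NPC Pool.Agent.H620R2.Gauge Pool.Agent.H877R3.Join Pool.Agent.H274R3.ETH
open Pool.Agent.H622R2

theorem testBit_valB : ∀ (z : List Bool) (i : ℕ), (valB z).testBit i = z.getD i false
  | [], i => by simp
  | b :: l, 0 => by
    rw [valB_cons, Nat.testBit_zero]
    cases b <;> simp <;> omega
  | b :: l, i + 1 => by
    rw [valB_cons, Nat.testBit_succ]
    have h : ((if b = true then 1 else 0) + 2 * valB l) / 2 = valB l := by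
      cases b <;> simp <;> omega
    rw [h, testBit_valB l i]
    simp

theorem bits_getD (n i : ℕ) : n.bits.getD i false = n.testBit i := by
  rw [← testBit_valB, valB_bits]

theorem fit_valB {x z : List Bool} (h : z.length = x.length) : fit x (valB z).bits = z := by
  have h1 : fit x (valB z).bits = fit x z := by
    unfold fit
    apply List.map_congr_left
    intro i _
    rw [bits_getD, testBit_valB]
  rw [h1, fit_eq h]

/-- what comes next -/
def actf (t : List Bool × List Bool) : List Bool :=
  if t.2.length = t.1.length + 2 then
    (if t.2.head? = some true then [true] else [true, true])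
  else if t.2.head? = some true then
    false :: true :: false :: false :: true :: fitp (t.1, t.2.tail)
  else false :: false :: false :: false :: true :: fitp (t.1, t.2.tail)

/-- the new content of the memory; `t.2` is the answer and the old content -/
def nextf (t : List Bool × List Bool) : List Bool :=
  if t.2.tail.head? = some true then
    (if t.2.head? = some true then true :: true :: t.1
      else false :: (valB t.2.tail.tail + 1).bits)
  else
    (if t.2.head? = some true then true :: t.2.tail.tail
      else false :: (valB t.2.tail.tail + 1).bits)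

theorem poly_actf : Poly actf := by
  have p1 : Poly (fun t : List Bool × List Bool => t.1) := Poly.fst Poly.id
  have p2 : Poly (fun t : List Bool × List Bool => t.2) := Poly.snd Poly.id
  have pf : Poly (fun t : List Bool × List Bool => fitp (t.1, t.2.tail)) :=
    poly_fit.comp (Poly.pair p1 (Poly.tail p2))
  have ph : Poly (fun t : List Bool × List Bool => decide (t.2.head? = some true)) :=
    Poly.decide_eq (Poly.head? p2) (NPC.Poly.const _)
  have pn : Poly (fun t : List Bool × List Bool => t.1.length + 2) :=
    (UPoly.add (UPoly.length p1) (UPoly.const 2)).toPoly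
  refine Poly.ite (Poly.decide_eq (Poly.length p2) pn) (Poly.ite ph (NPC.Poly.const _)
    (NPC.Poly.const _)) (Poly.ite ph ?_ ?_)
  · exact Poly.cons (NPC.Poly.const _) (Poly.cons (NPC.Poly.const _) (Poly.cons (NPC.Poly.const _)
      (Poly.cons (NPC.Poly.const _) (Poly.cons (NPC.Poly.const _) pf))))
  · exact Poly.cons (NPC.Poly.const _) (Poly.cons (NPC.Poly.const _) (Poly.cons (NPC.Poly.const _)
      (Poly.cons (NPC.Poly.const _) (Poly.cons (NPC.Poly.const _) pf))))

theorem poly_nextf : Poly nextf := by
  have p1 : Poly (fun t : List Bool × List Bool => t.1) := Poly.fst Poly.id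
  have p2 : Poly (fun t : List Bool × List Bool => t.2) := Poly.snd Poly.id
  have ph : Poly (fun t : List Bool × List Bool => decide (t.2.head? = some true)) :=
    Poly.decide_eq (Poly.head? p2) (NPC.Poly.const _)
  have ph2 : Poly (fun t : List Bool × List Bool => decide (t.2.tail.head? = some true)) :=
    Poly.decide_eq (Poly.head? (Poly.tail p2)) (NPC.Poly.const _)
  have pt : Poly (fun t : List Bool × List Bool => t.2.tail.tail) := Poly.tail (Poly.tail p2)
  have pb : Poly (fun t : List Bool × List Bool => false :: (valB t.2.tail.tail + 1).bits) :=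
    Poly.cons (NPC.Poly.const _) (Poly.natBits (Poly.succ (Poly.valBits pt)))
  exact Poly.ite ph2 (Poly.ite ph (Poly.cons (NPC.Poly.const _) (Poly.cons (NPC.Poly.const _) p1))
    pb) (Poly.ite ph (Poly.cons (NPC.Poly.const _) pt) pb)

/-- The algorithm which looks for a common string of the two oracles of the same length as the
input: it tries all of them. -/
noncomputable def SA : SAlg where
  act := fun v => actf (unpair v)
  act_poly := polyTime_of_poly_list (poly_actf.comp poly_unpair)
  next := fun v => nextf (unpair v)
  next_poly := polyTime_of_poly_list (poly_nextf.comp poly_unpair)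

theorem SA_act (x s : List Bool) : SA.act (pairBits x s) = actf (x, s) := by
  show actf (unpair (pairBits x s)) = _
  rw [unpair_pairBits]

theorem SA_next (x s : List Bool) : SA.next (pairBits x s) = nextf (x, s) := by
  show nextf (unpair (pairBits x s)) = _
  rw [unpair_pairBits]

section

variable {A B X Y : Oracle} (hA : ∀ z, A (false :: false :: true :: z) = X z)
  (hB : ∀ z, B (false :: false :: true :: z) = Y z) (x : List Bool)

theorem len_bits {n k : ℕ} (h : k < 2 ^ n) : k.bits.length ≤ n := by
  rw [Nat.size_eq_bits_len]
  exact Nat.size_le.2 h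

theorem len_bits_pow (n : ℕ) : (2 ^ n).bits.length = n + 1 := by
  rw [Nat.size_eq_bits_len, Nat.size_pow]

include hA hB in
theorem SA_bound : ∀ s : List Bool, SA.Reach (join A B) x s →
    s = [] ∨ (∃ k ≤ 2 ^ x.length, s = false :: k.bits) ∨
      (∃ k < 2 ^ x.length, s = true :: k.bits) ∨ s = true :: true :: x := by
  intro s hs
  induction hs with
  | start => left; rfl
  | @step s q hs hq ih =>
    rw [SA_act] at hq
    rw [SA_next]
    have hlen : s.length ≠ x.length + 2 := by
      intro h
      unfold actf at hq
      rw [if_pos h] at hq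
      split_ifs at hq <;> simp at hq
    -- the tail of the memory is a number
    have htail : ∃ k < 2 ^ x.length, s.tail = k.bits := by
      rcases ih with rfl | ⟨k, hk, rfl⟩ | ⟨k, hk, rfl⟩ | rfl
      · exact ⟨0, Nat.pow_pos (by norm_num), rfl⟩
      · rcases Nat.lt_or_eq_of_le hk with h | h
        · exact ⟨k, h, rfl⟩
        · exfalso
          apply hlen
          rw [h, List.length_cons, len_bits_pow]
      · exact ⟨k, hk, rfl⟩
      · exact absurd rfl hlen
    obtain ⟨k, hk, hkt⟩ := htail
    unfold nextf
    simp only [List.tail_cons, List.head?_cons, hkt, valB_bits]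
    split_ifs
    · right; right; right; rfl
    · right; left; exact ⟨k + 1, hk, rfl⟩
    · right; right; left; exact ⟨k, hk, rfl⟩
    · right; left; exact ⟨k + 1, hk, rfl⟩

/-- the string number `k` -/
def zk (k : ℕ) : List Bool := fit x k.bits

theorem act_X {s : List Bool} {k : ℕ} (hk : k < 2 ^ x.length) (h1 : s.head? ≠ some true)
    (h2 : s.tail = k.bits) : SA.act (pairBits x s) =
      false :: false :: false :: false :: true :: zk x k := by
  rw [SA_act]
  unfold actf
  have h3 := len_bits hk
  rw [if_neg, if_neg h1, h2]
  · rfl
  · show s.length ≠ x.length + 2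
    intro h
    have h4 : s.tail.length = s.length - 1 := List.length_tail
    rw [h2] at h4
    omega

theorem act_Y {k : ℕ} (hk : k < 2 ^ x.length) : SA.act (pairBits x (true :: k.bits)) =
      false :: true :: false :: false :: true :: zk x k := by
  rw [SA_act]
  unfold actf
  have h3 := len_bits hk
  rw [if_neg, if_pos (by rfl)]
  · rfl
  · show (true :: k.bits).length ≠ x.length + 2
    rw [List.length_cons]
    omega

include hA hB in
theorem reach_phase {s : List Bool} {k : ℕ} (hk : k < 2 ^ x.length) (h1 : s.head? ≠ some true)
    (h2 : s.tail = k.bits) (hs : SA.Reach (join A B) x s) (hX : X (zk x k) = true) :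
    SA.Reach (join A B) x (true :: k.bits) := by
  have h := SAlg.Reach.step hs (act_X x hk h1 h2)
  have e : join A B (false :: false :: false :: true :: zk x k) = true := by
    show A (false :: false :: true :: zk x k) = true
    rw [hA, hX]
  rw [e, SA_next] at h
  unfold nextf at h
  simp only [List.tail_cons, List.head?_cons, if_neg h1, h2, if_true] at h
  exact h

include hA hB in
theorem reach_succ {s : List Bool} {k : ℕ} (hk : k < 2 ^ x.length) (h1 : s.head? ≠ some true)
    (h2 : s.tail = k.bits) (hs : SA.Reach (join A B) x s)
    (hXY : ¬ (X (zk x k) = true ∧ Y (zk x k) = true)) :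
    SA.Reach (join A B) x (false :: (k + 1).bits) := by
  by_cases hX : X (zk x k) = true
  · have hs2 := reach_phase hA hB x hk h1 h2 hs hX
    have h := SAlg.Reach.step hs2 (act_Y x hk)
    have e : join A B (true :: false :: false :: true :: zk x k) = false := by
      show B (false :: false :: true :: zk x k) = false
      rw [hB]
      cases hY : Y (zk x k)
      · rfl
      · exact absurd ⟨hX, hY⟩ hXY
    rw [e, SA_next] at h
    unfold nextf at h
    simp only [List.tail_cons, List.head?_cons, valB_bits, Option.some.injEq,
      Bool.false_eq_true, if_false, if_true] at h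
    exact h
  · have h := SAlg.Reach.step hs (act_X x hk h1 h2)
    have e : join A B (false :: false :: false :: true :: zk x k) = false := by
      show A (false :: false :: true :: zk x k) = false
      rw [hA]
      simpa using hX
    rw [e, SA_next] at h
    unfold nextf at h
    simp only [List.tail_cons, List.head?_cons, if_neg h1, h2, valB_bits, Option.some.injEq,
      Bool.false_eq_true, if_false] at h
    exact h

include hA hB in
theorem reach_all : ∀ k : ℕ, k ≤ 2 ^ x.length →
    (∀ j < k, ¬ (X (zk x j) = true ∧ Y (zk x j) = true)) →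
    ∃ s : List Bool, SA.Reach (join A B) x s ∧ s.head? ≠ some true ∧ s.tail = k.bits ∧
      (0 < k → s = false :: k.bits) := by
  intro k
  induction k with
  | zero => exact fun _ _ => ⟨[], SAlg.Reach.start, by simp, by simp, fun h => absurd h (by simp)⟩
  | succ k ih =>
    intro hk hj
    obtain ⟨s, h1, h2, h3, _⟩ := ih (by omega) (fun j hjk => hj j (by omega))
    exact ⟨_, reach_succ hA hB x (by omega) h2 h3 h1 (hj k (by omega)), by simp, rfl,
      fun _ => rfl⟩

include hA hB in
/-- The algorithm decides whether there is no common string, with a memory of length at most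
`|x| + 2`. -/
theorem SA_correct : (∀ s, SA.Reach (join A B) x s → s.length ≤ x.length + 2) ∧
    ∃ s z, SA.Reach (join A B) x s ∧ SA.act (pairBits x s) = true :: z ∧
      ((¬ ∃ w : List Bool, w.length = x.length ∧ X w = true ∧ Y w = true) ↔ z = [true]) := by
  classical
  constructor
  · intro s hs
    rcases SA_bound hA hB x s hs with rfl | ⟨k, hk, rfl⟩ | ⟨k, hk, rfl⟩ | rfl
    · simp
    · rw [List.length_cons]
      have : k.bits.length ≤ x.length + 1 := len_bits (by
        have : 2 ^ x.length < 2 ^ (x.length + 1) := Nat.pow_lt_pow_right (by norm_num) (by omega)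
        omega)
      omega
    · rw [List.length_cons]
      have := len_bits hk
      omega
    · simp
  by_cases hcom : ∃ k, k < 2 ^ x.length ∧ X (zk x k) = true ∧ Y (zk x k) = true
  · -- found
    set k := Nat.find hcom with hkd
    obtain ⟨hk1, hk2, hk3⟩ := Nat.find_spec hcom
    have hmin : ∀ j < k, ¬ (X (zk x j) = true ∧ Y (zk x j) = true) := by
      intro j hj h
      exact Nat.find_min hcom hj ⟨by omega, h⟩
    obtain ⟨s, h1, h2, h3, _⟩ := reach_all hA hB x k (by omega) hmin
    have hs2 := reach_phase hA hB x hk1 h2 h3 h1 hk2
    have h := SAlg.Reach.step hs2 (act_Y x hk1)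
    have e : join A B (true :: false :: false :: true :: zk x k) = true := by
      show B (false :: false :: true :: zk x k) = true
      rw [hB]
      exact hk3
    rw [e, SA_next] at h
    unfold nextf at h
    simp only [List.tail_cons, List.head?_cons, if_true] at h
    refine ⟨_, [], h, ?_, ?_⟩
    · rw [SA_act]
      unfold actf
      simp
    · constructor
      · intro hno
        exact absurd ⟨zk x k, length_fit _ _, hk2, hk3⟩ hno
      · intro h
        simp at h
  · -- not found
    push Not at hcom
    obtain ⟨s, h1, _, _, h4⟩ := reach_all hA hB x (2 ^ x.length) le_rfl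
      (fun j hj h => hcom j hj h.1 h.2)
    have h5 := h4 (Nat.pow_pos (by norm_num))
    rw [h5] at h1
    refine ⟨_, [true], h1, ?_, ?_⟩
    · rw [SA_act]
      unfold actf
      simp [len_bits_pow]
    · refine iff_of_true ?_ rfl
      rintro ⟨w, hw1, hw2, hw3⟩
      have hw : valB w < 2 ^ x.length := by rw [← hw1]; exact valB_lt w
      have e : zk x (valB w) = w := fit_valB hw1
      exact hcom (valB w) hw (by rw [e]; exact hw2) (by rw [e]; exact hw3)

end

/-- change of the input -/
def cv (v : List Bool) : List Bool := pairBits (unpair v).1 (c1 (unpair v).2)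

theorem poly_cv : Poly cv :=
  poly_pairBits (Poly.fst poly_unpair) (poly_c1.comp (Poly.snd poly_unpair))

theorem cv_inst (g : List Bool) (n : ℕ) : cv (pairBits g (inst [] n [])) = pairBits g (ones n) := by
  unfold cv c1 inst ones
  rw [unpair_pairBits, unpair_pairBits, unpair_pairBits]

theorem mainLin (C : Oracle) : ∃ A : ℕ → Oracle,
    (∀ i, Reduces {x | C x = true} {x | A i x = true} ∧
      (∀ L, IsPSPACE (A i) L → Reduces L {x | A i x = true}) ∧
      (∀ L, IsP (A i) L ↔ IsPSPACE (A i) L)) ∧
    ∀ i j, i ≠ j → ∃ L : Set (List Bool), IsUP (join (A i) (A j)) Lᶜ ∧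
      (∃ M : SAlg, ∀ x, (∀ s, M.Reach (join (A i) (A j)) x s → s.length ≤ x.length + 2) ∧
        ∃ s z, M.Reach (join (A i) (A j)) x s ∧ M.act (pairBits x s) = true :: z ∧
          (x ∈ L ↔ z = [true])) ∧
      ∀ (M : Alg) (N : ℕ), ∃ n : ℕ, N ≤ n ∧
        ¬ (List.replicate n true ∈ L ↔ ∃ g : List Bool, g.length ≤ 2 ^ (n - 2) ∧
          outT M (join (A i) (A j)) (pairBits g (List.replicate n true)) (2 ^ (n - 2)) =
            some [true]) := by
  obtain ⟨R, Φ, hR, hΦ1, hΦ2, hΦ3⟩ := exists_coding_local
  obtain ⟨X, hu, hf⟩ := buildT Φ hΦ3 C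
  have hnc : ∀ (B : Oracle) (z : List Bool), Φ B (false :: false :: z) = B (false :: false :: z) :=
    fun B z => hΦ1 B _ (fun e x => ne_code hR z e x)
  refine ⟨fun i => Φ (base C (X i)), fun i => ⟨?_, hΦ2 _, fun L =>
    ⟨fun h => h.isPSPACE, fun h => isP_of_reduces (hΦ2 _ L h)⟩⟩, ?_⟩
  · refine ⟨fun x => false :: false :: false :: x, polyTime_of_poly_list
      (Poly.cons (NPC.Poly.const _) (Poly.cons (NPC.Poly.const _)
        (Poly.cons (NPC.Poly.const _) NPC.Poly.id))), fun x => ?_⟩
    change C x = true ↔ Φ (base C (X i)) (false :: false :: false :: x) = true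
    rw [hnc]
    exact Iff.rfl
  · intro i j hij
    have h1 : ∀ z : List Bool, Φ (base C (X i)) (false :: false :: true :: z) = X i z :=
      fun z => hnc _ _
    have h2 : ∀ z : List Bool, Φ (base C (X j)) (false :: false :: true :: z) = X j z :=
      fun z => hnc _ _
    have hUP := isUP h1 h2 (hu i j hij)
    refine ⟨{x | ¬ ∃ z : List Bool, z.length = x.length ∧ X i z = true ∧ X j z = true}, ?_,
      ⟨SA, fun x => SA_correct h1 h2 x⟩, ?_⟩
    · have e : {x : List Bool | ¬ ∃ z : List Bool, z.length = x.length ∧ X i z = true ∧
          X j z = true}ᶜ = {x | ∃ z : List Bool, z.length = x.length ∧ X i z = true ∧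
          X j z = true} := by
        ext x
        exact not_not
      rw [e]
      exact hUP
    · intro M N
      obtain ⟨M1, hM1⟩ := exists_pre M poly_cv
      obtain ⟨n, hn, hfail⟩ := hf i j hij M1 N
      refine ⟨n, hn, fun hiff => hfail ?_⟩
      simp only [hM1, cv_inst]
      have e : (List.replicate n true : List Bool) ∈ {x : List Bool | ¬ ∃ z : List Bool,
          z.length = x.length ∧ X i z = true ∧ X j z = true} ↔
          ¬ ∃ z : List Bool, z.length = n ∧ X i z = true ∧ X j z = true := by
        show (¬ ∃ z : List Bool, z.length = (List.replicate n true).length ∧ X i z = true ∧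
          X j z = true) ↔ _
        rw [List.length_replicate]
      rw [← e]
      exact hiff.symm

end Pool.Agent.H834Q.EJ
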