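import Pool.Agent.H834Q.Near

/-! Nearly axially symmetric Jordan curves. -/

set_option autoImplicit false
open Complex Set Topology Metric
open scoped ComplexConjugate

namespace Pool.Agent.H834Q

open Pool.Agent.H763R2 Pool.Agent.H763R2.An
open Pool.Agent.H763R2.Sq (Dv Cv)
open Pool.Agent.H763R2.Dm (NoSq)

variable {c q : ℝ → ℂ}

theorem mgc_conj (L : Loop c) (z : ℂ) :
    mgc (fun t => conj (c (-t))) z = mgc c (conj z) := by
  have hc := L.cont
  have hr : range (fun t => conj (c (-t))) = conj '' range c := by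
    apply Subset.antisymm
    · rintro _ ⟨t, rfl⟩; exact ⟨_, mem_range_self _, rfl⟩
    · rintro _ ⟨_, ⟨t, rfl⟩, rfl⟩; exact ⟨- t, by simp⟩
  have hd : infDist z (range (fun t => conj (c (-t)))) = infDist (conj z) (range c) := by
    rw [hr]
    have := Metric.infDist_image (x := conj z) (t := range c) Complex.isometry_conj
    rw [← this, conj_conj]
  have hn : Odc (fun t => conj (c (-t))) z ↔ Odc c (conj z) := by
    constructor
    · rintro ⟨n, ⟨k, hk, ek, e⟩, ho⟩
      refine ⟨n, ⟨fun t => conj (k (-t)), continuous_conj.comp (hk.comp continuous_neg),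
        fun t => ?_, ?_⟩, ho⟩
      · rw [exp_conj, ek]
        simp
      · have hz' : ∀ t, exp (k t) ≠ 0 := fun t => exp_ne_zero _
        have := H777R2.exp_const (X := ℝ) (k := fun t => k (t + 1) - k t) (by fun_prop) (c := 1)
          (fun t => by
            rw [exp_sub, ek, ek]
            have h1 := L.per (-(t + 1))
            simp only
            rw [← h1]
            rw [show -(t + 1) + 1 = -t by ring]
            refine div_self ?_
            have := hz' t
            rwa [ek] at this) (-1) 0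
        simp only [zero_add] at this
        rw [e] at this
        simp only [neg_zero]
        rw [show (-1 : ℝ) + 1 = 0 by ring] at this
        rw [← map_sub, show k (-1) - k 0 = -(k 0 - k (-1)) by ring, this]
        simp only [map_neg, map_mul, map_ofNat, conj_ofReal, conj_I, map_intCast]
        ring
    · rintro ⟨n, ⟨k, hk, ek, e⟩, ho⟩
      refine ⟨n, ⟨fun t => conj (k (-t)), continuous_conj.comp (hk.comp continuous_neg),
        fun t => ?_, ?_⟩, ho⟩
      · rw [exp_conj, ek]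
        simp
      · have hz' : ∀ t, exp (k t) ≠ 0 := fun t => exp_ne_zero _
        have := H777R2.exp_const (X := ℝ) (k := fun t => k (t + 1) - k t) (by fun_prop) (c := 1)
          (fun t => by
            rw [exp_sub, ek, ek]
            rw [L.per t]
            refine div_self ?_
            have := hz' t
            rwa [ek] at this) (-1) 0
        simp only [zero_add] at this
        rw [e] at this
        simp only [neg_zero]
        rw [show (-1 : ℝ) + 1 = 0 by ring] at this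
        rw [← map_sub, show k (-1) - k 0 = -(k 0 - k (-1)) by ring, this]
        simp only [map_neg, map_mul, map_ofNat, conj_ofReal, conj_I, map_intCast]
        ring
  unfold mgc
  rw [hd]
  by_cases o : Odc c (conj z)
  · rw [if_pos o, if_pos (hn.2 o)]
  · rw [if_neg o, if_neg (fun h => o (hn.1 h))]

theorem mgc_symL (L : Loop c) {η : ℝ} (hs : ∀ t, ‖c (-t) - conj (c t)‖ ≤ η) (z : ℂ) :
    |mgc c (conj z) - mgc c z| ≤ η := by
  have hc := L.cont
  have L' : Loop (fun t => conj (c (-t))) := by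
    refine ⟨continuous_conj.comp (hc.comp continuous_neg), fun t => ?_⟩
    have := L.per (-(t + 1))
    rw [← this, show -(t + 1) + 1 = -t by ring]
  rw [← mgc_conj L z]
  refine mgc_close' L L' (fun t => ?_) z
  have : conj (c (-t)) - c t = conj (c (-t) - conj (c t)) := by simp
  rw [this, norm_conj]
  exact hs t

theorem vertL {A B A' B' : ℂ} {η : ℝ} (hA : ‖A' - conj B‖ ≤ η) (hB : ‖B' - conj A‖ ≤ η) :
    ‖Dv A' B' - conj (Cv A B)‖ ≤ (1 + √2) * η ∧ ‖Cv A' B' - conj (Dv A B)‖ ≤ (1 + √2) * η := by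
  have hη : 0 ≤ η := (norm_nonneg _).trans hA
  have h1 : ‖(1 - I : ℂ)‖ = √2 := by
    rw [Complex.norm_def, Complex.normSq_apply]
    congr 1
    simp
    norm_num
  have h2 : ‖(1 + I : ℂ)‖ = √2 := by
    rw [Complex.norm_def, Complex.normSq_apply]
    congr 1
    simp
    norm_num
  constructor
  · rw [show Dv A' B' - conj (Cv A B) = (1 - I) * (A' - conj B) + I * (B' - conj A) by
      unfold Dv Cv; simp only [map_add, map_sub, map_mul, conj_I]; ring]
    refine (norm_add_le _ _).trans ?_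
    rw [norm_mul, norm_mul, h1, norm_I]
    nlinarith [mul_le_mul_of_nonneg_left hA (Real.sqrt_nonneg 2)]
  · rw [show Cv A' B' - conj (Dv A B) = (1 + I) * (B' - conj A) + (-I) * (A' - conj B) by
      unfold Dv Cv; simp only [map_add, map_sub, map_mul, conj_I]; ring]
    refine (norm_add_le _ _).trans ?_
    rw [norm_mul, norm_mul, h2, norm_neg, norm_I]
    nlinarith [mul_le_mul_of_nonneg_left hB (Real.sqrt_nonneg 2)]

/-- an angle in the third quadrant -/
theorem third {θ : ℝ} (hc : Real.cos θ < 0) (hs : Real.sin θ < 0) :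
    ∃ a : ℤ, (a : ℝ) * (2 * Real.pi) + Real.pi < θ ∧ θ < a * (2 * Real.pi) + 3 / 2 * Real.pi := by
  have hπ := Real.pi_pos
  obtain ⟨a, ha⟩ : ∃ a : ℤ, a = ⌊θ / (2 * Real.pi)⌋ := ⟨_, rfl⟩
  have k1 : (a : ℝ) * (2 * Real.pi) ≤ θ := by
    have := Int.floor_le (θ / (2 * Real.pi))
    rw [← ha, le_div_iff₀ (by positivity)] at this
    exact this
  have k2 : θ < (a + 1) * (2 * Real.pi) := by
    have := Int.lt_floor_add_one (θ / (2 * Real.pi))
    rw [← ha, div_lt_iff₀ (by positivity)] at this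
    exact this
  refine ⟨a, ?_, ?_⟩
  · by_contra hcon
    push Not at hcon
    have h1 := Real.sin_nonneg_of_nonneg_of_le_pi (x := θ - a * (2 * Real.pi)) (by linarith)
      (by linarith)
    rw [Real.sin_sub_int_mul_two_pi] at h1
    linarith
  · by_contra hcon
    push Not at hcon
    have h1 := Real.cos_nonneg_of_neg_pi_div_two_le_of_le (x := θ - ((a + 1 : ℤ) : ℝ) * (2 * Real.pi))
      (by push_cast; linarith) (by push_cast; linarith)
    rw [Real.cos_sub_int_mul_two_pi] at h1
    linarith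

set_option maxHeartbeats 4000000 in
/-- the main lemma for nearly axially symmetric curves -/
theorem coreL (L : Loop c) (J : Inj c) {η : ℝ}
    (hs : ∀ t, ‖c (-t) - conj (c t)‖ ≤ η) {x y : ℝ → ℝ}
    (hx : ContinuousOn x (Icc 0 1)) (hy : ContinuousOn y (Icc 0 1))
    (hxy : ∀ s ∈ Icc (0:ℝ) 1, x s < y s ∧ y s < x s + 1)
    (e0 : x 0 + y 0 = 0) (e1 : x 1 + y 1 = 1)
    (hfar : ∀ s ∈ Icc (0:ℝ) 1, (2 + √2) * η <
      max (infDist (Dv (c (x s)) (c (y s))) (range c)) (infDist (Cv (c (x s)) (c (y s))) (range c)))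
    (s0 : mgc c (Dv (c (x 0)) (c (y 0))) < 0 ∧ mgc c (Cv (c (x 0)) (c (y 0))) < 0)
    (s1 : mgc c (Dv (c (x 1)) (c (y 1))) < 0 ∧ mgc c (Cv (c (x 1)) (c (y 1))) < 0) :
    ¬ NoSq (range c) := by
  intro nosq
  have hπ := Real.pi_pos
  obtain ⟨θ, g, A, ho⟩ := exists_odd L J nosq
  obtain ⟨cl', hcl⟩ : ∃ cl' : ℝ → ℝ, cl' = fun s => max 0 (min 1 s) := ⟨_, rfl⟩
  have ccl : Continuous cl' := by rw [hcl]; fun_prop
  have m : ∀ s, cl' s ∈ Set.Icc (0:ℝ) 1 := fun s => by
    rw [hcl]; exact ⟨le_max_left _ _, max_le zero_le_one (min_le_left _ _)⟩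
  have cl0 : cl' 0 = 0 := by simp [hcl]
  have cl1 : cl' 1 = 1 := by simp [hcl]
  have cx : Continuous fun s => x (cl' s) := hx.comp_continuous ccl m
  have cy : Continuous fun s => y (cl' s) := hy.comp_continuous ccl m
  have c1 : Continuous fun s => θ (x (cl' s)) (y (cl' s)) :=
    A.path (p := fun s => (x (cl' s), y (cl' s))) (cx.prodMk cy)
      (fun s => ⟨(hxy _ (m s)).1, (hxy _ (m s)).2⟩)
  have c2 : Continuous fun s => θ (-y (cl' s)) (-x (cl' s)) :=
    A.path (p := fun s => (-y (cl' s), -x (cl' s))) (cy.neg.prodMk cx.neg)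
      (fun s => ⟨by have := (hxy _ (m s)).1; simp only; linarith,
        by have := (hxy _ (m s)).2; simp only; linarith⟩)
  obtain ⟨h, hh⟩ : ∃ h : ℝ → ℝ, h = fun s => θ (-y (cl' s)) (-x (cl' s)) +
    θ (x (cl' s)) (y (cl' s)) - Real.pi / 2 := ⟨_, rfl⟩
  have ch : Continuous h := by rw [hh]; exact (c2.add c1).sub continuous_const
  have key : ∀ s, Real.cos (h s) ≠ -1 := by
    intro s hc
    obtain ⟨u1, u2⟩ := hxy _ (m s)
    obtain ⟨ρ, hρ, f1, f2⟩ := A.ex _ _ u1 u2
    obtain ⟨ρ', hρ', f1', f2'⟩ := A.ex (-y (cl' s)) (-x (cl' s)) (by linarith) (by linarith)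
    set α := θ (x (cl' s)) (y (cl' s)) with hα
    set β := θ (-y (cl' s)) (-x (cl' s)) with hβ
    have hβα : β = h s + (Real.pi / 2 - α) := by rw [hh]; simp only [← hα, ← hβ]; ring
    have hsin : Real.sin (h s) = 0 := by
      have := Real.sin_sq_add_cos_sq (h s)
      rw [hc] at this
      nlinarith [sq_nonneg (Real.sin (h s))]
    have e1 : Real.cos β = - Real.sin α := by
      rw [hβα, Real.cos_add, hc, hsin, Real.cos_pi_div_two_sub]; ring
    have e2 : Real.sin β = - Real.cos α := by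
      rw [hβα, Real.sin_add, hc, hsin, Real.sin_pi_div_two_sub]; ring
    rw [e1] at f1'
    rw [e2] at f2'
    obtain ⟨v1, v2⟩ := vertL (hs (y (cl' s))) (hs (x (cl' s)))
    have w1 := (mgc_sg L).lip (Dv (c (-y (cl' s))) (c (-x (cl' s))))
      (conj (Cv (c (x (cl' s))) (c (y (cl' s)))))
    have w2 := (mgc_sg L).lip (Cv (c (-y (cl' s))) (c (-x (cl' s))))
      (conj (Dv (c (x (cl' s))) (c (y (cl' s)))))
    have r1 := mgc_symL L hs (Cv (c (x (cl' s))) (c (y (cl' s))))
    have r2 := mgc_symL L hs (Dv (c (x (cl' s))) (c (y (cl' s))))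
    have g1 : mgc c (Dv (c (-y (cl' s))) (c (-x (cl' s)))) = ρ' * -Real.sin α := f1'
    have g2 : mgc c (Cv (c (-y (cl' s))) (c (-x (cl' s)))) = ρ' * -Real.cos α := f2'
    have g3 : mgc c (Dv (c (x (cl' s))) (c (y (cl' s)))) = ρ * Real.cos α := f1
    have g4 : mgc c (Cv (c (x (cl' s))) (c (y (cl' s)))) = ρ * Real.sin α := f2
    have t2 : |mgc c (Cv (c (x (cl' s))) (c (y (cl' s))))| ≤ (2 + √2) * η := by
      have a1 : |mgc c (Dv (c (-y (cl' s))) (c (-x (cl' s)))) -
          mgc c (Cv (c (x (cl' s))) (c (y (cl' s))))| ≤ (2 + √2) * η := by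
        have := abs_sub_le (mgc c (Dv (c (-y (cl' s))) (c (-x (cl' s)))))
          (mgc c (conj (Cv (c (x (cl' s))) (c (y (cl' s))))))
          (mgc c (Cv (c (x (cl' s))) (c (y (cl' s)))))
        linarith
      rw [g1, g4] at a1
      rw [g4]
      rw [show ρ' * -Real.sin α - ρ * Real.sin α = -((ρ' + ρ) * Real.sin α) by ring, abs_neg,
        abs_mul, abs_of_pos (by linarith : 0 < ρ' + ρ)] at a1
      rw [abs_mul, abs_of_pos hρ]
      nlinarith [abs_nonneg (Real.sin α)]
    have t1 : |mgc c (Dv (c (x (cl' s))) (c (y (cl' s))))| ≤ (2 + √2) * η := by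
      have a1 : |mgc c (Cv (c (-y (cl' s))) (c (-x (cl' s)))) -
          mgc c (Dv (c (x (cl' s))) (c (y (cl' s))))| ≤ (2 + √2) * η := by
        have := abs_sub_le (mgc c (Cv (c (-y (cl' s))) (c (-x (cl' s)))))
          (mgc c (conj (Dv (c (x (cl' s))) (c (y (cl' s))))))
          (mgc c (Dv (c (x (cl' s))) (c (y (cl' s)))))
        linarith
      rw [g2, g3] at a1
      rw [g3]
      rw [show ρ' * -Real.cos α - ρ * Real.cos α = -((ρ' + ρ) * Real.cos α) by ring, abs_neg,
        abs_mul, abs_of_pos (by linarith : 0 < ρ' + ρ)] at a1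
      rw [abs_mul, abs_of_pos hρ]
      nlinarith [abs_nonneg (Real.cos α)]
    have := hfar _ (m s)
    rw [← mgc_abs, ← mgc_abs] at this
    exact absurd this (not_lt.2 (max_le t1 t2))
  have cosm : ∀ j : ℤ, Real.cos ((j : ℝ) * (2 * Real.pi) - Real.pi) = -1 := by
    intro j
    rw [Real.cos_sub_pi, Real.cos_int_mul_two_pi]
  -- the two ends
  obtain ⟨a, a1, a2⟩ : ∃ a : ℤ, (a : ℝ) * (2 * Real.pi) + Real.pi < θ (x 0) (y 0) ∧
      θ (x 0) (y 0) < a * (2 * Real.pi) + 3 / 2 * Real.pi := by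
    obtain ⟨ρ, hρ, f1, f2⟩ := A.ex _ _ (hxy 0 (by norm_num)).1 (hxy 0 (by norm_num)).2
    have g1 : mgc c (Dv (c (x 0)) (c (y 0))) = ρ * Real.cos (θ (x 0) (y 0)) := f1
    have g2 : mgc c (Cv (c (x 0)) (c (y 0))) = ρ * Real.sin (θ (x 0) (y 0)) := f2
    refine third ?_ ?_
    · by_contra hcon
      push Not at hcon
      have := mul_nonneg hρ.le hcon
      linarith [s0.1]
    · by_contra hcon
      push Not at hcon
      have := mul_nonneg hρ.le hcon
      linarith [s0.2]
  obtain ⟨b, b1, b2⟩ : ∃ a : ℤ, (a : ℝ) * (2 * Real.pi) + Real.pi < θ (x 1) (y 1) ∧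
      θ (x 1) (y 1) < a * (2 * Real.pi) + 3 / 2 * Real.pi := by
    obtain ⟨ρ, hρ, f1, f2⟩ := A.ex _ _ (hxy 1 (by norm_num)).1 (hxy 1 (by norm_num)).2
    have g1 : mgc c (Dv (c (x 1)) (c (y 1))) = ρ * Real.cos (θ (x 1) (y 1)) := f1
    have g2 : mgc c (Cv (c (x 1)) (c (y 1))) = ρ * Real.sin (θ (x 1) (y 1)) := f2
    refine third ?_ ?_
    · by_contra hcon
      push Not at hcon
      have := mul_nonneg hρ.le hcon
      linarith [s1.1]
    · by_contra hcon
      push Not at hcon
      have := mul_nonneg hρ.le hcon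
      linarith [s1.2]
  have h0 : h 0 = 2 * θ (x 0) (y 0) - Real.pi / 2 := by
    rw [hh]
    simp only [cl0]
    rw [show -y 0 = x 0 by linarith, show -x 0 = y 0 by linarith]
    ring
  have h1 : h 1 = 2 * θ (x 1) (y 1) - g * (2 * Real.pi) - Real.pi / 2 := by
    rw [hh]
    simp only [cl1]
    have hp := A.per (-y 1) (-x 1) (by have := (hxy 1 (by norm_num)).1; linarith)
      (by have := (hxy 1 (by norm_num)).2; linarith)
    rw [show -y 1 + 1 = x 1 by linarith, show -x 1 + 1 = y 1 by linarith] at hp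
    linarith
  have heq : 2 * a + 1 = 2 * b + 1 - g := by
    rcases lt_trichotomy (2 * a + 1) (2 * b + 1 - g) with hlt | he | hgt
    · exfalso
      have h2 : 2 * a + 1 + 1 ≤ 2 * b + 1 - g := hlt
      have h3 : (((2 * a + 1 + 1 : ℤ)) : ℝ) ≤ ((2 * b + 1 - g : ℤ) : ℝ) := by exact_mod_cast h2
      push_cast at h3
      obtain ⟨s, hs'⟩ : (((2 * a + 2 : ℤ)) : ℝ) * (2 * Real.pi) - Real.pi ∈ range h :=
        mem_range_of_exists_le_of_exists_ge ch ⟨0, by rw [h0]; push_cast; linarith⟩
          ⟨1, by rw [h1]; push_cast; nlinarith⟩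
      exact key s (by rw [hs']; exact cosm _)
    · exact he
    · exfalso
      have h2 : 2 * b + 1 - g + 1 ≤ 2 * a + 1 := hgt
      have h3 : (((2 * b + 1 - g + 1 : ℤ)) : ℝ) ≤ ((2 * a + 1 : ℤ) : ℝ) := by exact_mod_cast h2
      push_cast at h3
      obtain ⟨s, hs'⟩ : (((2 * b + 2 - g : ℤ)) : ℝ) * (2 * Real.pi) - Real.pi ∈ range h :=
        mem_range_of_exists_le_of_exists_ge ch ⟨1, by rw [h1]; push_cast; linarith⟩
          ⟨0, by rw [h0]; push_cast; nlinarith⟩
      exact key s (by rw [hs']; exact cosm _)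
  have g5 : g = 2 * (b - a) := by omega
  rw [g5] at ho
  exact (Int.not_even_iff_odd.2 ho) (even_two_mul _)

end Pool.Agent.H834Q
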