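import Pool.Agent.H834Q.Sym

/-! Jordan curves near centrally symmetric Jordan curves. -/

set_option autoImplicit false
open Complex Set Topology Metric

namespace Pool.Agent.H834Q

open Pool.Agent.H763R2 Pool.Agent.H763R2.An
open Pool.Agent.H763R2.Sq (Dv Cv)
open Pool.Agent.H763R2.Dm (NoSq)

variable {c q : ℝ → ℂ}

theorem eqmod (hper : ∀ t, c (t + 1) = c t) (hinj : InjOn c (Ico 0 1)) {a b : ℝ} (h : c a = c b) :
    ∃ n : ℤ, b = a + n := by
  have hfr : ∀ s, c s = c (Int.fract s) := by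
    intro s
    have hperz : Function.Periodic c 1 := hper
    have := hperz.sub_zsmul_eq (x := s) ⌊s⌋
    rw [← this]
    congr 1
    show s - ⌊s⌋ • (1:ℝ) = s - ⌊s⌋
    rw [zsmul_eq_mul, mul_one]
  rw [hfr a, hfr b] at h
  have h := hinj ⟨Int.fract_nonneg a, Int.fract_lt_one a⟩ ⟨Int.fract_nonneg b, Int.fract_lt_one b⟩ h
  refine ⟨⌊b⌋ - ⌊a⌋, ?_⟩
  have h1 := Int.self_sub_floor a
  have h2 := Int.self_sub_floor b
  push_cast
  linarith

theorem inj_of (hper : ∀ t, c (t + 1) = c t) (hinj : InjOn c (Ico 0 1)) : Inj c := by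
  intro x y hx hy h
  obtain ⟨n, hn⟩ := eqmod hper hinj h
  have h4 : (0 : ℝ) < n := by linarith
  have h5 : (n : ℝ) < 1 := by linarith
  have h6 : 0 < n := by exact_mod_cast h4
  have h7 : n < 1 := by exact_mod_cast h5
  omega

/-- all inscribed squares: one vertex and the vector from it to the next vertex -/
def Squares (C : Set ℂ) : Set (ℂ × ℂ) :=
  {s | s.2 ≠ 0 ∧ s.1 ∈ C ∧ s.1 + s.2 ∈ C ∧ s.1 + s.2 + I * s.2 ∈ C ∧ s.1 + I * s.2 ∈ C}

theorem not_countable_of (hper : ∀ t, c (t + 1) = c t) (hinj : InjOn c (Ico 0 1))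
    (h : ∀ δ ∈ Ioo (0:ℝ) 1, ∃ t, Dv (c t) (c (t + δ)) ∈ range c ∧ Cv (c t) (c (t + δ)) ∈ range c) :
    ¬ (Squares (range c)).Countable := by
  intro hc
  have J := inj_of hper hinj
  choose! f hf using h
  have hmaps : ∀ δ ∈ Ioo (0:ℝ) 1, (c (f δ), c (f δ + δ) - c (f δ)) ∈ Squares (range c) := by
    intro δ hδ
    obtain ⟨h1, h2⟩ := hf δ hδ
    refine ⟨?_, mem_range_self _, ?_, ?_, ?_⟩
    · exact sub_ne_zero.2 (J _ _ (by linarith [hδ.1]) (by linarith [hδ.2])).symm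
    · simp
    · simp only [add_sub_cancel]; exact h2
    · exact h1
  have hinj' : InjOn (fun δ => (c (f δ), c (f δ + δ) - c (f δ))) (Ioo (0:ℝ) 1) := by
    intro δ hδ δ' hδ' he
    simp only [Prod.mk.injEq] at he
    obtain ⟨e1, e2⟩ := he
    rw [e1] at e2
    have e3 : c (f δ + δ) = c (f δ' + δ') := by
      have := congrArg (fun w => w + c (f δ')) e2
      simpa using this
    obtain ⟨n, hn⟩ := eqmod hper hinj e1
    obtain ⟨m, hm⟩ := eqmod hper hinj e3
    have e4 : δ' = δ + ((m - n : ℤ) : ℝ) := by push_cast; linarith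
    have h5 : ((m - n : ℤ) : ℝ) < 1 := by linarith [hδ.1, hδ'.2]
    have h6 : (-1 : ℝ) < ((m - n : ℤ) : ℝ) := by linarith [hδ.2, hδ'.1]
    have h7 : m - n < 1 := by exact_mod_cast h5
    have h8 : -1 < m - n := by exact_mod_cast h6
    have h9 : m - n = 0 := by omega
    rw [h9] at e4
    simpa using e4.symm
  have hcount : (Ioo (0:ℝ) 1).Countable := MapsTo.countable_of_injOn hmaps hinj' hc
  rw [← Cardinal.le_aleph0_iff_set_countable, Cardinal.mk_Ioo_real zero_lt_one] at hcount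
  exact absurd hcount (not_le.2 Cardinal.aleph0_lt_continuum)

theorem near {c₀ : ℝ → ℂ} (L₀ : Loop c₀) {p : ℂ} (hs : ∀ t, c₀ (t + 1 / 2) = 2 * p - c₀ t) {δ : ℝ}
    (hδ : δ ∈ Ioo (0:ℝ) 1)
    (hn : ∀ t, ¬ (Dv (c₀ t) (c₀ (t + δ)) ∈ range c₀ ∧ Cv (c₀ t) (c₀ (t + δ)) ∈ range c₀)) :
    ∃ ε > 0, ∀ c : ℝ → ℂ, Loop c → Inj c → (∀ t, ‖c t - c₀ t‖ ≤ ε) → ¬ NoSq (range c) := by
  have hc₀ := L₀.cont
  have h2 : √2 < 1.42 := by
    rw [Real.sqrt_lt' (by norm_num)]; norm_num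
  obtain ⟨φ, hφ⟩ : ∃ φ : ℝ → ℝ, φ = fun t => max (infDist (Dv (c₀ t) (c₀ (t + δ))) (range c₀))
    (infDist (Cv (c₀ t) (c₀ (t + δ))) (range c₀)) := ⟨_, rfl⟩
  have cφ : Continuous φ := by
    rw [hφ]
    unfold Dv Cv
    exact ((continuous_infDist_pt _).comp (by fun_prop)).max
      ((continuous_infDist_pt _).comp (by fun_prop))
  have pφ : ∀ t, 0 < φ t := by
    intro t
    rw [hφ]
    by_contra hcon
    push Not at hcon
    refine hn t ⟨?_, ?_⟩
    · rw [L₀.closed.mem_iff_infDist_zero L₀.ne]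
      exact le_antisymm ((le_max_left _ _).trans hcon) infDist_nonneg
    · rw [L₀.closed.mem_iff_infDist_zero L₀.ne]
      exact le_antisymm ((le_max_right _ _).trans hcon) infDist_nonneg
  obtain ⟨t₀, -, ht₀⟩ := isCompact_Icc.exists_isMinOn (s := Icc (0:ℝ) 1) ⟨0, by norm_num⟩
    cφ.continuousOn
  refine ⟨φ t₀ / 11, div_pos (pφ _) (by norm_num), fun c L J hc => ?_⟩
  set ε := φ t₀ / 11 with hε
  have ε0 : 0 < ε := div_pos (pφ _) (by norm_num)
  have hφε : φ t₀ = 11 * ε := by rw [hε]; ring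
  refine core L J (p := p) (η := 2 * ε) (fun t => ?_) (x := fun s => s / 2)
    (y := fun s => s / 2 + δ) (by fun_prop) (by fun_prop) (fun s _ => ⟨by linarith [hδ.1],
      by linarith [hδ.2]⟩) (by norm_num) (by ring) (fun s hs' => ?_)
  · rw [show c (t + 1 / 2) + c t - 2 * p = (c (t + 1 / 2) - c₀ (t + 1 / 2)) + (c t - c₀ t) by
      rw [hs t]; ring]
    refine (norm_add_le _ _).trans ?_
    linarith [hc t, hc (t + 1 / 2)]
  · have hmin : φ t₀ ≤ φ (s / 2) := ht₀ (show s / 2 ∈ Icc (0:ℝ) 1 from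
      ⟨by linarith [hs'.1], by linarith [hs'.2]⟩)
    have hη : (0:ℝ) ≤ ε := ε0.le
    have hclose : ∀ z, infDist z (range c₀) ≤ infDist z (range c) + ε :=
      infDist_close (c := c) (q := c₀) (fun t => by rw [norm_sub_rev]; exact hc t)
    have h1 : ‖(1 - I : ℂ)‖ = √2 := by
      rw [Complex.norm_def, Complex.normSq_apply]
      congr 1
      simp
      norm_num
    have h1' : ‖(1 + I : ℂ)‖ = √2 := by
      rw [Complex.norm_def, Complex.normSq_apply]
      congr 1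
      simp
      norm_num
    have hD : ‖Dv (c₀ (s / 2)) (c₀ (s / 2 + δ)) - Dv (c (s / 2)) (c (s / 2 + δ))‖ ≤ (1 + √2) * ε := by
      rw [show Dv (c₀ (s / 2)) (c₀ (s / 2 + δ)) - Dv (c (s / 2)) (c (s / 2 + δ)) =
        (1 - I) * (-(c (s / 2) - c₀ (s / 2))) + I * (-(c (s / 2 + δ) - c₀ (s / 2 + δ))) by
          unfold Dv; ring]
      refine (norm_add_le _ _).trans ?_
      rw [norm_mul, norm_mul, h1, norm_I, norm_neg, norm_neg]
      nlinarith [mul_le_mul_of_nonneg_left (hc (s / 2)) (Real.sqrt_nonneg 2), hc (s / 2 + δ)]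
    have hC : ‖Cv (c₀ (s / 2)) (c₀ (s / 2 + δ)) - Cv (c (s / 2)) (c (s / 2 + δ))‖ ≤ (1 + √2) * ε := by
      rw [show Cv (c₀ (s / 2)) (c₀ (s / 2 + δ)) - Cv (c (s / 2)) (c (s / 2 + δ)) =
        (1 + I) * (-(c (s / 2 + δ) - c₀ (s / 2 + δ))) + (-I) * (-(c (s / 2) - c₀ (s / 2))) by
          unfold Cv; ring]
      refine (norm_add_le _ _).trans ?_
      rw [norm_mul, norm_mul, h1', norm_neg, norm_neg, norm_neg, norm_I]
      nlinarith [mul_le_mul_of_nonneg_left (hc (s / 2 + δ)) (Real.sqrt_nonneg 2), hc (s / 2)]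
    have kD := infDist_le_infDist_add_dist (s := range c₀)
      (x := Dv (c₀ (s / 2)) (c₀ (s / 2 + δ))) (y := Dv (c (s / 2)) (c (s / 2 + δ)))
    have kC := infDist_le_infDist_add_dist (s := range c₀)
      (x := Cv (c₀ (s / 2)) (c₀ (s / 2 + δ))) (y := Cv (c (s / 2)) (c (s / 2 + δ)))
    rw [dist_eq_norm] at kD kC
    have lD := hclose (Dv (c (s / 2)) (c (s / 2 + δ)))
    have lC := hclose (Cv (c (s / 2)) (c (s / 2 + δ)))
    have hb : (2 + √2) * (2 * ε) < 11 * ε - (2 + √2) * ε := by nlinarith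
    rw [hφε] at hmin
    rw [hφ] at hmin
    simp only at hmin ⊢
    rcases le_max_iff.1 hmin with h | h
    · refine lt_max_of_lt_left ?_
      linarith
    · refine lt_max_of_lt_right ?_
      linarith

end Pool.Agent.H834Q
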