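import Pool.Agent.H834Q.Avoid

/-! Jordan curves near symmetric Jordan curves with countably many inscribed squares. -/

set_option autoImplicit false
open Complex Set Topology Metric
open scoped ComplexConjugate

namespace Pool.Agent.H834Q

open Pool.Agent.H763R2 Pool.Agent.H763R2.An
open Pool.Agent.H763R2.Sq (Dv Cv)
open Pool.Agent.H763R2.Dm (NoSq)

variable {c q : ℝ → ℂ}

theorem real_ends (L : Loop c) (hs : ∀ t, c (-t) = conj (c t)) : (c 0).im = 0 ∧ (c (1 / 2)).im = 0 := by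
  constructor
  · have := hs 0
    rw [neg_zero] at this
    exact conj_eq_iff_im.1 this.symm
  · have h1 := hs (1 / 2)
    have h2 := L.per (-(1 / 2))
    rw [show -(1 / 2 : ℝ) + 1 = 1 / 2 by ring] at h2
    rw [← h2] at h1
    exact conj_eq_iff_im.1 h1.symm

theorem reduce (L : Loop c) (hs : ∀ t, c (-t) = conj (c t)) (t : ℝ) :
    ∃ t' ∈ Icc (0:ℝ) (1 / 2), c t = c t' ∨ c t = conj (c t') := by
  have hf : c t = c (Int.fract t) := by
    have := L.per_int (Int.fract t) ⌊t⌋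
    rw [Int.fract_add_floor] at this
    exact this
  have h0 := Int.fract_nonneg t
  have h1 := (Int.fract_lt_one t).le
  rcases le_total (Int.fract t) (1 / 2) with h | h
  · exact ⟨_, ⟨h0, h⟩, Or.inl hf⟩
  · refine ⟨1 - Int.fract t, ⟨by linarith, by linarith⟩, Or.inr ?_⟩
    rw [← hs, hf, show -(1 - Int.fract t) = Int.fract t - 1 by ring]
    have := L.per (Int.fract t - 1)
    rw [sub_add_cancel] at this
    exact this

/-- the chord with a far square in an axially symmetric curve whose first half is in the upper half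
plane -/
theorem ends (L : Loop c) (hs : ∀ t, c (-t) = conj (c t))
    (hpos : ∀ t ∈ Ioo (0:ℝ) (1 / 2), 0 < (c t).im) :
    (∃ a ∈ Ioo (0:ℝ) (1 / 2), mgc c (Dv (c (-a)) (c a)) < 0 ∧ mgc c (Cv (c (-a)) (c a)) < 0) ∧
    (∃ b ∈ Ioo (0:ℝ) (1 / 2), mgc c (Dv (c b) (c (1 - b))) < 0 ∧
      mgc c (Cv (c b) (c (1 - b))) < 0) := by
  have hc := L.cont
  obtain ⟨i0, i1⟩ := real_ends L hs
  obtain ⟨t₁, ht₁, hm₁⟩ := isCompact_Icc.exists_isMaxOn (s := Icc (0:ℝ) (1 / 2))
    ⟨0, by norm_num⟩ (f := fun t => (c t).im) (by fun_prop)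
  obtain ⟨Y, hY⟩ : ∃ Y, Y = (c t₁).im := ⟨_, rfl⟩
  have hle : ∀ t ∈ Icc (0:ℝ) (1 / 2), (c t).im ≤ Y := fun t ht => by rw [hY]; exact hm₁ ht
  have Y0 : 0 < Y := (hpos (1 / 4) (by constructor <;> norm_num)).trans_le
    (hle (1 / 4) (by constructor <;> norm_num))
  have hnn : ∀ t ∈ Icc (0:ℝ) (1 / 2), 0 ≤ (c t).im := by
    intro t ht
    rcases eq_or_lt_of_le ht.1 with h | h
    · rw [← h, i0]
    · rcases eq_or_lt_of_le ht.2 with h' | h'
      · rw [h', i1]
      · exact (hpos t ⟨h, h'⟩).le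
  have hall : ∀ t, (c t).im ≤ Y := by
    intro t
    obtain ⟨t', ht', h | h⟩ := reduce L hs t
    · rw [h]; exact hle t' ht'
    · rw [h, conj_im]; linarith [hnn t' ht']
  have htop : ∀ t, (c t).im = Y → ∃ t' ∈ Icc (0:ℝ) (1 / 2), c t = c t' ∧ (c t').im = Y := by
    intro t ht
    obtain ⟨t', ht', h | h⟩ := reduce L hs t
    · exact ⟨t', ht', h, by rw [← h]; exact ht⟩
    · exfalso
      rw [h, conj_im] at ht
      linarith [hnn t' ht']
  obtain ⟨K, hK⟩ : ∃ K : Set ℝ, K = Icc (0:ℝ) (1 / 2) ∩ {t | (c t).im = Y} := ⟨_, rfl⟩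
  have Kc : IsCompact K := by
    rw [hK]
    exact isCompact_Icc.inter_right (isClosed_eq (by fun_prop) continuous_const)
  have Kn : K.Nonempty := by rw [hK]; exact ⟨t₁, ht₁, hY.symm⟩
  have Kint : ∀ t ∈ K, t ∈ Ioo (0:ℝ) (1 / 2) := by
    intro t ht
    rw [hK] at ht
    obtain ⟨⟨h1, h2⟩, h3⟩ := ht
    have h3' : (c t).im = Y := h3
    refine ⟨lt_of_le_of_ne h1 fun h => ?_, lt_of_le_of_ne h2 fun h => ?_⟩
    · rw [← h, i0] at h3'; linarith
    · rw [h, i1] at h3'; linarith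
  have hsym0 : ∀ z, mgc c (conj z) = mgc c z := by
    intro z
    have := mgc_symL L (η := 0) (fun t => by rw [hs t]; simp) z
    have h2 := abs_nonpos_iff.1 this
    linarith
  constructor
  · obtain ⟨a, ha, hmin⟩ := Kc.exists_isMinOn Kn (f := fun t => (c t).re) (by fun_prop)
    have haK := ha
    rw [hK] at haK
    have haY : (c a).im = Y := haK.2
    refine ⟨a, Kint a ha, ?_⟩
    have eD : Dv (c (-a)) (c a) = conj (c a - 2 * Y) := by
      rw [hs a]
      unfold Dv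
      apply Complex.ext
      · simp [haY]; ring
      · simp
    have eC : Cv (c (-a)) (c a) = c a - 2 * Y := by
      rw [hs a]
      unfold Cv
      apply Complex.ext
      · simp [haY]; ring
      · simp
    have hneg : mgc c (c a - 2 * Y) < 0 := by
      refine lt_of_le_of_ne (mgc_topY L hall ?_) ?_
      · simp [haY]
      · intro h0
        rw [(mgc_sg L).zero L] at h0
        obtain ⟨t, ht⟩ := h0
        have h1 : (c t).im = Y := by rw [ht]; simp [haY]
        obtain ⟨t', ht', e, e'⟩ := htop t h1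
        have h2 : (c a).re ≤ (c t').re := hmin (show t' ∈ K by rw [hK]; exact ⟨ht', e'⟩)
        rw [← e, ht] at h2
        simp at h2
        linarith
    rw [eD, eC, hsym0]
    exact ⟨hneg, hneg⟩
  · obtain ⟨b, hb, hmax⟩ := Kc.exists_isMaxOn Kn (f := fun t => (c t).re) (by fun_prop)
    have hbK := hb
    rw [hK] at hbK
    have hbY : (c b).im = Y := hbK.2
    have h1b : c (1 - b) = conj (c b) := by
      rw [← hs b, ← L.per (-b)]
      congr 1
      ring
    refine ⟨b, Kint b hb, ?_⟩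
    have eD : Dv (c b) (c (1 - b)) = c b + 2 * Y := by
      rw [h1b]
      unfold Dv
      apply Complex.ext
      · simp [hbY]; ring
      · simp
    have eC : Cv (c b) (c (1 - b)) = conj (c b + 2 * Y) := by
      rw [h1b]
      unfold Cv
      apply Complex.ext
      · simp [hbY]; ring
      · simp
    have hneg : mgc c (c b + 2 * Y) < 0 := by
      refine lt_of_le_of_ne (mgc_topY L hall ?_) ?_
      · simp [hbY]
      · intro h0
        rw [(mgc_sg L).zero L] at h0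
        obtain ⟨t, ht⟩ := h0
        have h1 : (c t).im = Y := by rw [ht]; simp [hbY]
        obtain ⟨t', ht', e, e'⟩ := htop t h1
        have h2 : (c t').re ≤ (c b).re := hmax (show t' ∈ K by rw [hK]; exact ⟨ht', e'⟩)
        rw [← e, ht] at h2
        simp at h2
        linarith
    rw [eD, eC, hsym0]
    exact ⟨hneg, hneg⟩

set_option maxHeartbeats 4000000 in
theorem nearL_pos {c₀ : ℝ → ℂ} (L₀ : Loop c₀) (hs : ∀ t, c₀ (-t) = conj (c₀ t))
    (hpos : ∀ t ∈ Ioo (0:ℝ) (1 / 2), 0 < (c₀ t).im) (hZ : (Zc c₀).Countable) :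
    ∃ ε > 0, ∀ c : ℝ → ℂ, Loop c → Inj c → (∀ t, ‖c t - c₀ t‖ ≤ ε) → ¬ NoSq (range c) := by
  have hc₀ := L₀.cont
  have h2 : √2 < 1.42 := by
    rw [Real.sqrt_lt' (by norm_num)]; norm_num
  obtain ⟨⟨a, ha, a1, a2⟩, ⟨b, hb, b1, b2⟩⟩ := ends L₀ hs hpos
  have haU : ((-a, a) : ℝ × ℝ) ∈ UU := ⟨by simp only; linarith [ha.1], by simp only; linarith [ha.2]⟩
  have hbU : ((b, 1 - b) : ℝ × ℝ) ∈ UU :=
    ⟨by simp only; linarith [hb.2], by simp only; linarith [hb.1]⟩
  have haZ : ((-a, a) : ℝ × ℝ) ∉ Zc c₀ := by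
    rintro ⟨-, h, -⟩
    rw [← (mgc_sg L₀).zero L₀] at h
    simp only at h
    linarith
  have hbZ : ((b, 1 - b) : ℝ × ℝ) ∉ Zc c₀ := by
    rintro ⟨-, h, -⟩
    rw [← (mgc_sg L₀).zero L₀] at h
    simp only at h
    linarith
  obtain ⟨p, hp, p0, p1, hpZ⟩ := path_avoid hZ haU hbU haZ hbZ
  have hp1 : Continuous fun s => (p s).1 := continuous_fst.comp hp
  have hp2 : Continuous fun s => (p s).2 := continuous_snd.comp hp
  obtain ⟨φ, hφ⟩ : ∃ φ : ℝ → ℝ, φ = fun s =>
    max (infDist (Dv (c₀ (p s).1) (c₀ (p s).2)) (range c₀))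
      (infDist (Cv (c₀ (p s).1) (c₀ (p s).2)) (range c₀)) := ⟨_, rfl⟩
  have cφ : Continuous φ := by
    rw [hφ]
    unfold Dv Cv
    exact ((continuous_infDist_pt _).comp (by fun_prop)).max
      ((continuous_infDist_pt _).comp (by fun_prop))
  have pφ : ∀ t, 0 < φ t := by
    intro t
    rw [hφ]
    by_contra hcon
    push Not at hcon
    refine (hpZ t).2 ⟨(hpZ t).1, ?_, ?_⟩
    · rw [L₀.closed.mem_iff_infDist_zero L₀.ne]
      exact le_antisymm ((le_max_left _ _).trans hcon) infDist_nonneg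
    · rw [L₀.closed.mem_iff_infDist_zero L₀.ne]
      exact le_antisymm ((le_max_right _ _).trans hcon) infDist_nonneg
  obtain ⟨t₀, -, ht₀⟩ := isCompact_Icc.exists_isMinOn (s := Icc (0:ℝ) 1) ⟨0, by norm_num⟩
    cφ.continuousOn
  obtain ⟨ε, hε0, e1, e2, e3, e4, e5⟩ : ∃ ε : ℝ, 0 < ε ∧ 11 * ε ≤ φ t₀ ∧
      11 * ε ≤ -mgc c₀ (Dv (c₀ (-a)) (c₀ a)) ∧ 11 * ε ≤ -mgc c₀ (Cv (c₀ (-a)) (c₀ a)) ∧
      11 * ε ≤ -mgc c₀ (Dv (c₀ b) (c₀ (1 - b))) ∧ 11 * ε ≤ -mgc c₀ (Cv (c₀ b) (c₀ (1 - b))) := by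
    obtain ⟨μ, hμ⟩ : ∃ μ : ℝ, μ = min (φ t₀) (min (-mgc c₀ (Dv (c₀ (-a)) (c₀ a)))
      (min (-mgc c₀ (Cv (c₀ (-a)) (c₀ a))) (min (-mgc c₀ (Dv (c₀ b) (c₀ (1 - b))))
        (-mgc c₀ (Cv (c₀ b) (c₀ (1 - b))))))) := ⟨_, rfl⟩
    have hμ0 : 0 < μ := by
      rw [hμ]
      exact lt_min (pφ _) (lt_min (by linarith) (lt_min (by linarith) (lt_min (by linarith)
        (by linarith))))
    refine ⟨μ / 11, by positivity, ?_, ?_, ?_, ?_, ?_⟩ <;>
      rw [show 11 * (μ / 11) = μ by ring, hμ]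
    · exact min_le_left _ _
    · exact (min_le_right _ _).trans (min_le_left _ _)
    · exact (min_le_right _ _).trans ((min_le_right _ _).trans (min_le_left _ _))
    · exact (min_le_right _ _).trans ((min_le_right _ _).trans ((min_le_right _ _).trans
        (min_le_left _ _)))
    · exact (min_le_right _ _).trans ((min_le_right _ _).trans ((min_le_right _ _).trans
        (min_le_right _ _)))
  refine ⟨ε, hε0, fun c L J hc => ?_⟩
  have hmg : ∀ z w, ‖z - w‖ ≤ (1 + √2) * ε → mgc c w ≤ mgc c₀ z + (2 + √2) * ε := by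
    intro z w h
    have k1 := (abs_le.1 (mgc_close' L₀ L hc w)).2
    have k2 := (abs_le.1 ((mgc_sg L₀).lip z w)).1
    linarith
  have hclose : ∀ z, infDist z (range c₀) ≤ infDist z (range c) + ε :=
    infDist_close (c := c) (q := c₀) (fun t => by rw [norm_sub_rev]; exact hc t)
  refine coreL L J (η := 2 * ε) (fun t => ?_) (x := fun s => (p s).1) (y := fun s => (p s).2)
    hp1.continuousOn hp2.continuousOn (fun s _ => (hpZ s).1) (by rw [p0]; simp) (by rw [p1]; simp)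
    (fun s hs' => ?_) ?_ ?_
  · rw [show c (-t) - conj (c t) = (c (-t) - c₀ (-t)) - conj (c t - c₀ t) by
      rw [hs t, map_sub]; ring]
    refine (norm_sub_le _ _).trans ?_
    rw [norm_conj]
    linarith [hc t, hc (-t)]
  · have hmin : φ t₀ ≤ φ s := ht₀ hs'
    obtain ⟨hD, hC⟩ := vclose (hc (p s).1) (hc (p s).2)
    have kD := infDist_le_infDist_add_dist (s := range c₀)
      (x := Dv (c₀ (p s).1) (c₀ (p s).2)) (y := Dv (c (p s).1) (c (p s).2))
    have kC := infDist_le_infDist_add_dist (s := range c₀)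
      (x := Cv (c₀ (p s).1) (c₀ (p s).2)) (y := Cv (c (p s).1) (c (p s).2))
    rw [dist_eq_norm] at kD kC
    have lD := hclose (Dv (c (p s).1) (c (p s).2))
    have lC := hclose (Cv (c (p s).1) (c (p s).2))
    have hb' : (2 + √2) * (2 * ε) < 11 * ε - (2 + √2) * ε := by nlinarith
    rw [hφ] at hmin e1
    simp only at hmin ⊢
    rcases le_max_iff.1 (e1.trans hmin) with h | h
    · refine lt_max_of_lt_left ?_
      linarith
    · refine lt_max_of_lt_right ?_
      linarith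
  · simp only [p0]
    obtain ⟨hD, hC⟩ := vclose (hc (-a)) (hc a)
    have k1 := hmg _ _ hD
    have k2 := hmg _ _ hC
    constructor <;> nlinarith
  · simp only [p1]
    obtain ⟨hD, hC⟩ := vclose (hc b) (hc (1 - b))
    have k1 := hmg _ _ hD
    have k2 := hmg _ _ hC
    constructor <;> nlinarith

end Pool.Agent.H834Q
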