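import Pool.Agent.H834Q.Merge

/-! Colourings computed with bounded memory. -/

set_option autoImplicit false
open Finset

namespace Pool.Agent.H834Q

variable {Q : Type} {r : ℕ}

/-- the state after reading the digits number `π 0, …, π (t - 1)` of all the `r` vertices -/
def run (δ : ℕ → Q → (Fin r → Bool) → Q) (q₀ : Q) (π : ℕ → ℕ) (v : Fin r → ℕ) : ℕ → Q
  | 0 => q₀
  | t + 1 => δ t (run δ q₀ π v t) (fun i => (v i).testBit (π t))

/-- the letters which occur on threshold vertices -/
def lett (r l : ℕ) : Fin r → Bool := fun j => decide (r ≤ (j : ℕ) + l)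

/-- the effect of reading `d` times the letter number `l` from time `p` on -/
def tr (δ : ℕ → Q → (Fin r → Bool) → Q) (l p : ℕ) : ℕ → Q → Q
  | 0 => id
  | d + 1 => fun x => δ (p + d) (tr δ l p d x) (lett r l)

theorem tr_add (δ : ℕ → Q → (Fin r → Bool) → Q) (l p d d' : ℕ) (x : Q) :
    tr δ l p (d + d') x = tr δ l (p + d) d' (tr δ l p d x) := by
  induction d' with
  | zero => rfl
  | succ d' ih =>
    show δ (p + (d + d')) (tr δ l p (d + d') x) (lett r l) =
      δ (p + d + d') (tr δ l (p + d) d' (tr δ l p d x)) (lett r l)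
    rw [ih, add_assoc]

theorem run_const {δ : ℕ → Q → (Fin r → Bool) → Q} {q₀ : Q} {π : ℕ → ℕ} {v : Fin r → ℕ} {l p d : ℕ}
    (h : ∀ t, p ≤ t → t < p + d → (fun i => (v i).testBit (π t)) = lett r l) :
    run δ q₀ π v (p + d) = tr δ l p d (run δ q₀ π v p) := by
  induction d with
  | zero => rfl
  | succ d ih =>
    show δ (p + d) (run δ q₀ π v (p + d)) (fun i => (v i).testBit (π (p + d))) =
      δ (p + d) (tr δ l p d (run δ q₀ π v p)) (lett r l)
    rw [ih (fun t h1 h2 => h t h1 (by omega)), h (p + d) (by omega) (by omega)]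

theorem run_const' {δ : ℕ → Q → (Fin r → Bool) → Q} {q₀ : Q} {π : ℕ → ℕ} {v : Fin r → ℕ}
    {l p q : ℕ} (hpq : p ≤ q)
    (h : ∀ t, p ≤ t → t < q → (fun i => (v i).testBit (π t)) = lett r l) :
    run δ q₀ π v q = tr δ l p (q - p) (run δ q₀ π v p) := by
  obtain ⟨d, rfl⟩ := Nat.exists_eq_add_of_le hpq
  rw [Nat.add_sub_cancel_left]
  exact run_const h

open Classical in
/-- threshold vertices: the digits number `π t`, `t ≥ i`, are `1` -/
noncomputable def th (π : ℕ → ℕ) (m i : ℕ) : ℕ :=
  Nat.ofBits (fun j : Fin m => decide (∃ t, i ≤ t ∧ t < m ∧ π t = j))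

theorem th_lt (π : ℕ → ℕ) (m i : ℕ) : th π m i < 2 ^ m := Nat.ofBits_lt_two_pow _

open Classical in
theorem th_bit {π : ℕ → ℕ} {m i t : ℕ} (hπ : ∀ t < m, π t < m)
    (hinj : ∀ s < m, ∀ t < m, π s = π t → s = t) (ht : t < m) :
    (th π m i).testBit (π t) = decide (i ≤ t) := by
  unfold th
  rw [Nat.testBit_ofBits_lt _ _ (hπ t ht)]
  by_cases h : i ≤ t
  · rw [decide_eq_true h]
    simp only [decide_eq_true_eq]
    exact ⟨t, h, ht, rfl⟩
  · rw [decide_eq_false h]
    simp only [decide_eq_false_iff_not]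
    rintro ⟨s, h1, h2, h3⟩
    have := hinj s h2 t ht h3
    omega

open Classical in
theorem th_le {π : ℕ → ℕ} {m i i' : ℕ} (h : i ≤ i') : th π m i' ≤ th π m i := by
  have e : th π m i' &&& th π m i = th π m i' := by
    apply Nat.eq_of_testBit_eq
    intro j
    rw [Nat.testBit_and]
    by_cases hj : j < m
    · unfold th
      rw [Nat.testBit_ofBits_lt _ _ hj, Nat.testBit_ofBits_lt _ _ hj]
      by_cases h1 : ∃ t, i' ≤ t ∧ t < m ∧ π t = ((⟨j, hj⟩ : Fin m) : ℕ)
      · obtain ⟨t, h2, h3, h4⟩ := h1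
        have h5 : ∃ t, i ≤ t ∧ t < m ∧ π t = ((⟨j, hj⟩ : Fin m) : ℕ) := ⟨t, by omega, h3, h4⟩
        have h6 : ∃ t, i' ≤ t ∧ t < m ∧ π t = ((⟨j, hj⟩ : Fin m) : ℕ) := ⟨t, h2, h3, h4⟩
        rw [decide_eq_true h5, decide_eq_true h6]
        rfl
      · rw [decide_eq_false h1]
        rfl
    · have h2 : (th π m i').testBit j = false :=
        Nat.testBit_lt_two_pow ((th_lt π m i').trans_le (Nat.pow_le_pow_right (by norm_num) (by omega)))
      rw [h2]
      rfl
  rw [← e]
  exact Nat.and_le_right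

theorem th_lt_iff {π : ℕ → ℕ} {m i i' : ℕ} (hπ : ∀ t < m, π t < m)
    (hinj : ∀ s < m, ∀ t < m, π s = π t → s = t) (hi : i < m) :
    th π m i' < th π m i ↔ i < i' := by
  constructor
  · intro h
    by_contra hcon
    exact absurd h (not_lt.2 (th_le (by omega)))
  · intro h
    refine lt_of_le_of_ne (th_le h.le) fun he => ?_
    have h1 := th_bit (i := i) hπ hinj hi
    have h2 := th_bit (i := i') hπ hinj hi
    rw [he, h1] at h2
    simp at h2
    omega

/-- the colour of every `r`-subset of `{0, …, 2 ^ m - 1}` is a function of the state reached by the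
program on the list of its elements in increasing order -/
def Computed {κ : Type} (r m : ℕ) (Q : Type) (c : Finset ℕ → κ)
    (δ : ℕ → Q → (Fin r → Bool) → Q) (q₀ : Q) (π : ℕ → ℕ) (g : Q → κ) : Prop :=
  ∀ v : Fin r → ℕ, StrictMono v → (∀ i, v i < 2 ^ m) → c (univ.image v) = g (run δ q₀ π v m)

/-- on the positions of `P`, the program behaves in a constant way on threshold vertices -/
structure Const (r m : ℕ) (Q : Type) (δ : ℕ → Q → (Fin r → Bool) → Q) (q₀ : Q)
    (P : Finset ℕ) (x : ℕ → Q) (k : ℕ) : Prop where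
  zero : ∀ p ∈ P, tr δ 0 0 p q₀ = x 0
  succ : ∀ l < k, ∀ p ∈ P, ∀ q ∈ P, p < q → tr δ (l + 1) p (q - p) (x l) = x (l + 1)

/-- the colour of the sets of threshold vertices with thresholds in a set `P` on which the
program behaves in a constant way -/
theorem colour_const {κ : Type} {m : ℕ} {c : Finset ℕ → κ}
    {δ : ℕ → Q → (Fin (r + 1) → Bool) → Q} {q₀ : Q} {π : ℕ → ℕ} {g : Q → κ}
    (hπ : ∀ t < m, π t < m) (hinj : ∀ s < m, ∀ t < m, π s = π t → s = t)
    (hc : Computed (r + 1) m Q c δ q₀ π g) {P : Finset ℕ} (hPm : ∀ p ∈ P, p ≤ m)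
    {x : ℕ → Q} {y : Q} (hx : Const (r + 1) m Q δ q₀ P x r)
    (hy : ∀ p ∈ P, tr δ (r + 1) p (m - p) (x r) = y)
    (i : Fin (r + 1) → ℕ) (hi : StrictAnti i) (hiP : ∀ j, i j ∈ P) :
      c (univ.image (fun j => th π m (i j))) = g y := by
  set v : Fin (r + 1) → ℕ := fun j => th π m (i j) with hv
  have him : ∀ j, i j ≤ m := fun j => hPm _ (hiP j)
  have hvm : StrictMono v := by
    intro j j' hjj
    have h1 := hi hjj
    exact (th_lt_iff hπ hinj (by have := him j; omega)).2 h1
  rw [hc v hvm (fun j => th_lt _ _ _)]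
  congr 1
  -- the thresholds in increasing order
  obtain ⟨τ, hτ⟩ : ∃ τ : ℕ → ℕ, τ = fun l => if h : l < r + 1 then i ⟨r - l, by omega⟩ else m :=
    ⟨_, rfl⟩
  have τi : ∀ l, (h : l < r + 1) → τ l = i ⟨r - l, by omega⟩ := by
    intro l h
    rw [hτ]
    simp only
    rw [dif_pos h]
  have τP : ∀ l < r + 1, τ l ∈ P := by
    intro l hl
    rw [τi l hl]; exact hiP _
  have τlt : ∀ l l', l < l' → l' < r + 1 → τ l < τ l' := by
    intro l l' h1 h2
    rw [τi l (by omega), τi l' h2]
    apply hi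
    rw [Fin.mk_lt_mk]
    omega
  -- the letters
  have hlet : ∀ l ≤ r + 1, ∀ t, (0 < l → τ (l - 1) ≤ t) → (l < r + 1 → t < τ l) → t < m →
      (fun j => (v j).testBit (π t)) = lett (r + 1) l := by
    intro l hl t h1 h2 htm
    funext j
    rw [hv]
    simp only
    rw [th_bit hπ hinj htm]
    unfold lett
    have hij : i j = τ (r - j) := by
      rw [τi (r - j) (by omega)]
      congr 1
      apply Fin.ext
      simp only
      omega
    rw [hij]
    congr 1
    apply propext
    constructor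
    · intro h3
      by_contra h4
      have h5 := h2 (by omega)
      rcases Nat.eq_or_lt_of_le (show l ≤ r - j by omega) with h6 | h6
      · rw [← h6] at h3; omega
      · have := τlt l (r - j) h6 (by omega)
        omega
    · intro h3
      have h5 := h1 (by omega)
      rcases Nat.eq_or_lt_of_le (show r - j ≤ l - 1 by omega) with h6 | h6
      · rw [h6]; exact h5
      · have := τlt (r - j) (l - 1) h6 (by omega)
        omega
  have hE' : ∀ l, l < r + 1 → run δ q₀ π v (τ l) = x l := by
    intro l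
    induction l with
    | zero =>
      intro hl
      rw [run_const' (l := 0) (Nat.zero_le (τ 0)) (fun t _ h2 => hlet 0 (Nat.zero_le _) t
        (fun h => absurd h (lt_irrefl _)) (fun _ => h2) (by
          have := hPm _ (τP 0 hl)
          omega)), Nat.sub_zero]
      exact hx.zero _ (τP 0 hl)
    | succ l ih =>
      intro hl
      have hlt := τlt l (l + 1) (by omega) hl
      rw [run_const' (l := l + 1) hlt.le (fun t h1 h2 => hlet (l + 1) (by omega) t
        (fun _ => by rwa [Nat.add_sub_cancel]) (fun _ => h2) (by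
          have := hPm _ (τP (l + 1) hl)
          omega)), ih (by omega)]
      exact hx.succ l (by omega) _ (τP l (by omega)) _ (τP (l + 1) hl) hlt
  rw [run_const' (l := r + 1) (hPm _ (τP r (by omega))) (fun t h1 h2 => hlet (r + 1) le_rfl t
    (fun _ => by rwa [Nat.add_sub_cancel]) (fun h => absurd h (lt_irrefl _)) h2),
    hE' r (by omega)]
  exact hy _ (τP r (by omega))

/-- All `r`-subsets of `S` have the same colour. -/
def Homog {κ : Type} (r : ℕ) (c : Finset ℕ → κ) (S : Finset ℕ) : Prop :=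
  ∀ A ⊆ S, ∀ B ⊆ S, A.card = r → B.card = r → c A = c B

theorem homog_of {κ : Type} {m n : ℕ} {c : Finset ℕ → κ}
    {δ : ℕ → Q → (Fin (r + 1) → Bool) → Q} {q₀ : Q} {π : ℕ → ℕ} {g : Q → κ}
    (hπ : ∀ t < m, π t < m) (hinj : ∀ s < m, ∀ t < m, π s = π t → s = t)
    (hc : Computed (r + 1) m Q c δ q₀ π g) {P : Finset ℕ} (hPm : ∀ p ∈ P, p ≤ m)
    (hPc : n ≤ P.card) {x : ℕ → Q} {y : Q} (hx : Const (r + 1) m Q δ q₀ P x r)
    (hy : ∀ p ∈ P, tr δ (r + 1) p (m - p) (x r) = y) :
    ∃ S ⊆ range (2 ^ m), S.card = n ∧ Homog (r + 1) c S := by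
  have hthinj : Set.InjOn (th π m) P := by
    intro i hi i' hi' h
    have h1 := hPm i hi
    have h2 := hPm i' hi'
    by_contra hne'
    rcases lt_or_gt_of_ne hne' with h3 | h3
    · have := (th_lt_iff (i' := i') hπ hinj (show i < m by omega)).2 h3
      omega
    · have := (th_lt_iff (i' := i) hπ hinj (show i' < m by omega)).2 h3
      omega
  obtain ⟨S, hS, hSc⟩ := exists_subset_card_eq (s := P.image (th π m)) (n := n) (by
    rw [card_image_of_injOn hthinj]; exact hPc)
  refine ⟨S, ?_, hSc, ?_⟩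
  · intro a ha
    obtain ⟨i, -, rfl⟩ := mem_image.1 (hS ha)
    exact mem_range.2 (th_lt _ _ _)
  · have key : ∀ A ⊆ S, A.card = r + 1 → c A = g y := by
      intro A hA hAr
      have hex : ∀ j : Fin (r + 1), ∃ i ∈ P, th π m i = A.orderEmbOfFin hAr j := by
        intro j
        have := hS (hA (A.orderEmbOfFin_mem hAr j))
        obtain ⟨i, hi, h⟩ := mem_image.1 this
        exact ⟨i, hi, h⟩
      choose i hi hth using hex
      have e1 : A = univ.image (fun j => th π m (i j)) := by
        have h1 : (fun j => th π m (i j)) = fun j => A.orderEmbOfFin hAr j := funext hth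
        rw [h1]
        ext a
        rw [mem_image]
        constructor
        · intro ha
          have : a ∈ Set.range (A.orderEmbOfFin hAr) := by
            rw [A.range_orderEmbOfFin hAr]; exact ha
          obtain ⟨j, hj⟩ := this
          exact ⟨j, mem_univ _, hj⟩
        · rintro ⟨j, -, rfl⟩
          exact A.orderEmbOfFin_mem hAr j
      rw [e1]
      refine colour_const hπ hinj hc hPm hx hy i ?_ hi
      intro j j' hjj
      have h1 : A.orderEmbOfFin hAr j < A.orderEmbOfFin hAr j' := (A.orderEmbOfFin hAr).strictMono hjj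
      rw [← hth, ← hth] at h1
      by_contra hcon
      exact absurd h1 (not_lt.2 (th_le (by omega)))
    intro A hA B hB hAr hBr
    rw [key A hA hAr, key B hB hBr]

end Pool.Agent.H834Q
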