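import Pool.Agent.H763R2.An.Re

/-! Nearly centrally symmetric Jordan curves: the winding number of the pair of signed distances is
even. -/

set_option autoImplicit false
open Complex Set Topology Metric

namespace Pool.Agent.H834Q

open Pool.Agent.H763R2 Pool.Agent.H763R2.An
open Pool.Agent.H763R2.Sq (Dv Cv)
open Pool.Agent.H763R2.Dm (NoSq)

variable {c q : ℝ → ℂ}

/-- sharp comparison of the signed distances of close curves -/
theorem mgc_close' (L : Loop c) (L' : Loop q) {ε : ℝ} (h : ∀ t, ‖q t - c t‖ ≤ ε) (z : ℂ) :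
    |mgc q z - mgc c z| ≤ ε := by
  have hc := L.cont
  have hq := L'.cont
  by_cases hex : ∃ s ∈ Icc (0:ℝ) 1, ∃ t, z = c t + s * (q t - c t)
  · obtain ⟨s, ⟨s0, s1⟩, t, hz⟩ := hex
    have h1 : |mgc c z| ≤ s * ‖q t - c t‖ := by
      rw [mgc_abs]
      refine (infDist_le_dist_of_mem (mem_range_self t)).trans ?_
      rw [dist_eq_norm, hz, show c t + s * (q t - c t) - c t = s * (q t - c t) by ring, norm_mul,
        norm_real, Real.norm_of_nonneg s0]
    have h2 : |mgc q z| ≤ (1 - s) * ‖q t - c t‖ := by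
      rw [mgc_abs]
      refine (infDist_le_dist_of_mem (mem_range_self t)).trans ?_
      rw [dist_eq_norm, hz, show c t + s * (q t - c t) - q t = -(((1 - s : ℝ) : ℂ) * (q t - c t)) by
        push_cast; ring, norm_neg, norm_mul, norm_real, Real.norm_of_nonneg (by linarith)]
    have h3 := h t
    rw [abs_le] at h1 h2 ⊢
    constructor <;> nlinarith
  · push Not at hex
    have hne : ∀ s t : ℝ, (c t + (cl s 1 : ℝ) * (q t - c t)) - z ≠ 0 := by
      intro s t h0
      refine hex (cl s 1) ⟨le_max_left _ _, max_le zero_le_one (min_le_left _ _)⟩ t ?_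
      linear_combination -h0
    have hc1 : c 1 = c 0 := by have := L.per 0; rwa [zero_add] at this
    have hq1 : q 1 = q 0 := by have := L'.per 0; rwa [zero_add] at this
    have c0 : cl 0 1 = 0 := cl_lo zero_le_one le_rfl
    have c1 : cl 1 1 = 1 := cl_hi zero_le_one le_rfl
    have hF : Continuous fun p : ℝ × ℝ => (c p.2 + (cl p.1 1 : ℝ) * (q p.2 - c p.2)) - z := by
      unfold cl; fun_prop
    have hiff : ∀ n, IsWc c z n → IsWc q z n := by
      rintro n ⟨k, hk, ek, e⟩
      obtain ⟨k', hk', ek'⟩ := H777R2.exists_log (X := ℝ) (g := fun t => q t - z)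
        (by fun_prop) (fun t => by
          have := hne 1 t
          rw [c1] at this
          intro h0
          apply this
          push_cast
          linear_combination h0)
      refine ⟨k', hk', ek', ?_⟩
      rw [← e]
      exact (homW (F := fun s t => (c t + (cl s 1 : ℝ) * (q t - c t)) - z) hF
        (fun s => by simp only [hc1, hq1])
        hne hk (fun t => by rw [ek, c0]; push_cast; ring) hk' (fun t => by
          rw [ek', c1]; push_cast; ring)).symm
    have hzc : z ∉ range c := by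
      rintro ⟨t, rfl⟩
      have := hne 0 t
      rw [c0] at this
      simp at this
    have he : Odc q z ↔ Odc c z := by
      obtain ⟨n, hn⟩ := L.exW hzc
      have hw := hiff n hn
      constructor
      · rintro ⟨m, hm, ho⟩
        rw [hm.unique hw] at ho
        exact ⟨n, hn, ho⟩
      · rintro ⟨m, hm, ho⟩
        rw [hm.unique hn] at ho
        exact ⟨n, hw, ho⟩
    have i1 := infDist_close h z
    have i2 := infDist_close (c := q) (q := c) (fun t => by rw [norm_sub_rev]; exact h t) z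
    unfold mgc
    by_cases o : Odc c z
    · rw [if_pos o, if_pos (he.2 o), abs_le]
      constructor <;> linarith
    · rw [if_neg o, if_neg (fun h => o (he.1 h)), abs_le]
      constructor <;> linarith

/-- the signed distance of the reflected point -/
theorem mgc_refl (L : Loop c) (p z : ℂ) (s : ℝ) :
    mgc (fun t => 2 * p - c (t + s)) z = mgc c (2 * p - z) := by
  have hc := L.cont
  have hr : range (fun t => 2 * p - c (t + s)) = (fun w => 2 * p - w) '' range c := by
    apply Subset.antisymm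
    · rintro _ ⟨t, rfl⟩; exact ⟨_, mem_range_self _, rfl⟩
    · rintro _ ⟨_, ⟨t, rfl⟩, rfl⟩; exact ⟨t - s, by simp⟩
  have hd : infDist z (range (fun t => 2 * p - c (t + s))) = infDist (2 * p - z) (range c) := by
    rw [hr]
    have hiso : Isometry (fun w : ℂ => 2 * p - w) := Isometry.of_dist_eq fun a b => by
      rw [dist_eq_norm, dist_eq_norm, show 2 * p - a - (2 * p - b) = -(a - b) by ring, norm_neg]
    have := Metric.infDist_image (x := 2 * p - z) (t := range c) hiso
    rw [← this]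
    congr 1
    ring
  have hn : Odc (fun t => 2 * p - c (t + s)) z ↔ Odc c (2 * p - z) := by
    constructor
    · rintro ⟨n, ⟨k, hk, ek, e⟩, ho⟩
      refine ⟨n, ⟨fun t => k (t - s) + Real.pi * I, by fun_prop, fun t => ?_, ?_⟩, ho⟩
      · rw [exp_add, ek, exp_pi_mul_I]
        simp only [sub_add_cancel]
        ring
      · have hz' : ∀ t, exp (k t) ≠ 0 := fun t => exp_ne_zero _
        have := H777R2.exp_const (X := ℝ) (k := fun t => k (t + 1) - k t) (by fun_prop) (c := 1)
          (fun t => by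
            rw [exp_sub, ek, ek]
            have h1 := L.per (t + s)
            simp only
            rw [show t + 1 + s = t + s + 1 by ring, h1]
            refine div_self ?_
            have := hz' t
            rwa [ek] at this) (-s) 0
        simp only [zero_add] at this
        rw [← e, ← this]
        simp only
        rw [show (1 - s) = -s + 1 by ring, show (0 - s) = -s by ring]
        ring
    · rintro ⟨n, ⟨k, hk, ek, e⟩, ho⟩
      refine ⟨n, ⟨fun t => k (t + s) + Real.pi * I, by fun_prop, fun t => ?_, ?_⟩, ho⟩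
      · rw [exp_add, ek, exp_pi_mul_I]
        ring
      · have hz' : ∀ t, exp (k t) ≠ 0 := fun t => exp_ne_zero _
        have := H777R2.exp_const (X := ℝ) (k := fun t => k (t + 1) - k t) (by fun_prop) (c := 1)
          (fun t => by
            rw [exp_sub, ek, ek]
            have h1 := L.per t
            rw [h1]
            refine div_self ?_
            have := hz' t
            rwa [ek] at this) s 0
        simp only [zero_add] at this
        rw [← e, ← this]
        simp only
        rw [show (1 + s) = s + 1 by ring, show (0 + s) = s by ring]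
        ring
  unfold mgc
  rw [hd]
  by_cases o : Odc c (2 * p - z)
  · rw [if_pos o, if_pos (hn.2 o)]
  · rw [if_neg o, if_neg (fun h => o (hn.1 h))]

/-- on a nearly centrally symmetric curve the signed distance is nearly symmetric -/
theorem mgc_sym (L : Loop c) {p : ℂ} {η : ℝ} (hs : ∀ t, ‖c (t + 1 / 2) + c t - 2 * p‖ ≤ η) (z : ℂ) :
    |mgc c (2 * p - z) - mgc c z| ≤ η := by
  have L' : Loop (fun t => 2 * p - c (t + 1 / 2)) := by
    have hc := L.cont
    refine ⟨by fun_prop, fun t => ?_⟩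
    have := L.per (t + 1 / 2)
    rw [show t + 1 + 1 / 2 = t + 1 / 2 + 1 by ring, this]
  rw [← mgc_refl L p z (1 / 2)]
  refine mgc_close' L L' (fun t => ?_) z
  rw [show 2 * p - c (t + 1 / 2) - c t = -(c (t + 1 / 2) + c t - 2 * p) by ring, norm_neg]
  exact hs t

theorem vert {A B A' B' p : ℂ} {η : ℝ} (hA : ‖A' + A - 2 * p‖ ≤ η) (hB : ‖B' + B - 2 * p‖ ≤ η) :
    ‖Dv A' B' - (2 * p - Dv A B)‖ ≤ (1 + √2) * η ∧ ‖Cv A' B' - (2 * p - Cv A B)‖ ≤ (1 + √2) * η := by
  have hη : 0 ≤ η := (norm_nonneg _).trans hA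
  have h1 : ‖(1 - I : ℂ)‖ = √2 := by
    rw [Complex.norm_def, Complex.normSq_apply]
    congr 1
    simp
    norm_num
  have h2 : ‖(1 + I : ℂ)‖ = √2 := by
    rw [Complex.norm_def, Complex.normSq_apply]
    congr 1
    simp
    norm_num
  constructor
  · rw [show Dv A' B' - (2 * p - Dv A B) = (1 - I) * (A' + A - 2 * p) + I * (B' + B - 2 * p) by
      unfold Dv; ring]
    refine (norm_add_le _ _).trans ?_
    rw [norm_mul, norm_mul, h1, norm_I]
    nlinarith [mul_le_mul_of_nonneg_left hA (Real.sqrt_nonneg 2)]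
  · rw [show Cv A' B' - (2 * p - Cv A B) = (1 + I) * (B' + B - 2 * p) + (-I) * (A' + A - 2 * p) by
      unfold Cv; ring]
    refine (norm_add_le _ _).trans ?_
    rw [norm_mul, norm_mul, h2, norm_neg, norm_I]
    nlinarith [mul_le_mul_of_nonneg_left hB (Real.sqrt_nonneg 2)]

/-- the main lemma -/
theorem core (L : Loop c) (J : Inj c) {p : ℂ} {η : ℝ}
    (hs : ∀ t, ‖c (t + 1 / 2) + c t - 2 * p‖ ≤ η) {x y : ℝ → ℝ}
    (hx : ContinuousOn x (Icc 0 1)) (hy : ContinuousOn y (Icc 0 1))
    (hxy : ∀ s ∈ Icc (0:ℝ) 1, x s < y s ∧ y s < x s + 1)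
    (ex : x 1 = x 0 + 1 / 2) (ey : y 1 = y 0 + 1 / 2)
    (hfar : ∀ s ∈ Icc (0:ℝ) 1, (2 + √2) * η <
      max (infDist (Dv (c (x s)) (c (y s))) (range c)) (infDist (Cv (c (x s)) (c (y s))) (range c))) :
    ¬ NoSq (range c) := by
  intro nosq
  have hπ := Real.pi_pos
  obtain ⟨θ, g, A, ho⟩ := exists_odd L J nosq
  obtain ⟨cl', hcl⟩ : ∃ cl' : ℝ → ℝ, cl' = fun s => max 0 (min 1 s) := ⟨_, rfl⟩
  have ccl : Continuous cl' := by rw [hcl]; fun_prop
  have m : ∀ s, cl' s ∈ Set.Icc (0:ℝ) 1 := fun s => by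
    rw [hcl]; exact ⟨le_max_left _ _, max_le zero_le_one (min_le_left _ _)⟩
  have cl0 : cl' 0 = 0 := by simp [hcl]
  have cl1 : cl' 1 = 1 := by simp [hcl]
  have cx : Continuous fun s => x (cl' s) := hx.comp_continuous ccl m
  have cy : Continuous fun s => y (cl' s) := hy.comp_continuous ccl m
  have c1 : Continuous fun s => θ (x (cl' s)) (y (cl' s)) :=
    A.path (p := fun s => (x (cl' s), y (cl' s))) (cx.prodMk cy)
      (fun s => ⟨(hxy _ (m s)).1, (hxy _ (m s)).2⟩)
  have c2 : Continuous fun s => θ (x (cl' s) + 1 / 2) (y (cl' s) + 1 / 2) :=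
    A.path (p := fun s => (x (cl' s) + 1 / 2, y (cl' s) + 1 / 2))
      ((cx.add continuous_const).prodMk (cy.add continuous_const))
      (fun s => ⟨by have := (hxy _ (m s)).1; simp only; linarith,
        by have := (hxy _ (m s)).2; simp only; linarith⟩)
  obtain ⟨h, hh⟩ : ∃ h : ℝ → ℝ, h = fun s => θ (x (cl' s) + 1 / 2) (y (cl' s) + 1 / 2) -
    θ (x (cl' s)) (y (cl' s)) := ⟨_, rfl⟩
  have ch : Continuous h := by rw [hh]; exact c2.sub c1
  have key : ∀ s, Real.cos (h s) ≠ -1 := by
    intro s hc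
    obtain ⟨u1, u2⟩ := hxy _ (m s)
    obtain ⟨ρ, hρ, f1, f2⟩ := A.ex _ _ u1 u2
    obtain ⟨ρ', hρ', f1', f2'⟩ := A.ex (x (cl' s) + 1 / 2) (y (cl' s) + 1 / 2) (by linarith)
      (by linarith)
    set α := θ (x (cl' s)) (y (cl' s)) with hα
    set β := θ (x (cl' s) + 1 / 2) (y (cl' s) + 1 / 2) with hβ
    have hβα : β = h s + α := by rw [hh]; simp only [← hα, ← hβ]; ring
    have hsin : Real.sin (h s) = 0 := by
      have := Real.sin_sq_add_cos_sq (h s)
      rw [hc] at this
      nlinarith [sq_nonneg (Real.sin (h s))]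
    have e1 : Real.cos β = - Real.cos α := by
      rw [hβα, Real.cos_add, hc, hsin]; ring
    have e2 : Real.sin β = - Real.sin α := by
      rw [hβα, Real.sin_add, hc, hsin]; ring
    rw [e1] at f1'
    rw [e2] at f2'
    obtain ⟨v1, v2⟩ := vert (hs (x (cl' s))) (hs (y (cl' s)))
    have w1 := (mgc_sg L).lip (Dv (c (x (cl' s) + 1 / 2)) (c (y (cl' s) + 1 / 2)))
      (2 * p - Dv (c (x (cl' s))) (c (y (cl' s))))
    have w2 := (mgc_sg L).lip (Cv (c (x (cl' s) + 1 / 2)) (c (y (cl' s) + 1 / 2)))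
      (2 * p - Cv (c (x (cl' s))) (c (y (cl' s))))
    have r1 := mgc_sym L hs (Dv (c (x (cl' s))) (c (y (cl' s))))
    have r2 := mgc_sym L hs (Cv (c (x (cl' s))) (c (y (cl' s))))
    have g1 : mgc c (Dv (c (x (cl' s) + 1 / 2)) (c (y (cl' s) + 1 / 2))) = ρ' * -Real.cos α := f1'
    have g2 : mgc c (Cv (c (x (cl' s) + 1 / 2)) (c (y (cl' s) + 1 / 2))) = ρ' * -Real.sin α := f2'
    have g3 : mgc c (Dv (c (x (cl' s))) (c (y (cl' s)))) = ρ * Real.cos α := f1
    have g4 : mgc c (Cv (c (x (cl' s))) (c (y (cl' s)))) = ρ * Real.sin α := f2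
    have t1 : |mgc c (Dv (c (x (cl' s))) (c (y (cl' s))))| ≤ (2 + √2) * η := by
      have a1 : |mgc c (Dv (c (x (cl' s) + 1 / 2)) (c (y (cl' s) + 1 / 2))) -
          mgc c (Dv (c (x (cl' s))) (c (y (cl' s))))| ≤ (2 + √2) * η := by
        have := abs_sub_le (mgc c (Dv (c (x (cl' s) + 1 / 2)) (c (y (cl' s) + 1 / 2))))
          (mgc c (2 * p - Dv (c (x (cl' s))) (c (y (cl' s)))))
          (mgc c (Dv (c (x (cl' s))) (c (y (cl' s)))))
        linarith
      rw [g1, g3] at a1
      rw [g3]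
      rw [show ρ' * -Real.cos α - ρ * Real.cos α = -((ρ' + ρ) * Real.cos α) by ring, abs_neg,
        abs_mul, abs_of_pos (by linarith : 0 < ρ' + ρ)] at a1
      rw [abs_mul, abs_of_pos hρ]
      nlinarith [abs_nonneg (Real.cos α)]
    have t2 : |mgc c (Cv (c (x (cl' s))) (c (y (cl' s))))| ≤ (2 + √2) * η := by
      have a1 : |mgc c (Cv (c (x (cl' s) + 1 / 2)) (c (y (cl' s) + 1 / 2))) -
          mgc c (Cv (c (x (cl' s))) (c (y (cl' s))))| ≤ (2 + √2) * η := by
        have := abs_sub_le (mgc c (Cv (c (x (cl' s) + 1 / 2)) (c (y (cl' s) + 1 / 2))))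
          (mgc c (2 * p - Cv (c (x (cl' s))) (c (y (cl' s)))))
          (mgc c (Cv (c (x (cl' s))) (c (y (cl' s)))))
        linarith
      rw [g2, g4] at a1
      rw [g4]
      rw [show ρ' * -Real.sin α - ρ * Real.sin α = -((ρ' + ρ) * Real.sin α) by ring, abs_neg,
        abs_mul, abs_of_pos (by linarith : 0 < ρ' + ρ)] at a1
      rw [abs_mul, abs_of_pos hρ]
      nlinarith [abs_nonneg (Real.sin α)]
    have := hfar _ (m s)
    rw [← mgc_abs, ← mgc_abs] at this
    exact absurd this (not_lt.2 (max_le t1 t2))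
  obtain ⟨k, hk⟩ : ∃ k : ℤ, k = ⌊(h 0 + Real.pi) / (2 * Real.pi)⌋ := ⟨_, rfl⟩
  have k1 : (k : ℝ) * (2 * Real.pi) ≤ h 0 + Real.pi := by
    have := Int.floor_le ((h 0 + Real.pi) / (2 * Real.pi))
    rw [← hk, le_div_iff₀ (by positivity)] at this
    exact this
  have k2 : h 0 + Real.pi < (k + 1) * (2 * Real.pi) := by
    have := Int.lt_floor_add_one ((h 0 + Real.pi) / (2 * Real.pi))
    rw [← hk, div_lt_iff₀ (by positivity)] at this
    exact this
  have cosm : ∀ j : ℤ, Real.cos ((j : ℝ) * (2 * Real.pi) - Real.pi) = -1 := by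
    intro j
    rw [Real.cos_sub_pi, Real.cos_int_mul_two_pi]
  have k3 : h 1 + Real.pi < (k + 1) * (2 * Real.pi) := by
    by_contra hc
    push Not at hc
    obtain ⟨s, hs'⟩ : (((k + 1 : ℤ)) : ℝ) * (2 * Real.pi) - Real.pi ∈ range h :=
      mem_range_of_exists_le_of_exists_ge ch ⟨0, by push_cast; linarith⟩ ⟨1, by push_cast; linarith⟩
    exact key s (by rw [hs']; exact cosm _)
  have k4 : (k : ℝ) * (2 * Real.pi) < h 1 + Real.pi := by
    by_contra hc
    push Not at hc
    obtain ⟨s, hs'⟩ : (k : ℝ) * (2 * Real.pi) - Real.pi ∈ range h :=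
      mem_range_of_exists_le_of_exists_ge ch ⟨1, by linarith⟩ ⟨0, by linarith⟩
    exact key s (by rw [hs']; exact cosm _)
  have e0 : h 0 + h 1 = g * (2 * Real.pi) := by
    have hp := A.per (x 0) (y 0) (hxy 0 (by norm_num)).1 (hxy 0 (by norm_num)).2
    rw [hh]
    simp only [cl0, cl1, ex, ey]
    rw [show x 0 + 1 / 2 + 1 / 2 = x 0 + 1 by ring, show y 0 + 1 / 2 + 1 / 2 = y 0 + 1 by ring, hp]
    ring
  have g1 : ((2 * k - 1 : ℤ) : ℝ) < g := by
    push_cast
    have : ((2 * k - 1 : ℝ)) * (2 * Real.pi) < g * (2 * Real.pi) := by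
      rw [← e0]; linarith
    exact lt_of_mul_lt_mul_right this (by positivity)
  have g2 : (g : ℝ) < ((2 * k + 1 : ℤ) : ℝ) := by
    push_cast
    have : (g : ℝ) * (2 * Real.pi) < ((2 * k + 1 : ℝ)) * (2 * Real.pi) := by
      rw [← e0]; linarith
    exact lt_of_mul_lt_mul_right this (by positivity)
  have g3 : 2 * k - 1 < g := by exact_mod_cast g1
  have g4 : g < 2 * k + 1 := by exact_mod_cast g2
  have g5 : g = 2 * k := by omega
  rw [g5] at ho
  exact (Int.not_even_iff_odd.2 ho) (even_two_mul k)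

end Pool.Agent.H834Q
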