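import Pool.Agent.H877R3.Join.Final
import Pool.Agent.H834Q.EthB
import Pool.Agent.H529R3.Lev.Defs

/-!
# All levels of the space-time hierarchy relative to the join of two oracles
-/

set_option autoImplicit false

namespace Pool.Agent.H834Q.TJ

open Pool.Agent.NPC Pool.Agent.H620R2.Gauge Pool.Agent.H877R3.Join Pool.Agent.H622R2 Finset
open H529R3.Lev (tow tow_mono le_tow absorb grow Padded IsTime IsSpace)

/-- A family of oracles meeting countably many requirements for every pair, two of them having at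
most one common string of each length. -/
theorem buildG {ι : Type} [Countable ι] [Nonempty ι] (F : ι → Oracle → Oracle → Prop)
    (hstage : ∀ (r : ι) (X Y : Oracle) (N : ℕ), ∃ (n : ℕ) (S T : Finset (Fin n → Bool)) (N' : ℕ),
      N ≤ n ∧ n < N' ∧ (S ∩ T).card ≤ 1 ∧ ∀ X' Y' : Oracle,
        (∀ z : List Bool, z.length < N' → X' z = put n S X z) →
        (∀ z : List Bool, z.length < N' → Y' z = put n T Y z) → F r X' Y') :
    ∃ X : ℕ → Oracle, (∀ i j : ℕ, i ≠ j → ∀ z z' : List Bool, z.length = z'.length →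
      X i z = true → X j z = true → X i z' = true → X j z' = true → z = z') ∧
      ∀ i j : ℕ, i ≠ j → ∀ r : ι, F r (X i) (X j) := by
  classical
  have hnext : ∀ (s : St) (q : ℕ × ℕ × ι), ∃ s' : St, s.N < s'.N ∧
      (∀ (k : ℕ) (z : List Bool), z.length < s.N → s'.X k z = s.X k z) ∧
      (q.1 ≠ q.2.1 → ∀ X' Y' : Oracle,
        (∀ z : List Bool, z.length < s'.N → X' z = s'.X q.1 z) →
        (∀ z : List Bool, z.length < s'.N → Y' z = s'.X q.2.1 z) → F q.2.2 X' Y') := by
    rintro s ⟨i, j, r⟩
    by_cases hij : i = j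
    · exact ⟨⟨s.X, s.N + 1, fun i z hz => s.zero i z (by omega), s.uniq⟩, Nat.lt_succ_self _,
        fun _ _ _ => rfl, fun h => absurd hij h⟩
    obtain ⟨n, S, T, N', h1, h2, h3, h4⟩ := hstage r (s.X i) (s.X j) s.N
    set X' : ℕ → Oracle := fun k => if k = i then put n S (s.X i) else
      if k = j then put n T (s.X j) else s.X k with hX'
    have ei : X' i = put n S (s.X i) := by rw [hX']; simp
    have ej : X' j = put n T (s.X j) := by rw [hX']; simp [Ne.symm hij]
    have ek : ∀ k, k ≠ i → k ≠ j → X' k = s.X k := by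
      intro k a b
      rw [hX']
      simp [a, b]
    have hne : ∀ (k : ℕ) (z : List Bool), z.length ≠ n → X' k z = s.X k z := by
      intro k z hz
      by_cases ki : k = i
      · rw [ki, ei, put_ne hz]
      · by_cases kj : k = j
        · rw [kj, ej, put_ne hz]
        · rw [ek k ki kj]
    refine ⟨⟨X', N', ?_, ?_⟩, by show s.N < N'; omega, ?_, ?_⟩
    · intro k z hz
      rw [hne k z (by omega)]
      exact s.zero k z (by omega)
    · intro a b hab z z' hzz g1 g2 g3 g4
      by_cases hz : z.length = n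
      · have hmem : ∀ k, X' k z = true → k = i ∨ k = j := by
          intro k hk
          by_contra hcon
          push Not at hcon
          rw [ek k hcon.1 hcon.2, s.zero k z (by omega)] at hk
          exact absurd hk (by simp)
        have hz' : z'.length = n := by omega
        have fin : X' i z = true → X' j z = true → X' i z' = true → X' j z' = true → z = z' := by
          intro q1 q2 q3 q4
          rw [ei] at q1 q3
          rw [ej] at q2 q4
          obtain ⟨f, hf, rfl⟩ := (put_eq hz).1 q1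
          obtain ⟨f', hf', rfl⟩ := (put_eq hz').1 q3
          have r1 := (put_ofFn f).1 q2
          have r2 := (put_ofFn f').1 q4
          have := Finset.card_le_one.1 h3 f (mem_inter.2 ⟨hf, r1⟩) f' (mem_inter.2 ⟨hf', r2⟩)
          rw [this]
        rcases hmem a g1 with rfl | rfl <;> rcases hmem b g2 with rfl | rfl
        · exact absurd rfl hab
        · exact fin g1 g2 g3 g4
        · exact fin g2 g1 g4 g3
        · exact absurd rfl hab
      · rw [hne a z hz] at g1
        rw [hne b z hz] at g2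
        rw [hne a z' (by omega)] at g3
        rw [hne b z' (by omega)] at g4
        exact s.uniq a b hab z z' hzz g1 g2 g3 g4
    · intro k z hz
      exact hne k z (by omega)
    · intro _ A B hA hB
      refine h4 A B ?_ ?_
      · intro z hz
        rw [← ei]
        exact hA z hz
      · intro z hz
        rw [← ej]
        exact hB z hz
  obtain ⟨g, hg⟩ := exists_surjective_nat (ℕ × ℕ × ι)
  choose G hF1 hF2 hF3 using hnext
  let s0 : St := ⟨fun _ _ => false, 0, fun _ _ _ => rfl, fun _ _ _ _ _ _ h => by simp at h⟩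
  let sq : ℕ → St := fun k => Nat.rec s0 (fun k s => G s (g k)) k
  have hsq : ∀ k, sq (k + 1) = G (sq k) (g k) := fun k => rfl
  have hN : ∀ k, k ≤ (sq k).N := by
    intro k
    induction k with
    | zero => exact Nat.zero_le _
    | succ k ih =>
      rw [hsq]
      have := hF1 (sq k) (g k)
      omega
  have hmono : ∀ k l, k ≤ l → (sq k).N ≤ (sq l).N ∧
      ∀ (i : ℕ) (z : List Bool), z.length < (sq k).N → (sq l).X i z = (sq k).X i z := by
    intro k l hkl
    induction l, hkl using Nat.le_induction with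
    | base => exact ⟨le_rfl, fun _ _ _ => rfl⟩
    | succ l hkl ih =>
      have h1 := hF1 (sq l) (g l)
      refine ⟨by rw [hsq]; omega, fun i z hz => ?_⟩
      rw [hsq, hF2 (sq l) (g l) i z (by omega)]
      exact ih.2 i z hz
  set X : ℕ → Oracle := fun i z => (sq (z.length + 1)).X i z with hX
  have hlim : ∀ (k i : ℕ) (z : List Bool), z.length < (sq k).N → X i z = (sq k).X i z := by
    intro k i z hz
    rw [hX]
    rcases le_total (z.length + 1) k with h | h
    · have := hN (z.length + 1)
      exact ((hmono _ _ h).2 i z (by omega)).symm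
    · exact (hmono _ _ h).2 i z hz
  refine ⟨X, ?_, ?_⟩
  · intro i j hij z z' hzz g1 g2 g3 g4
    have e : (sq (z'.length + 1)) = sq (z.length + 1) := by rw [hzz]
    have g3' : (sq (z'.length + 1)).X i z' = true := g3
    have g4' : (sq (z'.length + 1)).X j z' = true := g4
    rw [e] at g3' g4'
    exact (sq (z.length + 1)).uniq i j hij z z' hzz g1 g2 g3' g4'
  · intro i j hij r
    obtain ⟨k, hk⟩ := hg (i, j, r)
    have h := hF3 (sq k) (g k)
    rw [hk] at h
    refine h hij (X i) (X j) (fun z hz => ?_) (fun z hz => ?_)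
    · have := hlim (k + 1) i z (by rw [hsq, hk]; exact hz)
      rw [this, hsq, hk]
    · have := hlim (k + 1) j z (by rw [hsq, hk]; exact hz)
      rw [this, hsq, hk]

/-- the input `1 ^ ℓ`, padded -/
def pad (m : ℕ) (p : Polynomial ℕ) (ℓ : ℕ) : List Bool :=
  pairBits (ones ℓ) (H529R3.Lev.ones (tow m (p.eval ℓ)))

theorem length_pad (m : ℕ) (p : Polynomial ℕ) (ℓ : ℕ) :
    (pad m p ℓ).length = 2 * ℓ + 1 + tow m (p.eval ℓ) := by
  unfold pad
  rw [Pool.Agent.H620R2.Gauge.length_pairBits, length_ones]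
  simp [H529R3.Lev.ones]

/-- everything is small -/
theorem small (M : Alg) (p pw : Polynomial ℕ) (m N : ℕ) : ∃ ℓ : ℕ, N ≤ ℓ ∧ 5 ≤ tow m ℓ ∧
    pw.eval (pad m p ℓ).length ≤ 2 ^ (tow m ℓ - 2) ∧
    M.p.eval (2 * (pad m p ℓ).length + 1 + pw.eval (pad m p ℓ).length) ≤ 2 ^ (tow m ℓ - 2) := by
  set P1 : Polynomial ℕ := pw.comp (Polynomial.C 3 * Polynomial.X + Polynomial.C 1) with hP1
  set P2 : Polynomial ℕ := M.p.comp (Polynomial.C 2 * (Polynomial.C 3 * Polynomial.X +
    Polynomial.C 1) + Polynomial.C 1 + P1) with hP2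
  obtain ⟨r, hr⟩ := absorb m (Polynomial.C 4 * (P1 + P2)) (p + Polynomial.X)
  obtain ⟨L, hL⟩ := Filter.eventually_atTop.1 (grow m r)
  set ℓ := max N (max L 5) with hℓ
  have hℓN : N ≤ ℓ := le_max_left _ _
  have hℓL : L ≤ ℓ := (le_max_left _ _).trans (le_max_right _ _)
  have hℓ5 : 5 ≤ ℓ := (le_max_right _ _).trans (le_max_right _ _)
  have h5 : 5 ≤ tow m ℓ := hℓ5.trans (le_tow m ℓ)
  have h1 := (hr ℓ).trans (hL ℓ hℓL)
  have hlen : (pad m p ℓ).length ≤ 3 * tow m ((p + Polynomial.X).eval ℓ) + 1 := by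
    rw [length_pad]
    have h2 : tow m (p.eval ℓ) ≤ tow m ((p + Polynomial.X).eval ℓ) :=
      tow_mono m (by rw [Polynomial.eval_add]; omega)
    have h3 : ℓ ≤ tow m ((p + Polynomial.X).eval ℓ) :=
      (show ℓ ≤ (p + Polynomial.X).eval ℓ by
        rw [Polynomial.eval_add, Polynomial.eval_X]; omega).trans (le_tow _ _)
    omega
  generalize tow m ((p + Polynomial.X).eval ℓ) = t at h1 hlen
  have e1 : P1.eval t = pw.eval (3 * t + 1) := by
    rw [hP1, Polynomial.eval_comp]
    simp
  have e2 : P2.eval t = M.p.eval (2 * (3 * t + 1) + 1 + P1.eval t) := by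
    rw [hP2, Polynomial.eval_comp]
    simp
  have h4 : pw.eval (pad m p ℓ).length ≤ P1.eval t := by
    rw [e1]
    exact eval_mono _ hlen
  have h6 : M.p.eval (2 * (pad m p ℓ).length + 1 + pw.eval (pad m p ℓ).length) ≤ P2.eval t := by
    rw [e2]
    exact eval_mono _ (by omega)
  have h7 : 4 * (P1.eval t + P2.eval t) ≤ 2 ^ tow m ℓ := by
    have : (Polynomial.C 4 * (P1 + P2)).eval t = 4 * (P1.eval t + P2.eval t) := by simp
    rw [← this]
    exact h1
  have h8 : 2 ^ tow m ℓ = 4 * 2 ^ (tow m ℓ - 2) := by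
    rw [show tow m ℓ = (tow m ℓ - 2) + 2 by omega, pow_add]
    simp
    ring
  exact ⟨ℓ, hℓN, h5, by omega, by omega⟩

/-- the algorithm fails -/
def FailsL (Φ : Oracle → Oracle) (C : Oracle) (r : Alg × Polynomial ℕ × Polynomial ℕ × ℕ)
    (X' Y' : Oracle) : Prop :=
  ∃ ℓ : ℕ, ¬ ((∃ w : List Bool, w.length ≤ r.2.2.1.eval (pad r.2.2.2 r.2.1 ℓ).length ∧
    r.1.out (join (Φ (base C X')) (Φ (base C Y'))) (pairBits (pad r.2.2.2 r.2.1 ℓ) w) =
      some [true]) ↔
    ¬ ∃ z : List Bool, z.length = tow r.2.2.2 ℓ ∧ X' z = true ∧ Y' z = true)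

theorem stageL (Φ : Oracle → Oracle) (hΦ : ∀ (n : ℕ) (B B' : Oracle),
      (∀ z : List Bool, z.length ≤ n → B z = B' z) →
      ∀ z : List Bool, z.length ≤ n → Φ B z = Φ B' z) (C : Oracle)
    (r : Alg × Polynomial ℕ × Polynomial ℕ × ℕ) (X Y : Oracle) (N : ℕ) :
    ∃ (n : ℕ) (S T : Finset (Fin n → Bool)) (N' : ℕ), N ≤ n ∧ n < N' ∧ (S ∩ T).card ≤ 1 ∧
      ∀ X' Y' : Oracle, (∀ z : List Bool, z.length < N' → X' z = put n S X z) →
        (∀ z : List Bool, z.length < N' → Y' z = put n T Y z) → FailsL Φ C r X' Y' := by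
  classical
  obtain ⟨M, p, pw, m⟩ := r
  obtain ⟨ℓ, hℓN, h5, hl, hr⟩ := small M p pw m N
  set y := pad m p ℓ with hy
  set n := tow m ℓ with hn
  have hr' : ∀ w : List Bool, w.length ≤ pw.eval y.length →
      M.p.eval (pairBits y w).length ≤ 2 ^ (n - 2) := by
    intro w hw
    refine le_trans (eval_mono _ ?_) hr
    rw [Pool.Agent.H620R2.Gauge.length_pairBits]
    omega
  have hnot : ¬ ∀ S T : Finset (Fin n → Bool), (S ∩ T).card ≤ 1 →
      ((∃ w : List Bool, w.length ≤ pw.eval y.length ∧ M.out (join (Φ (base C (put n S X)))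
        (Φ (base C (put n T Y)))) (pairBits y w) = some [true]) ↔ Disjoint S T) := by
    intro h
    have h1 := hard M y (pw.eval y.length) (2 ^ (n - 2)) hr' (fun S => Φ (base C (put n S X)))
      (fun T => Φ (base C (put n T Y))) h
    have h2 := Pool.Agent.H834Q.EJ.bigT h5
    have h3 : 2 ^ (pw.eval y.length + 1) * 2 ^ (2 ^ (n - 2) + 1) ≤
        2 ^ (2 ^ (n - 2) + 1) * 2 ^ (2 ^ (n - 2) + 1) :=
      Nat.mul_le_mul_right _ (Nat.pow_le_pow_right (by norm_num) (by omega))
    exact absurd (h1.trans (Nat.mul_le_mul_left _ h3)) (not_le.2 h2)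
  push Not at hnot
  obtain ⟨S, T, hST, hfail⟩ := hnot
  obtain ⟨b, hb⟩ := M.out_local
  set k := b.eval (2 * y.length + 1 + pw.eval y.length) with hk
  refine ⟨n, S, T, max k n + 1, hℓN.trans (le_tow m ℓ), by omega, hST,
    fun X' Y' hX hY => ⟨ℓ, fun hiff => ?_⟩⟩
  simp only at hiff
  rw [← hy, ← hn] at hiff
  have key : ∀ w : List Bool, w.length ≤ pw.eval y.length →
      M.out (join (Φ (base C X')) (Φ (base C Y'))) (pairBits y w) =
      M.out (join (Φ (base C (put n S X))) (Φ (base C (put n T Y)))) (pairBits y w) := by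
    intro w hw
    obtain ⟨Q, _, hQ2, hQ3⟩ := hb (join (Φ (base C (put n S X))) (Φ (base C (put n T Y))))
      (pairBits y w)
    apply hQ3
    intro q hq
    have h1 : q.length ≤ k := by
      refine (hQ2 q hq).trans ?_
      rw [hk]
      apply eval_mono
      rw [Pool.Agent.H620R2.Gauge.length_pairBits]
      omega
    rcases q with _ | ⟨c, q⟩
    · rfl
    · rw [List.length_cons] at h1
      have h2 : ∀ z : List Bool, z.length ≤ q.length → base C X' z = base C (put n S X) z := by
        intro z hz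
        exact base_congr hX z (by omega)
      have h3 : ∀ z : List Bool, z.length ≤ q.length → base C Y' z = base C (put n T Y) z := by
        intro z hz
        exact base_congr hY z (by omega)
      cases c
      · exact hΦ _ _ _ h2 q le_rfl
      · exact hΦ _ _ _ h3 q le_rfl
  have key2 : (∃ z : List Bool, z.length = n ∧ X' z = true ∧ Y' z = true) ↔ ¬ Disjoint S T := by
    rw [← inter_iff S T X Y]
    constructor
    · rintro ⟨z, hz, h1, h2⟩
      exact ⟨z, hz, by rw [← hX z (by omega)]; exact h1, by rw [← hY z (by omega)]; exact h2⟩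
    · rintro ⟨z, hz, h1, h2⟩
      exact ⟨z, hz, by rw [hX z (by omega)]; exact h1, by rw [hY z (by omega)]; exact h2⟩
  rw [key2, not_not] at hiff
  have hiff' : (∃ w : List Bool, w.length ≤ pw.eval y.length ∧ M.out (join (Φ (base C
        (put n S X))) (Φ (base C (put n T Y)))) (pairBits y w) = some [true]) ↔
        Disjoint S T := by
    rw [← hiff]
    constructor
    · rintro ⟨w, hw, h⟩
      exact ⟨w, hw, by rw [key w hw]; exact h⟩
    · rintro ⟨w, hw, h⟩
      exact ⟨w, hw, by rw [← key w hw]; exact h⟩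
  rcases hfail with ⟨h1, h2⟩ | ⟨h1, h2⟩
  · exact h2 (hiff'.1 h1)
  · obtain ⟨w, hw, h⟩ := hiff'.2 h2
    exact h1 w hw h

/-! ### Membership -/

/-- the two questions -/
def qs (v : List Bool) : List (List Bool) :=
  [false :: false :: false :: true :: (unpair v).2, true :: false :: false :: true :: (unpair v).2]

/-- the decision -/
def dec (t : List Bool × List Bool) : List Bool :=
  if (unpair t.1).2.length = (unpair (unpair t.1).1).2.length then
    if t.2 = [true, true] then [true] else []
  else []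

theorem poly_qs : Poly qs := by
  have hw : Poly (fun y => (unpair y).2) := Poly.snd poly_unpair
  exact Poly.cons (Poly.cons (NPC.Poly.const _) (Poly.cons (NPC.Poly.const _)
    (Poly.cons (NPC.Poly.const _) (Poly.cons (NPC.Poly.const _) hw))))
    (Poly.cons (Poly.cons (NPC.Poly.const _) (Poly.cons (NPC.Poly.const _)
    (Poly.cons (NPC.Poly.const _) (Poly.cons (NPC.Poly.const _) hw)))) (NPC.Poly.const []))

theorem poly_dec : Poly dec := by
  have hu : Poly (fun t : List Bool × List Bool => unpair t.1) :=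
    poly_unpair.comp (Poly.fst Poly.id)
  have hu2 : Poly (fun t : List Bool × List Bool => unpair (unpair t.1).1) :=
    poly_unpair.comp (Poly.fst hu)
  exact Poly.ite (Poly.decide_eq (Poly.length (Poly.snd hu)) (Poly.length (Poly.snd hu2)))
    (Poly.ite (Poly.decide_eq (Poly.snd Poly.id) (NPC.Poly.const _)) (NPC.Poly.const _)
      (NPC.Poly.const _)) (NPC.Poly.const _)

theorem isUP_level {Φ : Oracle → Oracle} {C X Y : Oracle}
    (h : ∀ z : List Bool, Φ (base C X) (false :: false :: true :: z) = X z)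
    (h' : ∀ z : List Bool, Φ (base C Y) (false :: false :: true :: z) = Y z)
    (hu : ∀ z z' : List Bool, z.length = z'.length →
      X z = true → Y z = true → X z' = true → Y z' = true → z = z') :
    IsUP (join (Φ (base C X)) (Φ (base C Y)))
      {y | ∃ z : List Bool, z.length = (unpair y).2.length ∧ X z = true ∧ Y z = true} := by
  set V : List Bool → List Bool := fun y => dec (y, (qs y).map (join (Φ (base C X))
    (Φ (base C Y)))) with hV
  have hVe : ∀ x w : List Bool, V (pairBits x w) = [true] ↔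
      w.length = (unpair x).2.length ∧ X w = true ∧ Y w = true := by
    intro x w
    have e : V (pairBits x w) = if w.length = (unpair x).2.length then
        if ([X w, Y w] : List Bool) = [true, true] then [true] else [] else [] := by
      rw [hV]
      simp only [dec, qs, unpair_pairBits, List.map_cons, List.map_nil, join, h, h']
    rw [e]
    split_ifs with h1 h2
    · simpa [h1] using h2
    · simpa [h1] using h2
    · simp [h1]
  have ps : Poly (fun y : List Bool => (unpair y).2) := Poly.snd poly_unpair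
  obtain ⟨q, hq⟩ := ps.sz_le
  refine ⟨V, q.comp (Polynomial.C 4 * Polynomial.X + Polynomial.C 1),
    IsFP.tt poly_qs poly_dec, fun x => ?_, ?_⟩
  · rw [Set.mem_setOf_eq]
    constructor
    · rintro ⟨z, h1, h2, h3⟩
      refine ⟨z, ?_, (hVe x z).2 ⟨h1, h2, h3⟩⟩
      rw [h1, Polynomial.eval_comp]
      have h4 := length_lt_sz (unpair x).2
      refine h4.le.trans ((hq x).trans (eval_mono _ ?_))
      have h5 := sz_listBool_le x
      simp only [Polynomial.eval_add, Polynomial.eval_mul, Polynomial.eval_C,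
        Polynomial.eval_X]
      exact h5
    · rintro ⟨w, _, hw⟩
      exact ⟨w, (hVe x w).1 hw⟩
  · intro x w w' _ _ h1 h2
    obtain ⟨a1, a2, a3⟩ := (hVe x w).1 h1
    obtain ⟨b1, b2, b3⟩ := (hVe x w').1 h2
    exact hu w w' (by omega) a2 a3 b2 b3

theorem mainTow (C : Oracle) : ∃ A : ℕ → Oracle,
    (∀ i, Reduces {x | C x = true} {x | A i x = true} ∧
      ∀ m L, IsTime m (A i) L ↔ IsSpace m (A i) L) ∧
    ∀ i j, i ≠ j → ∀ m, ∃ L, IsSpace m (join (A i) (A j)) L ∧
      Padded m (IsUP (join (A i) (A j))) Lᶜ ∧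
      ¬ Padded m (H877R3.Join.IsNP (join (A i) (A j))) L ∧ ¬ IsTime m (join (A i) (A j)) L := by
  obtain ⟨R, Φ, hR, hΦ1, hΦ2, hΦ3⟩ := exists_coding_local
  have : Countable (Polynomial ℕ) := CC.poly_countable
  have : Nonempty Alg := ⟨⟨_, CC.const_polyTime [], 0⟩⟩
  obtain ⟨X, hu, hf⟩ := buildG (FailsL Φ C) (fun r X Y N => stageL Φ hΦ3 C r X Y N)
  have hnc : ∀ (B : Oracle) (z : List Bool), Φ B (false :: false :: z) = B (false :: false :: z) :=
    fun B z => hΦ1 B _ (fun e x => ne_code hR z e x)
  refine ⟨fun i => Φ (base C (X i)), fun i => ⟨?_, fun m L =>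
    ⟨fun h => h.mono fun L' h => h.isPSPACE,
     fun h => h.mono fun L' h => isP_of_reduces (hΦ2 _ L' h)⟩⟩, ?_⟩
  · refine ⟨fun x => false :: false :: false :: x, polyTime_of_poly_list
      (Poly.cons (NPC.Poly.const _) (Poly.cons (NPC.Poly.const _)
        (Poly.cons (NPC.Poly.const _) NPC.Poly.id))), fun x => ?_⟩
    change C x = true ↔ Φ (base C (X i)) (false :: false :: false :: x) = true
    rw [hnc]
    exact Iff.rfl
  · intro i j hij m
    have h1 : ∀ z : List Bool, Φ (base C (X i)) (false :: false :: true :: z) = X i z :=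
      fun z => hnc _ _
    have h2 : ∀ z : List Bool, Φ (base C (X j)) (false :: false :: true :: z) = X j z :=
      fun z => hnc _ _
    have hUP := isUP_level h1 h2 (hu i j hij)
    set L : Set (List Bool) :=
      {x | ¬ ∃ z : List Bool, z.length = tow m x.length ∧ X i z = true ∧ X j z = true} with hL
    have hpad : ∀ x : List Bool, x ∈ Lᶜ ↔ pairBits x (H529R3.Lev.ones (tow m
        ((Polynomial.X : Polynomial ℕ).eval x.length))) ∈ {y : List Bool | ∃ z : List Bool,
          z.length = (unpair y).2.length ∧ X i z = true ∧ X j z = true} := by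
      intro x
      rw [Set.mem_setOf_eq, unpair_pairBits, Polynomial.eval_X]
      show ¬ ¬ (∃ z : List Bool, z.length = tow m x.length ∧ X i z = true ∧ X j z = true) ↔ _
      rw [not_not]
      simp [H529R3.Lev.ones]
    have hnP : ¬ Padded m (H877R3.Join.IsNP (join (Φ (base C (X i))) (Φ (base C (X j))))) L := by
      rintro ⟨p, L', ⟨V, pw, ⟨M, hM⟩, hL'⟩, hLL⟩
      obtain ⟨ℓ, hfail⟩ := hf i j hij (M, p, pw, m)
      apply hfail
      simp only
      have h3 := hLL (ones ℓ)
      rw [length_ones] at h3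
      have h4 := hL' (pad m p ℓ)
      have h5 : (ones ℓ : List Bool) ∈ L ↔
          ¬ ∃ z : List Bool, z.length = tow m ℓ ∧ X i z = true ∧ X j z = true := by
        show (¬ ∃ z : List Bool, z.length = tow m (ones ℓ).length ∧ X i z = true ∧
          X j z = true) ↔ _
        rw [length_ones]
      rw [← h5, h3]
      change _ ↔ pad m p ℓ ∈ L'
      rw [h4]
      constructor
      · rintro ⟨w, hw, h⟩
        rw [hM] at h
        exact ⟨w, hw, Option.some.inj h⟩
      · rintro ⟨w, hw, h⟩
        exact ⟨w, hw, by rw [hM, h]⟩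
    refine ⟨L, ?_, ⟨Polynomial.X, _, hUP, hpad⟩, hnP, fun h => hnP (h.mono fun L' h => H877R3.Join.IsP.isNP h)⟩
    refine ⟨Polynomial.X, _, (IsNP.isPSPACE (IsUP.isNP hUP)).compl, fun x => ?_⟩
    have := hpad x
    rw [Set.mem_compl_iff] at this ⊢
    rw [← this, not_not]

end Pool.Agent.H834Q.TJ
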